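import Pool.Agent.MP_f7db47_al.VC.DV

/-!
Basic facts on finite-by-cyclic groups and on theories.
-/

namespace Pool.Agent.MP_f7db47_al.VC

open GN GF

variable {G H : Type} [Group G] [Group H]

theorem IsVC.sub (j : G →* H) (hj : Function.Injective j) (h : IsVC H) : IsVC G := by
  obtain ⟨φ, hφ⟩ := h
  refine ⟨φ.comp j, Finite.of_injective (fun x : (φ.comp j).ker => (⟨j x, x.2⟩ : φ.ker)) ?_⟩
  exact fun x y e => Subtype.ext (hj (congrArg Subtype.val e))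

theorem IsVC.of_finite [Finite G] : IsVC G := ⟨1, inferInstance⟩

theorem IsVC.of_le {K K' : Subgroup G} (h : K ≤ K') (h' : IsVC K') : IsVC K :=
  h'.sub (Subgroup.inclusion h) (Subgroup.inclusion_injective h)

theorem dg_one (ψ : G →* MZ) : dg ψ 1 = 0 := by simp [dg]

theorem dg_mul (ψ : G →* MZ) (g h : G) : dg ψ (g * h) = dg ψ g + dg ψ h := by simp [dg]

theorem dg_inv (ψ : G →* MZ) (g : G) : dg ψ g⁻¹ = -dg ψ g := by simp [dg]

theorem dg_eq_zero (ψ : G →* MZ) (g : G) : dg ψ g = 0 ↔ ψ g = 1 := by simp [dg]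

theorem vc_fib (ψ : G →* MZ) (hψ : Finite ψ.ker) (n : MZ) : {g | ψ g = n}.Finite := by
  rcases Set.eq_empty_or_nonempty {g | ψ g = n} with h | ⟨g₀, h₀⟩
  · rw [h]
    exact Set.finite_empty
  refine ((Set.finite_coe_iff.1 hψ).image (g₀ * ·)).subset fun g hg => ⟨g₀⁻¹ * g, ?_, by simp⟩
  change ψ _ = 1
  rw [map_mul, map_inv, show ψ g = n from hg, show ψ g₀ = n from h₀, inv_mul_cancel]

theorem vc_ball (ψ : G →* MZ) (hψ : Finite ψ.ker) (r : ℝ) : {g | |dg ψ g| ≤ r}.Finite := by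
  refine ((Set.finite_Icc (-⌈r⌉) ⌈r⌉).biUnion fun n _ =>
    vc_fib ψ hψ (Multiplicative.ofAdd n)).subset fun g hg => ?_
  have h1 : |(((ψ g).toAdd : ℤ) : ℝ)| ≤ (⌈r⌉ : ℤ) := le_trans hg (Int.le_ceil r)
  have h2 : |(ψ g).toAdd| ≤ ⌈r⌉ := by exact_mod_cast h1
  exact Set.mem_biUnion (abs_le.1 h2) rfl

theorem exists_gen (ψ : G →* MZ) : ∃ u : G, ∀ g, ∃ n : ℤ, ψ g = ψ u ^ n := by
  obtain ⟨⟨_, u, rfl⟩, hu⟩ := IsCyclic.exists_generator (α := ψ.range)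
  refine ⟨u, fun g => ?_⟩
  obtain ⟨n, hn⟩ := hu ⟨ψ g, g, rfl⟩
  exact ⟨n, (congrArg Subtype.val hn).symm⟩

theorem Ctrl.mono {P P' : Subgroup G → Prop} {N N' r : ℕ} {S₀ : Finset G} {X : Type}
    {σ : G →* Equiv.Perm X} (h : Ctrl P N r S₀ σ) (hP : ∀ K, P K → P' K) (hN : N ≤ N') :
    Ctrl P' N' r S₀ σ := by
  obtain ⟨ι, hι, S, h1, h2, h3, h4⟩ := h
  exact ⟨ι, hι, S, fun x => (h1 x).trans hN, fun i x hx => hP _ (h2 i x hx), h3, h4⟩

theorem Ctrl.pull {P : Subgroup H → Prop} {P' : Subgroup G → Prop} {N r : ℕ} {S₀ : Finset G}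
    {S₁ : Finset H} {X : Type} {σ : H →* Equiv.Perm X} (h : Ctrl P N r S₁ σ) (f : G →* H)
    (hS : ∀ g ∈ S₀, f g ∈ S₁) (hP : ∀ K, P K → P' (K.comap f)) : Ctrl P' N r S₀ (σ.comp f) := by
  obtain ⟨ι, hι, S, h1, h2, h3, h4⟩ := h
  exact ⟨ι, hι, fun i => (S i).pull f id, h1, fun i x hx => hP _ (h2 i x hx), h3,
    fun g hg x i => h4 (f g) (hS g hg) x i⟩

theorem FHD.pull {P : Subgroup H → Prop} {P' : Subgroup G → Prop} {N r π : ℕ} {S₀ : Finset G}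
    {S₁ : Finset H} (h : FHD P N r S₁ π) (f : G →* H) (hS : ∀ g ∈ S₀, f g ∈ S₁)
    (hP : ∀ K, P K → P' (K.comap f)) : FHD P' N r S₀ π := by
  obtain ⟨s, X₀, h₀, σ₀, X, hX, σ, h1, h2, h3, h4⟩ := h
  exact ⟨s, X₀, h₀, σ₀.comp f, X, hX, fun i => (σ i).comp f, h1.pull f hS hP,
    fun i => (h2 i).pull f hS hP, h3, fun g => h4 (f g)⟩

variable {G₀ : Type} [Group G₀] (T : Thy G₀)

theorem Thy.sub' {i : G →* G₀} {i' : H →* G₀} (f : G →* H) (hf : Function.Injective f)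
    (e : ∀ g, i g = i' (f g)) (h : T.Q H i') : T.Q G i := by
  rw [show i = i'.comp f from MonoidHom.ext e]
  exact T.sub f hf h

theorem Thy.le {i : G →* G₀} {K K' : Subgroup G} (h : K ≤ K')
    (h' : T.Q K' (i.comp K'.subtype)) : T.Q K (i.comp K.subtype) :=
  T.sub' (Subgroup.inclusion h) (Subgroup.inclusion_injective h) (fun _ => rfl) h'

theorem Thy.top {i : G →* G₀} {K : Subgroup G} (h : ∀ g, g ∈ K)
    (h' : T.Q K (i.comp K.subtype)) : T.Q G i :=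
  T.sub' ((MonoidHom.id G).codRestrict K h) (fun _ _ e => congrArg Subtype.val e)
    (fun _ => rfl) h'

end Pool.Agent.MP_f7db47_al.VC
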