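import Pool.Agent.MP_f7db47_al.VC.VB

/-!
The solvable radical of a virtually solvable normal subgroup.
-/

namespace Pool.Agent.MP_f7db47_al.VC

open GN GF Function

theorem Rad_map {H H' : Type} [Group H] [Group H'] (B : Subgroup H) (f : H →* H')
    (hB : Group.IsSolvable B) : Group.IsSolvable (B.map f) :=
  Group.isSolvable_of_surjective (f.subgroupMap_surjective B)

theorem Rad_sup {H : Type} [Group H] (A B : Subgroup H) [A.Normal] (hA : Group.IsSolvable A)
    (hB : Group.IsSolvable B) : Group.IsSolvable (A ⊔ B : Subgroup H) := by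
  have h1 := Rad_map B (QuotientGroup.mk' A) hB
  have h2 : ∀ x : (A ⊔ B : Subgroup H), ((QuotientGroup.mk' A).comp (A ⊔ B).subtype) x ∈
      B.map (QuotientGroup.mk' A) := fun x => by
    have h3 := Subgroup.mem_map_of_mem (QuotientGroup.mk' A) x.2
    rwa [Subgroup.map_sup, QuotientGroup.map_mk'_self, bot_sup_eq] at h3
  refine Group.isSolvable_of_ker_le_range (Subgroup.inclusion (le_sup_left : A ≤ A ⊔ B))
    (MonoidHom.codRestrict _ _ h2) fun x hx => ?_
  have h3 : (x : H) ∈ A := (QuotientGroup.eq_one_iff _).1 (congrArg Subtype.val hx)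
  exact ⟨⟨x, h3⟩, rfl⟩

theorem Rad_char {H : Type} [Group H] (U : Subgroup H) (hi : U.index ≠ 0)
    (hs : Group.IsSolvable U) :
    ∃ N : Subgroup H, N.Characteristic ∧ N.index ≠ 0 ∧ Group.IsSolvable N := by
  classical
  have hex : ∃ n, ∃ N : Subgroup H, N.Normal ∧ Group.IsSolvable N ∧ N.index = n ∧ n ≠ 0 := by
    have : U.FiniteIndex := ⟨hi⟩
    exact ⟨_, U.normalCore, inferInstance,
      Group.isSolvable_of_isSolvable_injective (Subgroup.inclusion_injective U.normalCore_le), rfl,
      Subgroup.FiniteIndex.index_ne_zero⟩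
  obtain ⟨N, h1, h2, h3, h4⟩ := Nat.find_spec hex
  refine ⟨N, Subgroup.characteristic_iff_map_le.2 fun φ => ?_, h3 ▸ h4, h2⟩
  have h5 : (N.map φ.toMonoidHom).Normal := h1.map _ φ.surjective
  have h6 := Subgroup.relIndex_mul_index (le_sup_left : N ≤ N ⊔ N.map φ.toMonoidHom)
  have h7 : (N ⊔ N.map φ.toMonoidHom).index ≠ 0 := fun h => by
    rw [h, mul_zero, h3] at h6
    exact h4 h6.symm
  have h8 : N.index ≤ (N ⊔ N.map φ.toMonoidHom).index := h3 ▸
    Nat.find_min' hex ⟨_, inferInstance, Rad_sup _ _ h2 (Rad_map _ _ h2), rfl, h7⟩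
  have h9 : N.relIndex (N ⊔ N.map φ.toMonoidHom) = 1 := by
    have h10 : N.relIndex (N ⊔ N.map φ.toMonoidHom) ≠ 0 := fun h => by
      rw [h, zero_mul, h3] at h6
      exact h4 h6.symm
    have h11 : N.relIndex (N ⊔ N.map φ.toMonoidHom) ≤ 1 :=
      Nat.le_of_mul_le_mul_right (by rw [h6, one_mul]; exact h8) (Nat.pos_of_ne_zero h7)
    omega
  exact le_sup_right.trans (Subgroup.relIndex_eq_one.1 h9)

theorem exists_rad {Γ : Type} [Group Γ] (K U : Subgroup Γ) (hK : K.Normal) (hU : U ≤ K)
    (hi : U.relIndex K ≠ 0) (hs : IsSolvable U) :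
    ∃ N : Subgroup Γ, N.Normal ∧ N ≤ K ∧ N.relIndex K ≠ 0 ∧ IsSolvable N := by
  have : Group.IsSolvable U := hs
  obtain ⟨N, h1, h2, h3⟩ := Rad_char (U.subgroupOf K) hi
    (Group.isSolvable_of_isSolvable_injective (f := (Subgroup.subgroupOfEquivOfLe hU).toMonoidHom)
      (Subgroup.subgroupOfEquivOfLe hU).injective)
  refine ⟨N.map K.subtype, inferInstance, Subgroup.map_subtype_le N, ?_, Rad_map _ _ h3⟩
  rwa [Subgroup.relIndex, Subgroup.subgroupOf,
    Subgroup.comap_map_eq_self_of_injective K.subtype_injective]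

section

variable {G S : Type} [Group G] [Ring S] (f : G →* S)

/-- sums of products of at least `k` elements `f g - 1` -/
def Rad_I (k : ℕ) : AddSubgroup S :=
  AddSubgroup.closure {x | ∃ l : List G, k ≤ l.length ∧ (l.map fun g => f g - 1).prod = x}

theorem Rad_anti {k m : ℕ} (h : k ≤ m) : Rad_I f m ≤ Rad_I f k :=
  AddSubgroup.closure_mono fun _ ⟨l, h1, h2⟩ => ⟨l, h.trans h1, h2⟩

theorem Rad_mul {k m : ℕ} {x y : S} (hx : x ∈ Rad_I f k) (hy : y ∈ Rad_I f m) :
    x * y ∈ Rad_I f (k + m) := by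
  induction hx using AddSubgroup.closure_induction with
  | zero => simp
  | add a b _ _ ha hb => exact add_mul a b y ▸ add_mem ha hb
  | neg a _ ha => exact neg_mul a y ▸ neg_mem ha
  | mem a ha =>
    induction hy using AddSubgroup.closure_induction with
    | zero => simp
    | add c d _ _ hc hd => exact mul_add a c d ▸ add_mem hc hd
    | neg c _ hc => exact mul_neg a c ▸ neg_mem hc
    | mem b hb =>
      obtain ⟨l, h1, rfl⟩ := ha
      obtain ⟨l', h2, rfl⟩ := hb
      exact AddSubgroup.subset_closure ⟨l ++ l', by rw [List.length_append]; omega, by simp⟩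

theorem Rad_one (g : G) : f g - 1 ∈ Rad_I f 1 := AddSubgroup.subset_closure ⟨[g], le_rfl, by simp⟩

theorem Rad_right {k : ℕ} {x : S} (hx : x ∈ Rad_I f k) (g : G) : x * f g ∈ Rad_I f k := by
  have h0 : x * (f g - 1) ∈ Rad_I f k := Rad_anti f (Nat.le_add_right k 1) (Rad_mul f hx (Rad_one f g))
  have h := AddSubgroup.add_mem _ hx h0
  rwa [mul_sub, mul_one, add_sub_cancel] at h

/-- the elements congruent to one -/
def Rad_G (k : ℕ) : Subgroup G where
  carrier := {g | f g - 1 ∈ Rad_I f k}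
  one_mem' := by simp
  mul_mem' := fun {a b} ha hb => by
    have h := add_mem (Rad_right f ha b) hb
    rwa [sub_mul, one_mul, sub_add_sub_cancel, ← map_mul] at h
  inv_mem' := fun {a} ha => by
    have h := neg_mem (Rad_right f ha a⁻¹)
    rwa [sub_mul, one_mul, ← map_mul, mul_inv_cancel, map_one, neg_sub] at h

theorem Rad_der (n : ℕ) : derivedSeries G n ≤ Rad_G f (n + 1) := by
  induction n with
  | zero => exact fun g _ => Rad_one f g
  | succ n ih =>
    rw [derivedSeries_succ, Subgroup.commutator_le]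
    intro a ha b hb
    have h1 := Rad_mul f (ih ha) (Rad_one f b)
    have h2 := Rad_mul f (ih hb) (Rad_one f a)
    have h3 := Rad_right f (sub_mem h1 h2) (a⁻¹ * b⁻¹)
    have h4 : (f a - 1) * (f b - 1) - (f b - 1) * (f a - 1) = f (a * b) - f (b * a) := by
      rw [map_mul, map_mul]
      noncomm_ring
    rw [h4, sub_mul, ← map_mul, ← map_mul, show b * a * (a⁻¹ * b⁻¹) = 1 by group, map_one,
      ← mul_assoc] at h3
    exact h3

end

theorem solv_of_nil {G S : Type} [Group G] [Ring S] (f : G →* S) (hf : Injective f) (c : ℕ)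
    (h : ∀ l : List G, l.length = c → (l.map fun g => f g - 1).prod = 0) : IsSolvable G := by
  have h1 : Rad_I f (c + 1) ≤ ⊥ := by
    refine (AddSubgroup.closure_le _).2 ?_
    rintro _ ⟨l, h2, rfl⟩
    rw [← List.take_append_drop c l, List.map_append, List.prod_append,
      h _ (List.length_take_of_le (by omega)), zero_mul]
    exact zero_mem _
  refine ⟨c, eq_bot_iff.2 fun g hg => ?_⟩
  have h2 : f g - 1 = 0 := h1 (Rad_der f c hg)
  exact hf (by rw [map_one]; exact sub_eq_zero.1 h2)

end Pool.Agent.MP_f7db47_al.VC
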