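import Pool.Agent.MP_f7db47_al.GS.UniA
import Pool.Agent.MP_f7db47_al.GF.DF

/-!
Linear groups that are quasi-unipotent by cyclic are virtually solvable.
-/

namespace Pool.Agent.MP_f7db47_al.VC

open GF
open scoped commutatorElement

theorem Solv_core {A k : Type} [CommRing A] [IsDomain A] [Field k] (φ : A →+* k) {n r : ℕ}
    (hr : (r : k) ≠ 0) (x : Matrix (Fin n) (Fin n) A) (h1 : φ.mapMatrix x = 1)
    (h : IsNilpotent (x ^ r - 1)) : IsNilpotent (x - 1) := by
  rcases isEmpty_or_nonempty (Fin n) with hn | hn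
  · exact ⟨1, Subsingleton.elim _ _⟩
  obtain ⟨N, hN⟩ := h
  have h3 : Commute (x - 1) (∑ i ∈ Finset.range r, x ^ i) :=
    Commute.sum_right _ _ _ fun i _ =>
      ((Commute.refl x).sub_left (Commute.one_left x)).pow_right i
  rw [← mul_geom_sum, h3.mul_pow] at hN
  have h4 : ((∑ i ∈ Finset.range r, x ^ i) ^ N).det ≠ 0 := fun e => by
    have h5 := congrArg φ e
    rw [RingHom.map_det, map_pow, map_sum, map_zero] at h5
    simp only [map_pow, h1, one_pow, Finset.sum_const, Finset.card_range] at h5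
    rw [Matrix.det_pow, ← Nat.cast_smul_eq_nsmul k, Matrix.det_smul, Matrix.det_one,
      mul_one] at h5
    exact hr (eq_zero_of_pow_eq_zero (eq_zero_of_pow_eq_zero h5))
  refine ⟨N, (smul_eq_zero_iff_right h4).1 ?_⟩
  rw [← mul_one ((x - 1) ^ N), ← Matrix.mul_smul, ← Matrix.mul_adjugate, ← mul_assoc, hN, zero_mul]

theorem Solv_jac : IsJacobsonRing ℤ := by
  rw [isJacobsonRing_iff_prime_eq]
  intro P hP
  by_cases h : P = ⊥
  · subst h
    rw [eq_bot_iff]
    intro x hx
    rw [Ideal.mem_jacobson_bot] at hx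
    have := Int.isUnit_iff.1 (hx x)
    have h2 : x * x = 0 := by
      rcases this with h | h <;> nlinarith [mul_self_nonneg x]
    simpa using h2
  · have := Ring.DimensionLEOne.maximalOfPrime h hP
    exact Ideal.jacobson_eq_self_of_isMaximal

theorem Solv_res (A : Type) [CommRing A] [Nontrivial A] [i : Algebra ℤ A]
    (hA : Algebra.FiniteType ℤ A) :
    ∃ (k : Type) (_ : Field k) (_ : Finite k) (p : ℕ) (_ : CharP k p), p.Prime ∧
      Nonempty (A →+* k) := by
  obtain rfl : i = Ring.toIntAlgebra A := Subsingleton.elim _ _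
  obtain ⟨Q, hQ⟩ := Ideal.exists_maximal A
  let := Ideal.Quotient.field Q
  have h1 : Algebra.FiniteType ℤ (A ⧸ Q) :=
    hA.of_surjective (Ideal.Quotient.mk Q).toIntAlgHom Ideal.Quotient.mk_surjective
  have := Solv_jac
  have h2 : Module.Finite ℤ (A ⧸ Q) := finite_of_finite_type_of_isJacobsonRing _ _
  obtain ⟨p, hp⟩ := CharP.exists (A ⧸ Q)
  rcases CharP.char_is_prime_or_zero (A ⧸ Q) p with h0 | rfl
  · have := Fact.mk h0
    let := ZMod.algebra (A ⧸ Q) p
    have h3 : Module.Finite (ZMod p) (A ⧸ Q) := Module.Finite.of_restrictScalars_finite ℤ _ _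
    exact ⟨A ⧸ Q, inferInstance, Module.finite_of_finite (ZMod p), p, hp, h0,
      ⟨Ideal.Quotient.mk Q⟩⟩
  · have := CharP.charP_to_charZero (A ⧸ Q)
    exact (Int.not_isField ((Algebra.IsIntegral.isField_iff_isField (R := ℤ) (S := A ⧸ Q)
      (algebraMap ℤ (A ⧸ Q)).injective_int).2 (Field.toIsField _))).elim

theorem Solv_dom {H A : Type} [Group H] [CommRing A] [IsDomain A] (hA : Algebra.FiniteType ℤ A)
    {n : ℕ} (f : H →* GL (Fin n) A) :
    ∃ U : Subgroup H, U.FiniteIndex ∧ ∀ g ∈ U, QU (f g).val → IsNilpotent ((f g).val - 1) := by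
  obtain ⟨k, _, _, p, _, hp, ⟨φ⟩⟩ := Solv_res A hA
  have := Fact.mk hp
  by_cases h0 : (p : A) = 0
  · have : CharP A p := (CharP.charP_iff_prime_eq_zero hp).2 h0
    refine ⟨((Matrix.GeneralLinearGroup.map φ).comp f).ker, inferInstance, fun g hg hq => ?_⟩
    obtain ⟨m, hm, h6⟩ := hq
    exact GS.UniP_core p φ hm _ (congrArg Units.val hg) h6
  have hnt : Nontrivial (Localization.Away (p : A)) :=
    (IsLocalization.injective (Localization.Away (p : A))
      (powers_le_nonZeroDivisors_of_noZeroDivisors h0)).nontrivial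
  have hft : Algebra.FiniteType ℤ (Localization.Away (p : A)) :=
    hA.trans (IsLocalization.finiteType_of_monoid_fg (Submonoid.powers (p : A)) _)
  obtain ⟨k', _, _, q, _, hq, ⟨ψ'⟩⟩ := Solv_res (Localization.Away (p : A)) hft
  let ψ : A →+* k' := ψ'.comp (algebraMap A _)
  have hψ : (p : k') ≠ 0 := by
    rw [← map_natCast ψ]
    exact ((IsLocalization.Away.algebraMap_isUnit (p : A)).map ψ').ne_zero
  refine ⟨((Matrix.GeneralLinearGroup.map φ).comp f).ker ⊓
    ((Matrix.GeneralLinearGroup.map ψ).comp f).ker, inferInstance, fun g hg hqu => ?_⟩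
  obtain ⟨m, hm, h6⟩ := hqu
  obtain ⟨a, r, hr, rfl⟩ := Nat.exists_eq_pow_mul_and_not_dvd hm.ne' p hp.ne_one
  have e1 : φ.mapMatrix (f g).val = 1 := congrArg Units.val hg.1
  have e2 : ψ.mapMatrix (f g).val = 1 := congrArg Units.val hg.2
  refine Solv_core ψ (r := p ^ a) (by rw [Nat.cast_pow]; exact pow_ne_zero _ hψ) _ e2 ?_
  refine Solv_core φ (r := r) (fun e => hr ((CharP.cast_eq_zero_iff k p r).1 e)) _
    (by rw [map_pow, e1, one_pow]) ?_
  rwa [← pow_mul]

theorem Solv_nil {U S : Type} [Group U] [Ring S] (f : U →* S) (hf : Function.Injective f)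
    (J : AddSubgroup S) (c : ℕ) (h1 : ∀ g, f g - 1 ∈ J) (h2 : ∀ a ∈ J, ∀ b ∈ J, a * b ∈ J)
    (h3 : ∀ l : List S, l.length = c → (∀ a ∈ l, a ∈ J) → l.prod = 0) : Group.IsSolvable U := by
  let W : Submodule ℤ S := J.toIntSubmodule
  have hc : W ^ c = ⊥ := by
    rw [Submodule.pow_eq_span_pow_set, Submodule.span_eq_bot]
    intro x hx
    obtain ⟨g, rfl⟩ := Set.mem_pow.1 hx
    exact h3 _ (by simp) fun a ha => by
      obtain ⟨i, rfl⟩ := List.mem_ofFn.1 ha
      exact (g i).2
  have hW : W * W ≤ W := Submodule.mul_le.2 h2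
  have hd : ∀ i, W ^ (i + 2) ≤ W ^ (i + 1) := fun i => by
    rw [pow_succ, pow_succ, mul_assoc]
    exact mul_le_mul' le_rfl hW
  have hl : ∀ i g, ∀ x ∈ W ^ (i + 1), (f g - 1) * x ∈ W ^ (i + 2) := fun i g x hx => by
    rw [pow_succ' W (i + 1)]
    exact Submodule.mul_mem_mul (h1 g) hx
  have hr : ∀ i g, ∀ x ∈ W ^ (i + 1), x * (f g - 1) ∈ W ^ (i + 2) := fun i g x hx => by
    rw [pow_succ W (i + 1)]
    exact Submodule.mul_mem_mul hx (h1 g)
  let V : ℕ → Subgroup U := fun i => GS.NilV_sub f (W ^ (i + 1)) fun g x hx => hd i (hl i g x hx)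
  have key : ∀ i, derivedSeries U i ≤ V i := fun i => by
    induction i with
    | zero =>
      intro g _
      show f g - 1 ∈ W ^ (0 + 1)
      rw [zero_add, pow_one]
      exact h1 g
    | succ i ih =>
      rw [derivedSeries_succ, Subgroup.commutator_le]
      intro a ha b hb
      have e1 : f a * f b - f b * f a ∈ W ^ (i + 2) := by
        have : f a * f b - f b * f a = (f a - 1) * (f b - 1) - (f b - 1) * (f a - 1) := by
          noncomm_ring
        rw [this]
        exact sub_mem (hl i a _ (ih hb)) (hl i b _ (ih ha))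
      have e2 : f ⁅a, b⁆ - 1 = (f a * f b - f b * f a) * (f (a⁻¹ * b⁻¹) - 1) +
          (f a * f b - f b * f a) := by
        have e3 : f b * f a * f (a⁻¹ * b⁻¹) = 1 := by
          rw [← map_mul, ← map_mul, ← map_one f]
          congr 1
          group
        have e4 : f ⁅a, b⁆ = f a * f b * f (a⁻¹ * b⁻¹) := by
          rw [← map_mul, ← map_mul, commutatorElement_def, mul_assoc]
        rw [mul_sub, mul_one, sub_add_cancel, sub_mul, e3, e4]
      show f ⁅a, b⁆ - 1 ∈ W ^ (i + 1 + 1)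
      rw [e2]
      exact add_mem (hd (i + 1) (hr (i + 1) _ _ e1)) e1
  refine ⟨⟨c, eq_bot_iff.2 fun g hg => ?_⟩⟩
  have h4 : f g - 1 ∈ W ^ (c + 1) := key c hg
  rw [pow_succ, hc, Submodule.bot_mul, Submodule.mem_bot, sub_eq_zero, ← map_one f] at h4
  exact hf h4

theorem Solv_noeth {G A : Type} [Group G] [CommRing A] [IsNoetherianRing A] {n : ℕ}
    (f : G →* GL (Fin n) A) (hf : Function.Injective f)
    (h : ∀ (Q : minimalPrimes A) g,
      IsNilpotent ((Ideal.Quotient.mk Q.1).mapMatrix (f g).val - 1)) : Group.IsSolvable G := by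
  have hfin : Finite (minimalPrimes A) := (minimalPrimes.finite_of_isNoetherianRing A).to_subtype
  have := Fintype.ofFinite (minimalPrimes A)
  have hp : ∀ Q : minimalPrimes A, Q.1.IsPrime := fun Q => Ideal.IsMinimalPrime.isPrime Q.2
  let π : ∀ Q : minimalPrimes A, A →+* FractionRing (A ⧸ Q.1) := fun Q =>
    (algebraMap (A ⧸ Q.1) _).comp (Ideal.Quotient.mk Q.1)
  have hπ : ∀ Q x, π Q x = 0 → x ∈ Q.1 := fun Q x hx => Ideal.Quotient.eq_zero_iff_mem.1
    ((map_eq_zero_iff _ (IsFractionRing.injective (A ⧸ Q.1) _)).1 hx)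
  choose J c h1 h2 h3 using fun Q => GS.kolchin
    ((π Q).mapMatrix.toMonoidHom.comp ((Units.coeHom _).comp f)) fun g => by
      have := (h Q g).map (algebraMap (A ⧸ Q.1) (FractionRing (A ⧸ Q.1))).mapMatrix
      rw [map_sub, map_one] at this
      exact this
  obtain ⟨k, hk⟩ := IsNoetherianRing.isNilpotent_nilradical A
  refine Solv_nil ((Units.coeHom _).comp f) (Units.val_injective.comp hf)
    (⨅ Q, (J Q).comap (π Q).mapMatrix.toAddMonoidHom) ((∑ Q, c Q) * k)
    (fun g => AddSubgroup.mem_iInf.2 fun Q => by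
      show (π Q).mapMatrix ((f g).val - 1) ∈ J Q
      rw [map_sub, map_one]
      exact h1 Q g)
    (fun a ha b hb => AddSubgroup.mem_iInf.2 fun Q => by
      rw [AddSubgroup.mem_iInf] at ha hb
      show (π Q).mapMatrix (a * b) ∈ J Q
      rw [map_mul]
      exact h2 Q _ (ha Q) _ (hb Q))
    fun l hl hm => Matrix.ext fun i j => ?_
  have := GS.UniA_pow (nilradical A) _ (fun l hl hm i j => ?_) k l hl hm i j
  · rwa [hk] at this
  rw [nilradical, ← Ideal.sInf_minimalPrimes, Ideal.mem_sInf]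
  intro Q hQ
  have h4 := Finset.single_le_sum (f := c) (fun _ _ => Nat.zero_le _) (Finset.mem_univ ⟨Q, hQ⟩)
  have h5 : (π ⟨Q, hQ⟩).mapMatrix l.prod = 0 := by
    rw [← List.take_append_drop (c ⟨Q, hQ⟩) l, List.prod_append, map_mul, map_list_prod,
      h3 _ _ (by rw [List.length_map, List.length_take]; omega), zero_mul]
    intro a ha
    obtain ⟨b, hb, rfl⟩ := List.mem_map.1 ha
    exact AddSubgroup.mem_iInf.1 (hm b (List.mem_of_mem_take hb)) ⟨Q, hQ⟩
  exact hπ ⟨Q, hQ⟩ _ (congrFun (congrFun h5 i) j)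

/-- Virtually solvable groups. -/
def VS (H : Type) [Group H] : Prop :=
  ∃ S : Subgroup H, S.Normal ∧ S.FiniteIndex ∧ Group.IsSolvable S

theorem virt_solv {H A : Type} [Group H] [Group.FG H] [CommRing A] {n : ℕ}
    (f : H →* GL (Fin n) A) (φ : H →* Multiplicative ℤ) (hi : ∀ g, f g = 1 → φ g = 1 → g = 1)
    (h : ∀ g, φ g = 1 → QU (f g).val) : VS H := by
  obtain ⟨B, f₀, hB, hf⟩ := GN.exists_fg_subring ‹_› A n f
  have h5 : Function.Injective (B.subtype.mapMatrix (m := Fin n)) :=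
    Matrix.map_injective B.subtype_injective
  have e : ∀ g, (f g).val = B.subtype.mapMatrix (f₀ g).val := fun g => hf g ▸ rfl
  have h0 : ∀ g, φ g = 1 → QU (f₀ g).val := fun g hg => by
    obtain ⟨m, hm, h1⟩ := h g hg
    refine ⟨m, hm, (IsNilpotent.map_iff h5).1 ?_⟩
    rwa [map_sub, map_pow, map_one, ← e]
  have hno : IsNoetherianRing B := Algebra.FiniteType.isNoetherianRing ℤ B
  have hfin : Finite (minimalPrimes B) := (minimalPrimes.finite_of_isNoetherianRing B).to_subtype
  choose U hU h1 using fun Q : minimalPrimes B =>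
    have := Ideal.IsMinimalPrime.isPrime Q.2
    Solv_dom (A := B ⧸ Q.1)
      (hB.of_surjective (Ideal.Quotient.mk Q.1).toIntAlgHom Ideal.Quotient.mk_surjective)
      ((Matrix.GeneralLinearGroup.map (Ideal.Quotient.mk Q.1)).comp f₀)
  have hU' : (⨅ Q, U Q).FiniteIndex := Subgroup.finiteIndex_iInf hU
  let S : Subgroup H := (⨅ Q, U Q).normalCore
  let ψ : S →* Multiplicative ℤ := φ.comp S.subtype
  have hk : Group.IsSolvable ψ.ker := by
    refine Solv_noeth (f₀.comp (S.subtype.comp ψ.ker.subtype)) ?_ fun Q g => ?_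
    · refine (injective_iff_map_eq_one _).2 fun g hg => Subtype.ext (Subtype.ext ?_)
      refine hi _ ?_ g.2
      rw [← hf]
      exact (congrArg _ hg).trans (map_one _)
    · refine h1 Q g.1.1 (Subgroup.mem_iInf.1 ((⨅ Q, U Q).normalCore_le g.1.2) Q) ?_
      obtain ⟨m, hm, h2⟩ := h0 g.1.1 g.2
      refine ⟨m, hm, ?_⟩
      have h3 := h2.map ((Ideal.Quotient.mk Q.1).mapMatrix (m := Fin n))
      rwa [map_sub, map_pow, map_one] at h3
  exact ⟨S, inferInstance, inferInstance,
    Group.isSolvable_of_ker_le_range ψ.ker.subtype ψ (by simp)⟩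

theorem virt_solv_range {H A : Type} [Group H] [Group.FG H] [CommRing A] {n : ℕ}
    (f : H →* GL (Fin n) A) (φ : H →* Multiplicative ℤ) (h : ∀ g, φ g = 1 → QU (f g).val) :
    VS (f.prod φ).range := by
  refine virt_solv ((MonoidHom.fst _ _).comp (f.prod φ).range.subtype)
    ((MonoidHom.snd _ _).comp (f.prod φ).range.subtype)
    (fun g h1 h2 => Subtype.ext (Prod.ext h1 h2)) fun g hg => ?_
  obtain ⟨_, x, rfl⟩ := g
  exact h x hg

end Pool.Agent.MP_f7db47_al.VC
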