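import Pool.Agent.MP_f7db47_al.VC.VB
import Pool.Agent.MP_f7db47_al.GF.FPi

/-!
The wreath product acts cocompactly on Euclidean space.
-/

namespace Pool.Agent.MP_f7db47_al.VC

open GN GF Metric

/-- The real line with its affine lines. -/
noncomputable def WrP_line : Sp where
  X := ℝ
  o := 0
  L := {c | ∃ a b : ℝ, c = fun t => a * t + b}

theorem WrP_geo : WrP_line.Geo := by
  refine ⟨?_, fun x y => ?_, ?_⟩
  · rintro c ⟨a, b, rfl⟩ a' s
    exact ⟨a * a', a * s + b, funext fun t => show a * (a' * t + s) + b = _ by ring⟩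
  · change ℝ at x y
    exact ⟨_, ⟨y - x, x, rfl⟩, show (y - x) * 0 + x = x by ring, show (y - x) * 1 + x = y by ring⟩
  · rintro c ⟨a, b, rfl⟩ c' ⟨a', b', rfl⟩ l h0 h1
    show |a * l + b - (a' * l + b')| ≤
      (1 - l) * |a * 0 + b - (a' * 0 + b')| + l * |a * 1 + b - (a' * 1 + b')|
    have e : a * l + b - (a' * l + b') =
        (1 - l) * (a * 0 + b - (a' * 0 + b')) + l * (a * 1 + b - (a' * 1 + b')) := by ring
    rw [e]
    refine (abs_add_le _ _).trans ?_
    rw [abs_mul, abs_mul, abs_of_nonneg h0, abs_of_nonneg (by linarith : 0 ≤ 1 - l)]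

theorem WrP_par : WrP_line.Par 1 (1 + 1) := by
  intro C
  refine ⟨ℝ × ℝ, inferInstance, closedBall 0 1 ×ˢ closedBall 0 C,
    fun p t => (p.1 * t + p.2 : ℝ), 1,
    (isCompact_closedBall _ _).prod (isCompact_closedBall _ _),
    Cov.prod (cov_real 1) (cov_real C), fun p hp => ⟨⟨p.1, p.2, rfl⟩, ?_⟩,
    fun p _ p' _ t => ?_, ?_⟩
  · show |p.1 * 0 + p.2 - (p.1 * 1 + p.2)| ≤ 1
    have h := hp.1
    rw [mem_closedBall, Real.dist_eq, sub_zero] at h
    have e : p.1 * 0 + p.2 - (p.1 * 1 + p.2) = -p.1 := by ring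
    rwa [e, abs_neg]
  · show |p.1 * t + p.2 - (p'.1 * t + p'.2)| ≤ 1 * dist p p' * Real.exp (1 * |t|)
    have h1 : |p.1 - p'.1| ≤ dist p p' := le_max_left (dist p.1 p'.1) (dist p.2 p'.2)
    have h2 : |p.2 - p'.2| ≤ dist p p' := le_max_right (dist p.1 p'.1) (dist p.2 p'.2)
    have e : p.1 * t + p.2 - (p'.1 * t + p'.2) = (p.1 - p'.1) * t + (p.2 - p'.2) := by ring
    have h3 := Real.add_one_le_exp |t|
    have h4 : 0 ≤ dist p p' := dist_nonneg
    have h5 := mul_le_mul_of_nonneg_right h1 (abs_nonneg t)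
    have h6 := mul_le_mul_of_nonneg_left h3 h4
    rw [e, one_mul, one_mul]
    refine (abs_add_le _ _).trans ?_
    rw [abs_mul]
    linarith
  · rintro c ⟨a, b, rfl⟩ hC hd
    refine ⟨(a, b), ⟨?_, ?_⟩, rfl⟩
    · have h : |a * 0 + b - (a * 1 + b)| ≤ 1 := hd
      have e : a * 0 + b - (a * 1 + b) = -a := by ring
      rw [e, abs_neg] at h
      rwa [mem_closedBall, Real.dist_eq, sub_zero]
    · have h : |a * 0 + b - 0| ≤ C := hC
      rw [mul_zero, zero_add] at h
      exact h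

theorem WrP_trop (r : ℕ) : TropC {z : Unit → ℝ | -(r : ℝ) ≤ z () ∧ z () ≤ r} 1 := by
  classical
  refine ⟨fun x hx y hy c hc => ⟨le_min hx.1 (by linarith [hy.1]),
    (min_le_left _ _).trans hx.2⟩, fun Q hQ x hx => ?_, fun Q _ z M hz _ hM => ?_⟩
  · have hQ' : (0 : ℝ) < Q := by exact_mod_cast hQ
    constructor
    · show -(r : ℝ) ≤ (⌊(Q : ℝ) * x ()⌋ : ℝ) / Q
      rw [le_div_iff₀ hQ']
      have h : (-((r : ℤ) * Q)) ≤ ⌊(Q : ℝ) * x ()⌋ := by
        rw [Int.le_floor]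
        push_cast
        nlinarith [hx.1]
      have h' : (((-((r : ℤ) * Q) : ℤ)) : ℝ) ≤ (⌊(Q : ℝ) * x ()⌋ : ℝ) := by exact_mod_cast h
      push_cast at h'
      linarith
    · show (⌊(Q : ℝ) * x ()⌋ : ℝ) / Q ≤ r
      rw [div_le_iff₀ hQ']
      have := Int.floor_le ((Q : ℝ) * x ())
      nlinarith [hx.2]
  · have key : ∀ a b : ℕ, a < b → b < M → z (a + 1) ≠ z a → z (b + 1) ≠ z b → False := by
      intro a b hab hb ha hb'
      have l1 : z a () < z (a + 1) () :=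
        lt_of_le_of_ne (hz (Nat.le_succ a) ()) fun e => ha (funext fun _ => e.symm)
      have l2 : z b () < z (b + 1) () :=
        lt_of_le_of_ne (hz (Nat.le_succ b) ()) fun e => hb' (funext fun _ => e.symm)
      have l3 : z 0 () ≤ z a () := hz (Nat.zero_le a) ()
      have l4 : z (a + 1) () ≤ z b () := hz hab ()
      have l5 : z (b + 1) () ≤ z M () := hz hb ()
      have l6 := hM ()
      omega
    refine Finset.card_le_one.2 fun a ha b hb => ?_
    simp only [Finset.mem_filter, Finset.mem_range] at ha hb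
    rcases lt_trichotomy a b with h | h | h
    · exact (key a b h hb.1 ha.2 hb.2).elim
    · exact h
    · exact (key b a h ha.1 hb.2 ha.2).elim

theorem WrP_fine : WrP_line.Fine 1 := by
  intro r _
  refine ⟨Unit, inferInstance, fun x _ => (x : ℝ), ?_, fun x _ y _ h => congrFun h (), ?_⟩
  · exact (continuous_pi fun _ => continuous_id).continuousOn
  · convert WrP_trop r using 1
    ext z
    constructor
    · rintro ⟨x, hx, rfl⟩
      change ℝ at x
      have h : |x - (0 : ℝ)| ≤ (r : ℝ) := hx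
      rw [sub_zero] at h
      exact abs_le.1 h
    · intro hz
      refine ⟨z (), ?_, funext fun _ => rfl⟩
      show |z () - 0| ≤ r
      rw [sub_zero]
      exact abs_le.2 hz

theorem WrP_good : WrP_line.Good := ⟨WrP_geo, ⟨1, _, one_pos, WrP_par⟩, ⟨1, WrP_fine⟩⟩

/-- The action on Euclidean space. -/
noncomputable def WrP_rho (ι : Type) : Wr ι →* Equiv.Perm (ι → ℝ) :=
  MonoidHom.toHomPerm
    { toFun := fun x => (fun y i => (x.b i : ℝ) + y (x.σ⁻¹ i) : (ι → ℝ) → ι → ℝ)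
      map_one' := funext fun y => funext fun i =>
        show (((1 : Wr ι).b i : ℤ) : ℝ) + y ((1 : Wr ι).σ⁻¹ i) = y i by
          simp [Wr.one_b, Wr.one_σ]
      map_mul' := fun x x' => funext fun y => funext fun i =>
        show (((x * x').b i : ℤ) : ℝ) + y ((x * x').σ⁻¹ i) =
            (x.b i : ℝ) + ((x'.b (x.σ⁻¹ i) : ℝ) + y (x'.σ⁻¹ (x.σ⁻¹ i))) by
          simp [Wr.mul_b, Wr.mul_σ, add_assoc] }

theorem WrP_rho_apply {ι : Type} (x : Wr ι) (y : ι → ℝ) (i : ι) :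
    WrP_rho ι x y i = (x.b i : ℝ) + y (x.σ⁻¹ i) := rfl

theorem WrP_le {ι : Type} [Fintype ι] (x : Wr ι) (y y' : ι → ℝ) :
    dist (WrP_rho ι x y) (WrP_rho ι x y') ≤ dist y y' := by
  refine (dist_pi_le_iff dist_nonneg).2 fun i => ?_
  rw [WrP_rho_apply, WrP_rho_apply, dist_add_left]
  exact dist_le_pi_dist y y' _

theorem WrP_iso {ι : Type} [Fintype ι] (x : Wr ι) (y y' : ι → ℝ) :
    dist (WrP_rho ι x y) (WrP_rho ι x y') = dist y y' := by
  refine le_antisymm (WrP_le x y y') ?_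
  have h := WrP_le x⁻¹ (WrP_rho ι x y) (WrP_rho ι x y')
  rwa [← Equiv.Perm.mul_apply, ← Equiv.Perm.mul_apply, ← map_mul, inv_mul_cancel, map_one] at h

theorem WrP_prp {ι : Type} [Fintype ι] (r : ℝ) :
    {x : Wr ι | dist (WrP_rho ι x 0) (0 : ι → ℝ) ≤ r}.Finite := by
  classical
  have hf : ((Set.univ.pi fun _ : ι => Set.Icc (-⌈r⌉) ⌈r⌉) ×ˢ
      (Set.univ : Set (Equiv.Perm ι))).Finite :=
    (Set.Finite.pi fun _ => Set.finite_Icc _ _).prod Set.finite_univ
  refine Set.Finite.of_injOn (f := fun x : Wr ι => (x.b, x.σ)) ?_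
    (fun x _ y _ h => Wr.ext (congrArg Prod.fst h) (congrArg Prod.snd h)) hf
  intro x hx
  refine ⟨fun i _ => ?_, trivial⟩
  have h := (dist_le_pi_dist (WrP_rho ι x 0) (0 : ι → ℝ) i).trans hx
  rw [WrP_rho_apply, Pi.zero_apply, Pi.zero_apply, add_zero, Real.dist_eq, sub_zero] at h
  have h2 := abs_le.1 (h.trans (Int.le_ceil r))
  exact ⟨by exact_mod_cast h2.1, by exact_mod_cast h2.2⟩

theorem WrP_cc {ι : Type} [Fintype ι] (y : ι → ℝ) :
    ∃ x : Wr ι, dist (WrP_rho ι x y) (0 : ι → ℝ) ≤ 1 := by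
  refine ⟨⟨fun i => -⌊y i⌋, 1⟩, (dist_pi_le_iff zero_le_one).2 fun i => ?_⟩
  rw [WrP_rho_apply, Pi.zero_apply, Real.dist_eq, sub_zero]
  have h1 := Int.floor_le (y i)
  have h2 := Int.lt_floor_add_one (y i)
  simp only [inv_one, Equiv.Perm.one_apply]
  push_cast
  exact abs_le.2 ⟨by linarith, by linarith⟩

theorem wr_pack (ι : Type) [Fintype ι] : HasPack (Wr ι) ∅ := by
  refine ⟨Sp.pi fun _ : ι => WrP_line, Sp.Good.pi fun _ => WrP_good, ⟨
    { ρ := WrP_rho ι
      iso := WrP_iso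
      line := fun γ c hc j => ?_
      prp := WrP_prp
      ι := Empty
      h := fun i => i.elim
      E := fun i => i.elim
      eqv := fun i => i.elim
      E_inv := fun i => i.elim
      h_inv := fun i => i.elim
      h_lip := fun i => i.elim
      near := fun i => i.elim
      cc := fun _ => ⟨1, fun x _ => WrP_cc x⟩
      cusp := fun i => i.elim }⟩⟩
  obtain ⟨a, b, e⟩ := hc (γ.σ⁻¹ j)
  refine ⟨a, (γ.b j : ℝ) + b, funext fun t => ?_⟩
  change ℝ → ι → ℝ at c
  have e' : c t (γ.σ⁻¹ j) = a * t + b := congrFun e t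
  show (γ.b j : ℝ) + c t (γ.σ⁻¹ j) = a * t + ((γ.b j : ℝ) + b)
  rw [e']
  ring

end Pool.Agent.MP_f7db47_al.VC
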