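import Pool.Agent.MP_f7db47_al.VC.FJc
import Pool.Agent.MP_f7db47_al.VC.WrP
import Pool.Agent.MP_f7db47_al.PT.ZAbq

/-!
Virtually abelian groups.
-/

namespace Pool.Agent.MP_f7db47_al.VC

open GN GF Function

/-- The permutation part. -/
def Vab_perm (ι : Type) : Wr ι →* Equiv.Perm ι where
  toFun := Wr.σ
  map_one' := rfl
  map_mul' _ _ := rfl

theorem Vab_pow {ι : Type} {x : Wr ι} (h : x.σ = 1) (i : ι) (n : ℕ) :
    (x ^ n).b i = n * x.b i := by
  induction n with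
  | zero => simp [Wr.one_b]
  | succ n ih => rw [pow_succ', Wr.mul_b, h, inv_one, Equiv.Perm.one_apply, ih]; push_cast; ring

theorem Vab_tors {ι : Type} {x : Wr ι} (h : x.σ = 1) (h' : IsOfFinOrder x) : x = 1 := by
  obtain ⟨n, hn, e⟩ := isOfFinOrder_iff_pow_eq_one.1 h'
  refine Wr.ext (funext fun i => ?_) h
  have := Vab_pow h i n
  rw [e, Wr.one_b] at this
  exact (mul_eq_zero.1 this.symm).resolve_left (Nat.cast_ne_zero.2 hn.ne')

theorem fj_wr (ι : Type) [Fintype ι] : FJ (Wr ι) := by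
  refine FJ.flow (wr_pack ι) (fun B φ h => FJ.of_vc ⟨φ, ?_⟩) fun B hB => hB.elim
  refine Finite.of_injective (((Vab_perm ι).comp B.subtype).comp φ.ker.subtype)
    ((injective_iff_map_eq_one _).2 fun x hx => Subtype.ext (Subtype.ext ?_))
  exact Vab_tors hx (B.subtype.isOfFinOrder (h x.1 x.2))

theorem Vab_mem {Γ : Type} [Group Γ] (U : Subgroup Γ) (g : Γ) (c : Γ ⧸ U) :
    c.out⁻¹ * g * (g⁻¹ • c).out ∈ U := by
  rw [mul_assoc, ← QuotientGroup.eq, QuotientGroup.out_eq', ← smul_eq_mul,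
    MulAction.Quotient.mk_smul_out, smul_inv_smul]

theorem exists_wr {Γ : Type} [Group Γ] (U : Subgroup Γ) {n : ℕ}
    (θ : U →* Multiplicative (Fin n → ℤ)) (hθ : Injective θ) (hn : 0 < n) :
    ∃ j : Γ →* Wr ((Γ ⧸ U) × Fin n), Injective j := by
  refine ⟨MonoidHom.mk' (fun g => ⟨fun x => (θ ⟨_, Vab_mem U g x.1⟩).toAdd x.2,
    Equiv.prodCongr (MulAction.toPerm g) (Equiv.refl _)⟩) fun g h => Wr.ext ?_ ?_,
    (injective_iff_map_eq_one _).2 fun g hg => ?_⟩
  · funext x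
    have e : (⟨_, Vab_mem U (g * h) x.1⟩ : U) =
        ⟨_, Vab_mem U g x.1⟩ * ⟨_, Vab_mem U h (g⁻¹ • x.1)⟩ := Subtype.ext (by
      simp only [Subgroup.coe_mul, mul_inv_rev, mul_smul, mul_assoc, mul_inv_cancel_left])
    show (θ ⟨_, Vab_mem U (g * h) x.1⟩).toAdd x.2 = _
    rw [e, map_mul]
    rfl
  · ext x
    · exact mul_smul g h x.1
    · rfl
  · let c : Γ ⧸ U := ((1 : Γ) : Γ ⧸ U)
    have h1 : g • c = c :=
      congrArg (fun x : Wr ((Γ ⧸ U) × Fin n) => (x.σ (c, ⟨0, hn⟩)).1) hg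
    have h2 : θ ⟨_, Vab_mem U g c⟩ = 1 := Multiplicative.toAdd.injective
      (funext fun k => congrArg (fun x : Wr ((Γ ⧸ U) × Fin n) => x.b (c, k)) hg)
    have h3 : c.out⁻¹ * g * (g⁻¹ • c).out = 1 :=
      congrArg Subtype.val ((injective_iff_map_eq_one _).1 hθ _ h2)
    rw [inv_smul_eq_iff.2 h1.symm, mul_assoc, inv_mul_eq_one] at h3
    exact right_eq_mul.1 h3

theorem Vab_ab {M : Type} [Group M] (hM : Group.FG M) (hc : ∀ a b : M, a * b = b * a) :
    ∃ (V : Subgroup M) (n : ℕ) (θ : V →* Multiplicative (Fin n → ℤ)),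
      V.FiniteIndex ∧ Injective θ ∧ 0 < n := by
  let _ : CommGroup M := { ‹Group M› with mul_comm := hc }
  obtain ⟨n, ι, _, p, hp, e, ⟨f⟩⟩ := AddCommGroup.equiv_free_prod_directSum_zmod (Additive M)
  have : ∀ i, NeZero (p i ^ e i) := fun i => ⟨pow_ne_zero _ (hp i).ne_zero⟩
  have : Finite (DirectSum ι fun i => ZMod (p i ^ e i)) :=
    Finite.of_equiv _ (DirectSum.addEquivProd _).symm.toEquiv
  let s : M →* Multiplicative (DirectSum ι fun i => ZMod (p i ^ e i)) :=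
    MonoidHom.mk' (fun x => Multiplicative.ofAdd (f (Additive.ofMul x)).2) fun x y => by simp
  refine ⟨s.ker, n + 1, MonoidHom.mk' (fun x => Multiplicative.ofAdd
    (Fin.cons 0 fun k => (f (Additive.ofMul x.1)).1 k)) fun x y => ?_, inferInstance,
    (injective_iff_map_eq_one _).2 fun x hx => Subtype.ext ?_, n.succ_pos⟩
  · refine Multiplicative.toAdd.injective (funext fun k => ?_)
    refine Fin.cases ?_ (fun k => ?_) k <;> simp
  · refine Additive.ofMul.injective (f.injective (Eq.trans ?_ (map_zero f).symm))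
    exact Prod.ext (Finsupp.ext fun k => congrFun (congrArg Multiplicative.toAdd hx) k.succ)
      (congrArg Multiplicative.toAdd x.2)

theorem fj_vab {Γ : Type} [Group Γ] (U : Subgroup Γ) (hU : U.FiniteIndex)
    (hc : ∀ a ∈ U, ∀ b ∈ U, a * b = b * a) : FJ Γ := by
  refine FJ.loc fun K hK => ?_
  have : Group.FG K := (Group.fg_iff_subgroup_fg K).2 hK
  obtain ⟨V, n, θ, hV, hθ, hn⟩ := Vab_ab (M := U.subgroupOf K) inferInstance
    fun a b => Subtype.ext (Subtype.ext (hc _ a.2 _ b.2))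
  let e := V.equivMapOfInjective _ (U.subgroupOf K).subtype_injective
  have : (V.map (U.subgroupOf K).subtype).FiniteIndex := ⟨by
    rw [Subgroup.index_map_subtype]
    exact mul_ne_zero hV.index_ne_zero Subgroup.FiniteIndex.index_ne_zero⟩
  obtain ⟨j, hj⟩ := exists_wr _ (θ.comp e.symm.toMonoidHom) (hθ.comp e.symm.injective) hn
  have := Fintype.ofFinite ((K ⧸ V.map (U.subgroupOf K).subtype) × Fin n)
  exact FJ.sub j hj (fj_wr _)

end Pool.Agent.MP_f7db47_al.VC
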