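import Pool.Agent.MP_f7db47_al.VC.SwF

/-!
The induction theorem used in the method of Farrell and Hsiang.
-/

namespace Pool.Agent.MP_f7db47_al.VC

open Matrix

universe w

section

variable {G : Type} [Group G] {W : Type w} [AddCommGroup W] (S : Swan G W)
  {X Y X' Y' : Type} [Finite X] [Finite Y] [Finite X'] [Finite Y']

open Classical in
/-- The invariant of a finite set with an action. -/
noncomputable def SwG_k (σ : G →* Equiv.Perm X) : W :=
  @Swan.κ G _ W _ S X (Fintype.ofFinite X) _ (@permRep G X _ (Fintype.ofFinite X) _ σ)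

theorem SwG_k_eq {Z : Type} [i : Fintype Z] [d : DecidableEq Z] (τ : G →* Equiv.Perm Z) :
    SwG_k S τ = S.κ (permRep τ) := by
  obtain rfl : d = fun a b => Classical.propDecidable (a = b) := Subsingleton.elim _ _
  unfold SwG_k
  rw [Subsingleton.elim (Fintype.ofFinite Z) i]

theorem SwG_equiv (σ : G →* Equiv.Perm X) (τ : G →* Equiv.Perm Y) (e : X ≃ Y)
    (he : ∀ g x, e (σ g x) = τ g (e x)) : SwG_k S σ = SwG_k S τ := by
  classical
  cases nonempty_fintype X
  cases nonempty_fintype Y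
  rw [SwG_k_eq, SwG_k_eq, S.perm_equiv σ τ e he]

/-- The action on a disjoint union. -/
def SwG_sum {X Y : Type} (σ : G →* Equiv.Perm X) (τ : G →* Equiv.Perm Y) :
    G →* Equiv.Perm (X ⊕ Y) :=
  (Equiv.Perm.sumCongrHom X Y).comp (σ.prod τ)

theorem SwG_k_sum (σ : G →* Equiv.Perm X) (τ : G →* Equiv.Perm Y) :
    SwG_k S (SwG_sum σ τ) = SwG_k S σ + SwG_k S τ := by
  classical
  cases nonempty_fintype X
  cases nonempty_fintype Y
  rw [SwG_k_eq, SwG_k_eq, SwG_k_eq,
    S.perm_sum σ τ (SwG_sum σ τ) (Equiv.refl _) (fun _ _ => rfl) fun _ _ => rfl]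

/-- The product with `σ` multiplies the invariant by `n`. -/
def SwG_Val (σ : G →* Equiv.Perm X) (n : ℤ) : Prop :=
  ∀ (Z : Type) [Finite Z] (ρ : G →* Equiv.Perm Z), SwG_k S (permProd σ ρ) = n • SwG_k S ρ

variable {S} {σ : G →* Equiv.Perm X} {τ : G →* Equiv.Perm Y} {a b : ℤ}

theorem SwG_val_sum (h : SwG_Val S σ a) (h' : SwG_Val S τ b) :
    SwG_Val S (SwG_sum σ τ) (a + b) := fun Z _ ρ => by
  rw [add_smul, ← h, ← h', ← SwG_k_sum]
  exact SwG_equiv S _ _ (Equiv.sumProdDistrib X Y Z) (by rintro g ⟨x | y, z⟩ <;> rfl)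

theorem SwG_val_prod (h : SwG_Val S σ a) (h' : SwG_Val S τ b) :
    SwG_Val S (permProd σ τ) (a * b) := fun Z _ ρ => by
  rw [mul_smul, ← h', ← h]
  exact SwG_equiv S _ _ (Equiv.prodAssoc X Y Z) fun _ _ => rfl

theorem SwG_val_equiv (h : SwG_Val S σ a) (e : Y ≃ X) (he : ∀ g y, e (τ g y) = σ g (e y)) :
    SwG_Val S τ a := fun Z _ ρ => by
  rw [← h]
  exact SwG_equiv S _ _ (e.prodCongr (Equiv.refl Z)) fun g y => Prod.ext (he g y.1) rfl

theorem SwG_val_one [Unique X] : SwG_Val S (1 : G →* Equiv.Perm X) 1 := fun Z _ ρ => by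
  rw [one_smul]
  exact SwG_equiv S _ _ (Equiv.uniqueProd Z X) fun _ _ => rfl

theorem SwG_val_fin (n : ℕ) : SwG_Val S (1 : G →* Equiv.Perm (Fin n)) n := by
  induction n with
  | zero =>
    intro Z _ ρ
    have h := SwG_k_sum S (permProd (1 : G →* Equiv.Perm (Fin 0)) ρ)
      (permProd (1 : G →* Equiv.Perm (Fin 0)) ρ)
    rw [SwG_equiv S _ (permProd (1 : G →* Equiv.Perm (Fin 0)) ρ) (Equiv.equivOfIsEmpty _ _)
      fun _ x => isEmptyElim x] at h
    rw [Nat.cast_zero, zero_smul]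
    exact left_eq_add.1 h
  | succ n ih =>
    rw [Nat.cast_succ]
    refine SwG_val_equiv (SwG_val_sum ih (SwG_val_one (X := Fin 1))) finSumFinEquiv.symm
      fun g y => ?_
    change finSumFinEquiv.symm y = _
    rcases finSumFinEquiv.symm y with x | x <;> rfl

theorem SwG_val_triv : SwG_Val S (1 : G →* Equiv.Perm X) (Nat.card X) :=
  SwG_val_equiv (SwG_val_fin _) (Finite.equivFin X) fun _ _ => rfl

/-- The number of fixed points. -/
noncomputable def SwG_fix {X : Type} (σ : G →* Equiv.Perm X) (g : G) : ℤ :=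
  Nat.card {x // σ g x = x}

theorem SwG_fix_sum (σ : G →* Equiv.Perm X) (τ : G →* Equiv.Perm Y) (g : G) :
    SwG_fix (SwG_sum σ τ) g = SwG_fix σ g + SwG_fix τ g := by
  rw [SwG_fix, SwG_fix, SwG_fix, ← Nat.cast_add, ← Nat.card_sum]
  exact congrArg _ (Nat.card_congr (Equiv.subtypeSum.trans (Equiv.sumCongr
    (Equiv.subtypeEquivRight fun _ => Sum.inl_injective.eq_iff)
    (Equiv.subtypeEquivRight fun _ => Sum.inr_injective.eq_iff))))

theorem SwG_fix_prod {X Y : Type} (σ : G →* Equiv.Perm X) (τ : G →* Equiv.Perm Y) (g : G) :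
    SwG_fix (permProd σ τ) g = SwG_fix σ g * SwG_fix τ g := by
  rw [SwG_fix, SwG_fix, SwG_fix, ← Nat.cast_mul, ← Nat.card_prod]
  exact congrArg _ (Nat.card_congr ((Equiv.subtypeEquivRight fun _ => Prod.ext_iff).trans
    (Equiv.subtypeProdEquivProd (p := fun x => σ g x = x) (q := fun y => τ g y = y))))

theorem SwG_fix_one {X : Type} {σ : G →* Equiv.Perm X} {g : G} (h : σ g = 1) :
    SwG_fix σ g = Nat.card X :=
  congrArg _ (Nat.card_congr (Equiv.subtypeUnivEquiv fun x => by rw [h]; rfl))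

variable (S) in
/-- Differences of finite sets with value `n` and character `c`. -/
def SwG_Vir (n : ℤ) (c : G → ℤ) : Prop :=
  ∃ (P M : Type) (_ : Finite P) (_ : Finite M) (σ : G →* Equiv.Perm P) (τ : G →* Equiv.Perm M)
    (a b : ℤ), SwG_Val S σ a ∧ SwG_Val S τ b ∧ a - b = n ∧ ∀ g, SwG_fix σ g - SwG_fix τ g = c g

theorem SwG_vir_mul {n n' : ℤ} {c c' : G → ℤ} (h : SwG_Vir S n c) (h' : SwG_Vir S n' c') :
    SwG_Vir S (n * n') fun g => c g * c' g := by
  obtain ⟨P, M, _, _, σ, τ, a, b, h1, h2, rfl, h3⟩ := h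
  obtain ⟨P', M', _, _, σ', τ', a', b', h1', h2', rfl, h3'⟩ := h'
  refine ⟨_, _, inferInstance, inferInstance, _, _, _, _,
    SwG_val_sum (SwG_val_prod h1 h1') (SwG_val_prod h2 h2'),
    SwG_val_sum (SwG_val_prod h1 h2') (SwG_val_prod h2 h1'), by ring, fun g => ?_⟩
  simp only [SwG_fix_sum, SwG_fix_prod, ← h3, ← h3']
  ring

theorem SwG_vir_zero {n : ℤ} {c : G → ℤ} (h : SwG_Vir S n c) (hc : ∀ g, c g = 0) :
    n ^ 2 • SwG_k S (1 : G →* Equiv.Perm Unit) = 0 := by
  classical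
  obtain ⟨P, M, _, _, σ, τ, a, b, h1, h2, rfl, h3⟩ := h
  cases nonempty_fintype P
  cases nonempty_fintype M
  have h4 := swan_sq σ τ S fun g =>
    Nat.cast_injective (R := ℤ) (sub_eq_zero.1 ((h3 g).trans (hc g)))
  have h5 := (SwG_equiv S _ σ (Equiv.prodUnique P Unit) fun _ _ => rfl).symm.trans (h1 Unit 1)
  have h6 := (SwG_equiv S _ τ (Equiv.prodUnique M Unit) fun _ _ => rfl).symm.trans (h2 Unit 1)
  simp only [← SwG_k_eq] at h4
  rw [h1, h2, h1, h2, h5, h6] at h4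
  linear_combination (norm := module) h4

end

theorem swan_fh {G : Type} [Group G] {W : Type w} [AddCommGroup W] (S : Swan G W) {s : ℕ}
    {X₀ : Type} [Finite X₀] (σ₀ : G →* Equiv.Perm X₀) {X : Fin s → Type} [∀ i, Finite (X i)]
    (σ : ∀ i, G →* Equiv.Perm (X i))
    (h₀ : ∀ (Z : Type) [Fintype Z] [DecidableEq Z] (τ : G →* Equiv.Perm Z) (u : Z → X₀),
      (∀ g z, u (τ g z) = σ₀ g (u z)) → S.κ (permRep τ) = 0)
    (h : ∀ (i : Fin s) (Z : Type) [Fintype Z] [DecidableEq Z] (τ : G →* Equiv.Perm Z)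
      (u : Z → X i), (∀ g z, u (τ g z) = σ i g (u z)) → S.κ (permRep τ) = 0)
    (hg : ∀ g, (∃! x, σ₀ g x = x) ∨ ∃ i, σ i g = 1) :
    (∏ i, Nat.card (X i)) ^ 2 • S.κ (1 : G →* Matrix Unit Unit ℤ) = 0 := by
  classical
  have hv₀ : SwG_Val S σ₀ 0 := fun Z _ ρ => by
    cases nonempty_fintype (X₀ × Z)
    rw [SwG_k_eq, zero_smul]
    exact h₀ _ _ Prod.fst fun _ _ => rfl
  have hv : ∀ i, SwG_Val S (σ i) 0 := fun i Z _ ρ => by
    cases nonempty_fintype (X i × Z)
    rw [SwG_k_eq, zero_smul]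
    exact h i _ _ Prod.fst fun _ _ => rfl
  have h1 : ∀ t : Finset (Fin s), SwG_Vir S (-∏ i ∈ t, (Nat.card (X i) : ℤ))
      fun g => (SwG_fix σ₀ g - 1) * ∏ i ∈ t, ((Nat.card (X i) : ℤ) - SwG_fix (σ i) g) := by
    intro t
    induction t using Finset.induction_on with
    | empty =>
      refine ⟨X₀, Unit, inferInstance, inferInstance, σ₀, 1, 0, 1, hv₀, SwG_val_one, by simp,
        fun g => ?_⟩
      rw [SwG_fix_one (σ := (1 : G →* Equiv.Perm Unit)) rfl]
      simp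
    | insert i t hi ih =>
      have h2 : SwG_Vir S (Nat.card (X i)) fun g => Nat.card (X i) - SwG_fix (σ i) g :=
        ⟨X i, X i, inferInstance, inferInstance, 1, σ i, _, 0, SwG_val_triv, hv i, sub_zero _,
          fun g => by rw [SwG_fix_one (σ := (1 : G →* Equiv.Perm (X i))) rfl]⟩
      have h3 := SwG_vir_mul h2 ih
      simp only [Finset.prod_insert hi]
      convert h3 using 2 <;> ring
  have h2 := SwG_vir_zero (h1 Finset.univ) fun g => by
    rcases hg g with h3 | ⟨i, h3⟩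
    · have h4 : Nat.card {x // σ₀ g x = x} = 1 :=
        Nat.card_eq_one_iff_exists.2
          (h3.elim fun x hx hx' => ⟨⟨x, hx⟩, fun y => Subtype.ext (hx' y y.2)⟩)
      rw [SwG_fix, h4, Nat.cast_one, sub_self, zero_mul]
    · rw [Finset.prod_eq_zero (Finset.mem_univ i) (by rw [SwG_fix_one h3, sub_self]), mul_zero]
  have h3 : permRep (1 : G →* Equiv.Perm Unit) = 1 := by
    ext g x y
    simp [permRep]
  rw [SwG_k_eq, h3, neg_sq, ← Nat.cast_prod, ← Nat.cast_pow, natCast_zsmul] at h2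
  exact h2

end Pool.Agent.MP_f7db47_al.VC
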