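import Pool.Agent.MP_f7db47_al.VC.WF

/-!
The flow space of an affine action.
-/

namespace Pool.Agent.MP_f7db47_al.VC

open GN GF Metric

/-- The data of an affine action. -/
structure AF1_D (Γ E : Type) [Group Γ] [NormedAddCommGroup E] where
  ψ : Γ →* MZ
  L : Γ →* AddMonoid.End E
  b : Γ → E
  hb : ∀ g h, b (g * h) = b g + L g (b h)
  C : ℝ
  κ : ℝ
  hC : 0 ≤ C
  hκ : 0 < κ
  hL : ∀ g x, ‖L g x‖ ≤ C * Real.exp (κ * |dg ψ g|) * ‖x‖

theorem AF1_exp {κ a b c : ℝ} (hκ : 0 ≤ κ) (h : a ≤ b + c) :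
    Real.exp (κ * a) ≤ Real.exp (κ * b) * Real.exp (κ * c) := by
  rw [← Real.exp_add, Real.exp_le_exp, ← mul_add]
  exact mul_le_mul_of_nonneg_left h hκ

theorem AF1_log {c t : ℝ} (hc : 1 ≤ c) (ht : 0 ≤ t) :
    Real.log (1 + c * t) ≤ c * Real.log (1 + t) := by
  rw [← Real.log_rpow (by linarith)]
  exact Real.log_le_log (by positivity) (one_add_mul_self_le_rpow_one_add (by linarith) hc)

namespace AF1_D

variable {Γ E : Type} [Group Γ] [NormedAddCommGroup E] (D : AF1_D Γ E)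

theorem L_mul (g h : Γ) (x : E) : D.L (g * h) x = D.L g (D.L h x) := by
  rw [map_mul]
  rfl

theorem L_one (x : E) : D.L 1 x = x := by
  rw [map_one]
  rfl

theorem b_one : D.b 1 = 0 := by
  have := D.hb 1 1
  rw [one_mul, D.L_one] at this
  exact left_eq_add.1 this

/-- The norm at height `τ`. -/
noncomputable def n (τ : ℝ) (x : E) : ℝ :=
  ⨆ g : Γ, Real.exp (-(D.κ * |τ - dg D.ψ g|)) * ‖D.L g⁻¹ x‖

theorem bd (τ : ℝ) (x : E) (g : Γ) : ‖D.L g⁻¹ x‖ ≤
    D.C * Real.exp (D.κ * |τ|) * ‖x‖ * Real.exp (D.κ * |τ - dg D.ψ g|) := by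
  have h1 : |dg D.ψ g⁻¹| ≤ |τ| + |τ - dg D.ψ g| := by
    rw [dg_inv, abs_neg]
    simpa using abs_sub τ (τ - dg D.ψ g)
  refine (D.hL _ x).trans ((mul_le_mul_of_nonneg_right (mul_le_mul_of_nonneg_left
    (AF1_exp D.hκ.le h1) D.hC) (norm_nonneg x)).trans_eq ?_)
  ring

theorem n_le (τ : ℝ) (x : E) (r : ℝ) :
    D.n τ x ≤ r ↔ ∀ g, ‖D.L g⁻¹ x‖ ≤ r * Real.exp (D.κ * |τ - dg D.ψ g|) := by
  unfold n
  rw [ciSup_le_iff ⟨D.C * Real.exp (D.κ * |τ|) * ‖x‖, by
    rintro _ ⟨g, rfl⟩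
    exact WF_iff.2 (D.bd τ x g)⟩]
  exact forall_congr' fun t => WF_iff

theorem n_pt (τ : ℝ) (x : E) (g : Γ) :
    ‖D.L g⁻¹ x‖ ≤ D.n τ x * Real.exp (D.κ * |τ - dg D.ψ g|) :=
  (D.n_le τ x _).1 le_rfl g

theorem n_low (τ : ℝ) (x : E) : ‖x‖ ≤ D.n τ x * Real.exp (D.κ * |τ|) := by
  simpa only [inv_one, D.L_one, dg_one, sub_zero] using D.n_pt τ x 1

theorem n_nonneg (τ : ℝ) (x : E) : 0 ≤ D.n τ x :=
  nonneg_of_mul_nonneg_left ((norm_nonneg x).trans (D.n_low τ x)) (Real.exp_pos _)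

theorem n_time (τ τ' : ℝ) (x : E) : D.n τ' x ≤ Real.exp (D.κ * |τ - τ'|) * D.n τ x :=
  (D.n_le _ _ _).2 fun g => by
    refine (D.n_pt τ x g).trans ((mul_le_mul_of_nonneg_left
      (AF1_exp D.hκ.le (abs_sub_le τ τ' _)) (D.n_nonneg τ x)).trans_eq ?_)
    ring

theorem n_act (τ : ℝ) (x : E) (h : Γ) : D.n (τ + dg D.ψ h) (D.L h x) = D.n τ x := by
  have key : ∀ (τ : ℝ) (x : E) (h : Γ), D.n (τ + dg D.ψ h) (D.L h x) ≤ D.n τ x := fun τ x h =>
    (D.n_le _ _ _).2 fun g => by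
      have := D.n_pt τ x (h⁻¹ * g)
      rw [mul_inv_rev, inv_inv, D.L_mul, dg_mul, dg_inv] at this
      rwa [show τ + dg D.ψ h - dg D.ψ g = τ - (-dg D.ψ h + dg D.ψ g) by ring]
  refine le_antisymm (key τ x h) ?_
  have := key (τ + dg D.ψ h) (D.L h x) h⁻¹
  rwa [← D.L_mul, inv_mul_cancel, D.L_one, dg_inv, add_neg_cancel_right] at this

/-- The logarithmic norm at height `τ`. -/
noncomputable def l (τ : ℝ) (x : E) : ℝ := Real.log (1 + D.n τ x) / D.κ

theorem l_nonneg (τ : ℝ) (x : E) : 0 ≤ D.l τ x :=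
  div_nonneg (Real.log_nonneg (by linarith [D.n_nonneg τ x])) D.hκ.le

theorem l_up (τ : ℝ) (x : E) : D.l τ x ≤ D.C / D.κ * Real.exp (D.κ * |τ|) * ‖x‖ := by
  have h1 := Real.log_le_sub_one_of_pos (x := 1 + D.n τ x) (by linarith [D.n_nonneg τ x])
  have h2 := (D.n_le τ x _).2 (D.bd τ x)
  refine (div_le_div_of_nonneg_right (b := D.C * Real.exp (D.κ * |τ|) * ‖x‖) (by linarith)
    D.hκ.le).trans_eq ?_
  ring

theorem l_low {τ r : ℝ} {x : E} (h : D.l τ x ≤ r) :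
    ‖x‖ ≤ (Real.exp (D.κ * r) - 1) * Real.exp (D.κ * |τ|) := by
  rw [l, div_le_iff₀' D.hκ, Real.log_le_iff_le_exp (by linarith [D.n_nonneg τ x])] at h
  exact (D.n_low τ x).trans (mul_le_mul_of_nonneg_right (by linarith) (Real.exp_pos _).le)

theorem l_add (τ : ℝ) (x y : E) : D.l τ (x + y) ≤ D.l τ x + D.l τ y := by
  have h1 : D.n τ (x + y) ≤ D.n τ x + D.n τ y := (D.n_le _ _ _).2 fun g => by
    rw [map_add, add_mul]
    exact (norm_add_le _ _).trans (add_le_add (D.n_pt τ x g) (D.n_pt τ y g))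
  have h2 := D.n_nonneg τ x
  have h3 := D.n_nonneg τ y
  have h4 := D.n_nonneg τ (x + y)
  unfold l
  rw [← add_div, ← Real.log_mul (by positivity) (by positivity)]
  exact div_le_div_of_nonneg_right (Real.log_le_log (by positivity)
    (by nlinarith [mul_nonneg h2 h3])) D.hκ.le

theorem l_comm (τ : ℝ) (x y : E) : D.l τ (x - y) = D.l τ (y - x) := by
  unfold l n
  simp only [map_sub, norm_sub_rev (D.L _ x)]

theorem l_time (τ τ' : ℝ) (x : E) : D.l τ' x ≤ |τ - τ'| + D.l τ x := by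
  have h1 := D.n_time τ τ' x
  have h2 := D.n_nonneg τ x
  have h3 := D.n_nonneg τ' x
  have h4 := Real.one_le_exp (mul_nonneg D.hκ.le (abs_nonneg (τ - τ')))
  unfold l
  rw [div_le_iff₀' D.hκ, mul_add, mul_div_cancel₀ _ D.hκ.ne', Real.log_le_iff_le_exp
    (by positivity), Real.exp_add, Real.exp_log (by positivity)]
  linarith

theorem l_lip (τ s : ℝ) (x : E) : D.l (τ + s) x ≤ Real.exp (D.κ * |s|) * D.l τ x := by
  have h1 := D.n_time τ (τ + s) x
  rw [sub_add_cancel_left, abs_neg] at h1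
  have h2 := D.n_nonneg (τ + s) x
  unfold l
  rw [← mul_div_assoc]
  exact div_le_div_of_nonneg_right ((Real.log_le_log (by positivity) (by linarith)).trans
    (AF1_log (Real.one_le_exp (mul_nonneg D.hκ.le (abs_nonneg s))) (D.n_nonneg τ x))) D.hκ.le

/-- The test functions. -/
noncomputable def f : Option E → E × ℝ → ℝ
  | none, y => y.2
  | some c, y => D.l y.2 (y.1 - c)

theorem f_le (c : Option E) (y y' : E × ℝ) :
    |D.f c y - D.f c y'| ≤ |y.2 - y'.2| + D.l y.2 (y.1 - y'.1) := by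
  cases c with
  | none => exact le_add_of_nonneg_right (D.l_nonneg _ _)
  | some c =>
    have h1 := D.l_add y.2 (y.1 - y'.1) (y'.1 - c)
    have h2 := D.l_add y.2 (y'.1 - y.1) (y.1 - c)
    have h3 := D.l_time y.2 y'.2 (y'.1 - c)
    have h4 := D.l_time y'.2 y.2 (y'.1 - c)
    rw [sub_add_sub_cancel] at h1 h2
    rw [D.l_comm _ y'.1 y.1] at h2
    rw [abs_sub_comm] at h4
    exact abs_le.2 ⟨by simp only [f]; linarith, by simp only [f]; linarith⟩

/-- The distance. -/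
noncomputable def d (y y' : E × ℝ) : ℝ := ⨆ c, |D.f c y - D.f c y'|

theorem d_le (y y' : E × ℝ) (r : ℝ) : D.d y y' ≤ r ↔ ∀ c, |D.f c y - D.f c y'| ≤ r :=
  ciSup_le_iff ⟨_, by
    rintro _ ⟨c, rfl⟩
    exact D.f_le c y y'⟩

theorem d_pt (y y' : E × ℝ) (c : Option E) : |D.f c y - D.f c y'| ≤ D.d y y' :=
  (D.d_le y y' _).1 le_rfl c

theorem d_up (y y' : E × ℝ) : D.d y y' ≤ |y.2 - y'.2| + D.l y.2 (y.1 - y'.1) :=
  (D.d_le _ _ _).2 fun c => D.f_le c y y'

theorem d_t (y y' : E × ℝ) : |y.2 - y'.2| ≤ D.d y y' := D.d_pt y y' none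

theorem l_zero (τ : ℝ) (x : E) : D.l τ (x - x) = 0 :=
  le_antisymm ((D.l_up _ _).trans_eq (by simp)) (D.l_nonneg _ _)

theorem d_low (y y' : E × ℝ) : D.l y.2 (y.1 - y'.1) ≤ D.d y y' := by
  have := D.d_pt y y' (some y'.1)
  simp only [f, D.l_zero, sub_zero] at this
  exact (le_abs_self _).trans this

theorem d_comm (y y' : E × ℝ) : D.d y y' = D.d y' y := by
  unfold d
  simp only [abs_sub_comm (D.f _ y)]

/-- The metric. -/
@[reducible] noncomputable def met : MetricSpace (WF_Y (E × ℝ)) where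
  dist := D.d
  dist_self c := le_antisymm ((D.d_le c c 0).2 fun t => by simp)
    ((abs_nonneg _).trans (D.d_t c c))
  dist_comm c c' := D.d_comm c c'
  dist_triangle c c' c'' := (D.d_le c c'' _).2 fun t =>
    (abs_sub_le _ (D.f t c') _).trans (add_le_add (D.d_pt c c' t) (D.d_pt c' c'' t))
  eq_of_dist_eq_zero := fun {c c'} e => by
    have h1 := D.l_low ((D.d_low c c').trans_eq e)
    rw [mul_zero, Real.exp_zero, sub_self, zero_mul, norm_le_zero_iff, sub_eq_zero] at h1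
    exact Prod.ext h1 (sub_eq_zero.1 (abs_nonpos_iff.1 ((D.d_t c c').trans_eq e)))

/-- The action. -/
def act (g : Γ) (y : E × ℝ) : E × ℝ := (D.b g + D.L g y.1, y.2 + dg D.ψ g)

theorem act_one (y : E × ℝ) : D.act 1 y = y := by
  simp only [act, D.b_one, D.L_one, dg_one, zero_add, add_zero]

theorem act_mul (g h : Γ) (y : E × ℝ) : D.act (g * h) y = D.act g (D.act h y) := by
  simp only [act, D.hb, D.L_mul, dg_mul, map_add, add_assoc, add_comm (dg D.ψ g)]

theorem act_iso (g : Γ) (y y' : E × ℝ) : D.d (D.act g y) (D.act g y') = D.d y y' := by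
  have key : ∀ (g : Γ) (y y' : E × ℝ), D.d (D.act g y) (D.act g y') ≤ D.d y y' := fun g y y' =>
    (D.d_le _ _ _).2 fun c => by
      cases c with
      | none => simpa only [f, act, add_sub_add_right_eq_sub] using D.d_t y y'
      | some c =>
        have h1 : ∀ z : E × ℝ, D.f (some c) (D.act g z) =
            D.f (some (D.L g⁻¹ (c - D.b g))) z := fun z => by
          simp only [f, act, l]
          rw [← D.n_act z.2 _ g, map_sub, ← D.L_mul, mul_inv_cancel, D.L_one]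
          congr 4
          abel
        rw [h1, h1]
        exact D.d_pt y y' _
  refine le_antisymm (key g y y') ?_
  have := key g⁻¹ (D.act g y) (D.act g y')
  rwa [← D.act_mul, ← D.act_mul, inv_mul_cancel, D.act_one, D.act_one] at this

theorem prp (hp : ∀ r : ℝ, {g | |dg D.ψ g| ≤ r ∧ ‖D.b g‖ ≤ r}.Finite) (y : E × ℝ) (r : ℝ) :
    {g : Γ | D.d (D.act g y) y ≤ r}.Finite := by
  refine (hp (max r (‖y.1‖ + D.C * Real.exp (D.κ * r) * ‖y.1‖ +
    (Real.exp (D.κ * r) - 1) * Real.exp (D.κ * |y.2|)))).subset fun g hg => ?_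
  have h1 : |dg D.ψ g| ≤ r := by
    simpa only [act, add_sub_cancel_left] using (D.d_t _ _).trans hg
  have h2 := D.l_low ((D.d_low y (D.act g y)).trans ((D.d_comm _ _).trans_le hg))
  have h3 := (D.hL g y.1).trans (mul_le_mul_of_nonneg_right (mul_le_mul_of_nonneg_left
    (Real.exp_le_exp.2 (mul_le_mul_of_nonneg_left h1 D.hκ.le)) D.hC) (norm_nonneg _))
  refine ⟨h1.trans (le_max_left _ _), le_trans ?_ (le_max_right _ _)⟩
  have h4 : D.b g = y.1 - D.L g y.1 - (y.1 - (D.act g y).1) := by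
    simp only [act]
    abel
  rw [h4]
  exact (norm_sub_le _ _).trans (add_le_add ((norm_sub_le _ _).trans (add_le_add le_rfl h3)) h2)

theorem ball [ProperSpace E] {m : ℕ} (hE : ∀ r : ℝ, Cov (closedBall (0 : E) r) m)
    (y : E × ℝ) (r : ℝ) :
    letI := D.met
    IsCompact (closedBall (WF_e _ y) r) ∧ Cov (closedBall (WF_e _ y) r) (m + 1) := by
  let _ := D.met
  set R := max (‖y.1‖ + (Real.exp (D.κ * r) - 1) * Real.exp (D.κ * |y.2|)) (|y.2| + r)
  have hA : 0 ≤ D.C / D.κ := div_nonneg D.hC D.hκ.le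
  have hf : ∀ p ∈ closedBall (0 : E) R ×ˢ closedBall (0 : ℝ) R,
      ∀ p' ∈ closedBall (0 : E) R ×ˢ closedBall (0 : ℝ) R,
      dist (WF_e _ p) (WF_e _ p') ≤ (1 + D.C / D.κ * Real.exp (D.κ * R)) * dist p p' := by
    intro p hp p' _
    have h1 : |p.2| ≤ R := mem_closedBall_zero_iff.1 hp.2
    have h2 : |p.2 - p'.2| ≤ dist p p' := le_max_right (dist p.1 p'.1) (dist p.2 p'.2)
    have h3 : ‖p.1 - p'.1‖ ≤ dist p p' :=
      (dist_eq_norm _ _).symm.trans_le (le_max_left (dist p.1 p'.1) (dist p.2 p'.2))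
    rw [add_mul, one_mul]
    refine (D.d_up p p').trans (add_le_add h2 ((D.l_up _ _).trans ?_))
    exact mul_le_mul (mul_le_mul_of_nonneg_left (Real.exp_le_exp.2
      (mul_le_mul_of_nonneg_left h1 D.hκ.le)) hA) h3 (norm_nonneg _) (by positivity)
  have hs : closedBall (WF_e _ y) r ⊆
      WF_e _ '' (closedBall (0 : E) R ×ˢ closedBall (0 : ℝ) R) := fun c hc => by
    have h0 : D.d y c ≤ r := (D.d_comm y c).trans_le hc
    have h1 := D.l_low ((D.d_low y c).trans h0)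
    have h2 := (D.d_t y c).trans h0
    refine ⟨c, ⟨mem_closedBall_zero_iff.2 (le_trans ?_ (le_max_left _ _)),
      mem_closedBall_zero_iff.2 (le_trans ?_ (le_max_right _ _))⟩, rfl⟩
    · exact (norm_le_insert y.1 _).trans (add_le_add le_rfl h1)
    · exact (norm_le_insert y.2 _).trans (add_le_add le_rfl h2)
  exact ⟨(((isCompact_closedBall _ _).prod (isCompact_closedBall _ _)).image_of_continuousOn
    (LipschitzOnWith.of_dist_le' hf).continuousOn).of_isClosed_subset isClosed_closedBall hs,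
    (((hE R).prod (cov_real R)).image _ _ hf).subset hs⟩

end AF1_D

theorem exists_aflow {Γ E : Type} [Group Γ] [NormedAddCommGroup E] [ProperSpace E] {m : ℕ}
    (hE : ∀ r : ℝ, Cov (closedBall (0 : E) r) m) (ψ : Γ →* MZ) (L : Γ →* AddMonoid.End E)
    (b : Γ → E) (hb : ∀ g h, b (g * h) = b g + L g (b h)) (C κ : ℝ) (hκ : 0 < κ)
    (hL : ∀ g x, ‖L g x‖ ≤ C * Real.exp (κ * |dg ψ g|) * ‖x‖)
    (hp : ∀ r : ℝ, {g | |dg ψ g| ≤ r ∧ ‖b g‖ ≤ r}.Finite) :
    ∃ (Y : Type) (_ : MetricSpace Y) (_ : MulAction Γ Y) (F : Flow Γ Y) (pt : E × ℝ ≃ Y) (A : ℝ),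
      (∀ (g : Γ) x τ, g • pt (x, τ) = pt (b g + L g x, τ + dg ψ g)) ∧
      (∀ s x τ, F.Φ s (pt (x, τ)) = pt (x, τ + s)) ∧
      ∀ x x' τ, dist (pt (x, τ)) (pt (x', τ)) ≤ A * Real.exp (κ * |τ|) * ‖x - x'‖ := by
  let D : AF1_D Γ E := ⟨ψ, L, b, hb, max C 0, κ, le_max_right _ _, hκ, fun g x =>
    (hL g x).trans (mul_le_mul_of_nonneg_right (mul_le_mul_of_nonneg_right (le_max_left _ _)
      (Real.exp_pos _).le) (norm_nonneg _))⟩
  let _ := D.met
  let _ : MulAction Γ (WF_Y (E × ℝ)) :=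
    { smul := D.act
      one_smul := D.act_one
      mul_smul := D.act_mul }
  let Φ : ℝ → E × ℝ → E × ℝ := fun s y => (y.1, y.2 + s)
  have h1 : ∀ s y y', D.d (Φ s y) (Φ s y') ≤ 2 * Real.exp (κ * |s|) * D.d y y' := by
    intro s y y'
    have h2 := D.d_up (Φ s y) (Φ s y')
    simp only [Φ, add_sub_add_right_eq_sub] at h2
    have h3 := D.l_lip y.2 s (y.1 - y'.1)
    have h4 := Real.one_le_exp (mul_nonneg hκ.le (abs_nonneg s))
    have h5 := mul_le_mul_of_nonneg_left (D.d_low y y') (Real.exp_pos (κ * |s|)).le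
    have h6 := D.d_t y y'
    have h7 := le_mul_of_one_le_left ((abs_nonneg _).trans h6) h4
    have h8 : D.κ = κ := rfl
    rw [h8] at h3
    linarith
  let F : WFlow Γ (WF_Y (E × ℝ)) :=
    { Φ := Φ
      κ := κ
      A := 2
      m := m + 1
      hκ := hκ.le
      zero := fun y => Prod.ext rfl (add_zero _)
      add := fun s t y => Prod.ext rfl (by simp only [Φ]; ring)
      smul := fun g s y => Prod.ext rfl (add_right_comm _ _ _)
      iso := D.act_iso
      lip := h1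
      spd := fun s t y => (D.d_up _ _).trans_eq (by
        simp only [Φ, D.l_zero, add_zero, add_sub_add_left_eq_sub])
      prp := D.prp hp
      cpt := fun y r => (D.ball hE y r).1
      cov := fun y r => (D.ball hE y r).2 }
  obtain ⟨Y, i1, i2, F', e, e1, e2, e3⟩ := F.toFlow
  refine ⟨Y, i1, i2, F', (WF_e _).trans e, 2 * (D.C / κ), fun g x τ => (e1 g _).symm,
    fun s x τ => (e2 s _).symm, fun x x' τ => (e3 _ _).trans ?_⟩
  have h2 := D.d_up (x, τ) (x', τ)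
  rw [sub_self, abs_zero, zero_add] at h2
  rw [mul_assoc, mul_assoc, ← mul_assoc (D.C / κ)]
  exact mul_le_mul_of_nonneg_left (h2.trans (D.l_up _ _)) zero_le_two

end Pool.Agent.MP_f7db47_al.VC
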