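import Pool.Agent.MP_f7db47_al.VC.AF1
import Pool.Agent.MP_f7db47_al.GF.AInt

/-!
The flow space of an arithmetic affine group.
-/

namespace Pool.Agent.MP_f7db47_al.VC

open GN GF Metric Matrix

theorem exp_bound {V E : Type} [Group V] [NormedAddCommGroup E] (ψ : V →* MZ)
    (hψ : Finite ψ.ker) (L : V →* AddMonoid.End E) (h : ∀ g, ∃ C : ℝ, ∀ x, ‖L g x‖ ≤ C * ‖x‖) :
    ∃ C κ : ℝ, 0 < κ ∧ ∀ g x, ‖L g x‖ ≤ C * Real.exp (κ * |dg ψ g|) * ‖x‖ := by
  choose C hC using h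
  obtain ⟨u, hu⟩ := exists_gen ψ
  obtain ⟨C₀, h₀⟩ := Finite.bddAbove_range fun f : ψ.ker => |C f|
  have hC₀ : ∀ f, ψ f = 1 → |C f| ≤ C₀ := fun f hf => h₀ ⟨⟨f, hf⟩, rfl⟩
  obtain ⟨D, hD, h1, h2⟩ : ∃ D : ℝ, 1 < D ∧ C u ≤ D ∧ C u⁻¹ ≤ D :=
    ⟨max 2 (max (C u) (C u⁻¹)), lt_max_of_lt_left one_lt_two,
      le_max_of_le_right (le_max_left _ _), le_max_of_le_right (le_max_right _ _)⟩
  have hD0 : 0 < D := one_pos.trans hD
  have hp : ∀ v, C v ≤ D → ∀ (n : ℕ) x, ‖L (v ^ n) x‖ ≤ D ^ n * ‖x‖ := by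
    intro v hv n
    induction n with
    | zero => intro x; simp
    | succ n ih =>
      intro x
      rw [pow_succ, map_mul, pow_succ, mul_assoc]
      exact (ih (L v x)).trans (mul_le_mul_of_nonneg_left
        ((hC v x).trans (mul_le_mul_of_nonneg_right hv (norm_nonneg _))) (by positivity))
  have hz : ∀ (n : ℤ) x, ‖L (u ^ n) x‖ ≤ D ^ n.natAbs * ‖x‖ := by
    intro n x
    obtain ⟨k, rfl | rfl⟩ := n.eq_nat_or_neg
    · simpa using hp u h1 k x
    · simpa using hp u⁻¹ h2 k x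
  refine ⟨C₀, Real.log D, Real.log_pos hD, fun g x => ?_⟩
  obtain ⟨n, hn, hl⟩ : ∃ n : ℤ, ψ g = ψ u ^ n ∧ (n.natAbs : ℝ) ≤ |dg ψ g| := by
    obtain ⟨n, hn⟩ := hu g
    by_cases h : ψ u = 1
    · exact ⟨0, by simp [hn, h], by simp [dg, hn, h]⟩
    refine ⟨n, hn, ?_⟩
    have h3 : 1 ≤ |(ψ u).toAdd| := Int.one_le_abs (by simpa using h)
    have h4 : |n| ≤ |(ψ g).toAdd| := by
      rw [hn, toAdd_zpow, smul_eq_mul, abs_mul]
      exact le_mul_of_one_le_right (abs_nonneg _) h3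
    rw [dg, Nat.cast_natAbs]
    exact_mod_cast h4
  have hf : ψ (g * (u ^ n)⁻¹) = 1 := by rw [map_mul, map_inv, map_zpow, hn, mul_inv_cancel]
  have e : L g x = L (g * (u ^ n)⁻¹) (L (u ^ n) x) := by
    change _ = (L (g * (u ^ n)⁻¹) * L (u ^ n)) x
    rw [← map_mul, inv_mul_cancel_right]
  have h5 : D ^ n.natAbs ≤ Real.exp (Real.log D * |dg ψ g|) := by
    rw [← Real.rpow_def_of_pos hD0, ← Real.rpow_natCast]
    exact Real.rpow_le_rpow_of_exponent_le hD.le hl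
  rw [e, mul_assoc]
  refine (hC _ _).trans (mul_le_mul ((le_abs_self _).trans (hC₀ _ hf)) ((hz n x).trans
    (mul_le_mul_of_nonneg_right h5 (norm_nonneg _))) (norm_nonneg _)
    ((abs_nonneg _).trans (hC₀ _ hf)))

/-- The data at one place. -/
def AF2_Loc (ι : Type) [Fintype ι] [DecidableEq ι] (av : ℚ → ℝ) : Prop :=
  ∃ (E : Type) (_ : NormedAddCommGroup E) (_ : ProperSpace E) (m : ℕ) (j : (ι → ℚ) →+ E)
    (Λ : Matrix ι ι ℚ →* AddMonoid.End E), (∀ r : ℝ, Cov (closedBall (0 : E) r) m) ∧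
    (∀ a (c : ℝ), 0 ≤ c → (‖j a‖ ≤ c ↔ ∀ i, av (a i) ≤ c)) ∧
    (∀ M a, Λ M (j a) = j (M *ᵥ a)) ∧ ∀ M, ∃ C : ℝ, ∀ x, ‖Λ M x‖ ≤ C * ‖x‖

theorem AF2_cov {J : Type} [Fintype J] {E : J → Type} [∀ v, NormedAddCommGroup (E v)]
    {m : J → ℕ} (h : ∀ v (r : ℝ), Cov (closedBall (0 : E v) r) (m v)) (r : ℝ) :
    Cov (closedBall (0 : ∀ v, E v) r) (∑ v, m v) :=
  (Cov.pi fun v => h v r).subset fun x hx v _ =>
    mem_closedBall_zero_iff.2 ((norm_le_pi_norm x v).trans (mem_closedBall_zero_iff.1 hx))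

theorem AF2_field (K : Type) [NormedField K] [CharZero K] [ProperSpace K]
    (hK : ∀ r : ℝ, Cov (closedBall (0 : K) r) 1) (ι : Type) [Fintype ι] [DecidableEq ι]
    (av : ℚ → ℝ) (hav : ∀ a : ℚ, ‖(a : K)‖ = av a) : AF2_Loc ι av := by
  refine ⟨ι → K, inferInstance, inferInstance, _,
    { toFun := fun a i => (a i : K)
      map_zero' := funext fun i => Rat.cast_zero
      map_add' := fun a b => funext fun i => Rat.cast_add _ _ },
    { toFun := fun M =>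
        { toFun := fun x => M.map (Rat.castHom K) *ᵥ x
          map_zero' := mulVec_zero _
          map_add' := mulVec_add _ }
      map_one' := AddMonoidHom.ext fun x => ?_
      map_mul' := fun M N => AddMonoidHom.ext fun x => ?_ },
    AF2_cov fun _ => hK, fun a c hc => ?_, fun M a => funext fun i => ?_, fun M => ?_⟩
  · change Matrix.map 1 (Rat.castHom K) *ᵥ x = x
    rw [Matrix.map_one _ (map_zero _) (map_one _), one_mulVec]
  · change (M * N).map (Rat.castHom K) *ᵥ x = M.map (Rat.castHom K) *ᵥ (N.map (Rat.castHom K) *ᵥ x)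
    rw [Matrix.map_mul, mulVec_mulVec]
  · rw [pi_norm_le_iff_of_nonneg hc]
    exact forall_congr' fun i => by rw [← hav]; rfl
  · exact (RingHom.map_mulVec (Rat.castHom K) M a i).symm
  · refine ⟨∑ i, ∑ k, ‖(M i k : K)‖, fun x => (pi_norm_le_iff_of_nonneg (by positivity)).2 fun i => ?_⟩
    change ‖∑ k, (M i k : K) * x k‖ ≤ _
    refine (norm_sum_le _ _).trans (le_trans ?_ (mul_le_mul_of_nonneg_right
      (Finset.single_le_sum (f := fun i => ∑ k, ‖(M i k : K)‖) (fun _ _ => by positivity)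
        (Finset.mem_univ i)) (norm_nonneg _)))
    rw [Finset.sum_mul]
    refine Finset.sum_le_sum fun k _ => ?_
    rw [norm_mul]
    exact mul_le_mul_of_nonneg_left (norm_le_pi_norm x k) (norm_nonneg _)

theorem exists_adele (q : ℕ) (ι : Type) [Fintype ι] [DecidableEq ι] :
    ∃ (E : Type) (_ : NormedAddCommGroup E) (_ : ProperSpace E) (m : ℕ) (j : (ι → ℚ) →+ E)
      (Λ : Matrix ι ι ℚ →* AddMonoid.End E), (∀ r : ℝ, Cov (closedBall (0 : E) r) m) ∧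
      (∀ a (c : ℝ), 0 ≤ c → (‖j a‖ ≤ c ↔ ∀ v i, avQ q v (a i) ≤ c)) ∧
      (∀ M a, Λ M (j a) = j (M *ᵥ a)) ∧ ∀ M, ∃ C : ℝ, ∀ x, ‖Λ M x‖ ≤ C * ‖x‖ := by
  have h : ∀ v, AF2_Loc ι (avQ q v) := by
    rintro (_ | p)
    · exact AF2_field ℝ cov_real ι _ fun a => rfl
    · have := Fact.mk (Nat.prime_of_mem_primeFactors p.2)
      exact AF2_field ℚ_[p.1] (cov_padic p.1) ι _ fun a => Padic.eq_padicNorm a
  choose E i1 i2 m j Λ h1 h2 h3 C h4 using h
  refine ⟨∀ v, E v, inferInstance, inferInstance, _, AddMonoidHom.pi j,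
    { toFun := fun M =>
        { toFun := fun x v => Λ v M (x v)
          map_zero' := funext fun v => map_zero _
          map_add' := fun x y => funext fun v => map_add _ _ _ }
      map_one' := AddMonoidHom.ext fun x => funext fun v => ?_
      map_mul' := fun M N => AddMonoidHom.ext fun x => funext fun v => ?_ },
    AF2_cov h1, fun a c hc => ?_, fun M a => funext fun v => h3 v M a, fun M => ?_⟩
  · change Λ v 1 (x v) = x v
    rw [map_one]
    rfl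
  · change Λ v (M * N) (x v) = Λ v M (Λ v N (x v))
    rw [map_mul]
    rfl
  · rw [pi_norm_le_iff_of_nonneg hc]
    exact forall_congr' fun v => h2 v a c hc
  · refine ⟨∑ v, |C v M|, fun x => (pi_norm_le_iff_of_nonneg (by positivity)).2 fun v => ?_⟩
    exact (h4 v M (x v)).trans (mul_le_mul ((le_abs_self _).trans
      (Finset.single_le_sum (f := fun v => |C v M|) (fun _ _ => abs_nonneg _) (Finset.mem_univ v)))
      (norm_le_pi_norm x v) (norm_nonneg _) (by positivity))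

theorem aff_flow {q : ℕ} (hq : 0 < q) {V ι : Type} [Group V] [Fintype ι] [DecidableEq ι]
    (L : V →* GLZ (ZQ q) ι) (ψ : V →* MZ) (hψ : Finite ψ.ker) :
    ∃ (Y : Type) (_ : MetricSpace Y) (_ : MulAction (Aff L) Y) (F : Flow (Aff L) Y)
      (pt : (ι → ℚ) → ℝ → Y) (A κ : ℝ),
      (∀ (γ : Aff L) x τ, γ • pt x τ = pt (γ.a + (L γ.g).1.val *ᵥ x) (τ + dg ψ γ.g)) ∧
      (∀ s x τ, F.Φ s (pt x τ) = pt x (τ + s)) ∧
      (∀ x x' τ (c : ℝ), 0 ≤ c → (∀ v i, avQ q v (x i - x' i) ≤ c) →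
        dist (pt x τ) (pt x' τ) ≤ A * Real.exp (κ * |τ|) * c) ∧
      ∀ z, {γ | γ ∈ F.Per z ∧ ψ γ.g = 1}.Finite := by
  obtain ⟨E, _, _, m, j, Λ, h1, h2, h3, h4⟩ := exists_adele q ι
  let L₀ : V →* AddMonoid.End E := Λ.comp ((Units.coeHom _).comp ((GLZ (ZQ q) ι).subtype.comp L))
  obtain ⟨C, κ, hκ, hC⟩ := exp_bound ψ hψ L₀ fun g => h4 _
  have hp : ∀ r : ℝ, {g : Aff L | |dg (ψ.comp (Aff.lin L)) g| ≤ r ∧ ‖j g.a‖ ≤ r}.Finite := by
    intro r
    refine Set.Finite.of_finite_image (f := fun g => (g.a, g.g))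
      (((Set.Finite.pi' fun _ : ι => avQ_finite hq r).prod (vc_ball ψ hψ r)).subset ?_)
      fun g _ g' _ e => Aff.ext (congrArg Prod.fst e) (congrArg Prod.snd e)
    rintro _ ⟨g, hg, rfl⟩
    exact ⟨fun i => ⟨g.mem i, fun v => (h2 _ r ((norm_nonneg _).trans hg.2)).1 hg.2 v i⟩, hg.1⟩
  obtain ⟨Y, _, _, F, pt, A, a1, a2, a3⟩ := exists_aflow h1 (ψ.comp (Aff.lin L))
    (L₀.comp (Aff.lin L)) (fun g => j g.a)
    (fun g h => by rw [Aff.mul_a, map_add, ← h3]; rfl) C κ hκ (fun g x => hC g.g x) hp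
  refine ⟨Y, inferInstance, inferInstance, F, fun x τ => pt (j x, τ), |A|, κ, fun γ x τ => ?_,
    fun s x τ => a2 s _ τ, fun x x' τ c hc h => (a3 _ _ τ).trans ?_, fun z => ?_⟩
  · simp only [a1, map_add, ← h3]
    rfl
  · rw [← map_sub]
    exact mul_le_mul (mul_le_mul_of_nonneg_right (le_abs_self A) (Real.exp_pos _).le)
      ((h2 _ c hc).2 h) (norm_nonneg _) (by positivity)
  · refine (F.prp z 0).subset ?_
    rintro γ ⟨⟨t, ht⟩, hγ⟩
    obtain ⟨⟨x, τ⟩, rfl⟩ := pt.surjective z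
    have e := ht
    rw [a1, a2] at e
    have e1 : τ + dg (ψ.comp (Aff.lin L)) γ = τ + t := congrArg Prod.snd (pt.injective e)
    rw [(dg_eq_zero (ψ.comp (Aff.lin L)) γ).2 hγ] at e1
    change dist _ _ ≤ 0
    rw [ht, ← add_left_cancel e1, F.zero, dist_self]

end Pool.Agent.MP_f7db47_al.VC
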