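import Pool.Agent.MP_f7db47_al.VC.VB

/-!
Long circles are controlled.
-/

namespace Pool.Agent.MP_f7db47_al.VC

open GN GF

theorem Circ_three {l : ℕ} [NeZero l] (a b : ZMod l) (n : ℤ) (h : a = b + n) (hn : |n| ≤ l) :
    (a.val : ℤ) = b.val + n ∨ (a.val : ℤ) = b.val + n + l ∨ (a.val : ℤ) + l = b.val + n := by
  have h1 : (l : ℤ) ∣ a.val - (b.val + n) := by
    rw [← ZMod.intCast_eq_intCast_iff_dvd_sub]
    simp [h]
  obtain ⟨t, ht⟩ := h1
  have ha : (a.val : ℤ) < l := by exact_mod_cast a.val_lt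
  have hb : (b.val : ℤ) < l := by exact_mod_cast b.val_lt
  have ha' : (0 : ℤ) ≤ a.val := Nat.cast_nonneg _
  have hb' : (0 : ℤ) ≤ b.val := Nat.cast_nonneg _
  rw [abs_le] at hn
  have h2 : t < 2 := by nlinarith
  have h3 : -2 < t := by nlinarith
  interval_cases t <;> omega

theorem Circ_div {D x y : ℕ} (hD : 0 < D) (h : x ≤ y + D) : x / D ≤ y / D + 1 :=
  (Nat.div_le_div_right h).trans_eq (Nat.add_div_right y hD)

theorem Circ_sum {D x y : ℕ} (hD : 0 < D) (h : x + y ≤ D) : x / D + y / D ≤ 1 :=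
  (Nat.add_div_le_add_div x y D).trans ((Nat.div_le_div_right h).trans_eq (Nat.div_self hD))

/-- The circle cut at `o`. -/
def Circ_spi {G : Type} [Group G] (ψ : G →* MZ) {l : ℕ} (D : ℕ) (o : ZMod l) : Spi G (ZMod l) where
  leg :=
    { r := fun x g x' => ((x - o).val : ℤ) = (x' - o).val + (ψ g).toAdd
      refl := fun a => by simp
      symm := fun h => by rw [h, map_inv, toAdd_inv, add_neg_cancel_right]
      trans := fun h h' => by
        rw [h, h', map_mul, toAdd_mul]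
        ring }
  ht x := min (x - o).val (l - (x - o).val) / D

theorem Circ_rel {G : Type} [Group G] (ψ : G →* MZ) {l D : ℕ} [NeZero l] (hD : 0 < D) (hl : D ≤ l)
    (o x : ZMod l) (g : G) (hg : |(ψ g).toAdd| ≤ D) :
    (Circ_spi ψ D o).rel 1 (x + (((ψ g).toAdd : ℤ) : ZMod l)) g x := by
  have h := Circ_three (x + (((ψ g).toAdd : ℤ) : ZMod l) - o) (x - o) (ψ g).toAdd (by ring)
    (hg.trans (by exact_mod_cast hl))
  have ha := (x + (((ψ g).toAdd : ℤ) : ZMod l) - o).val_lt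
  have hb := (x - o).val_lt
  rw [abs_le] at hg
  refine ⟨Circ_div hD ?_, Circ_div hD ?_, fun e => Circ_sum hD ?_⟩
  · omega
  · omega
  · change ¬ ((x + (((ψ g).toAdd : ℤ) : ZMod l) - o).val : ℤ) =
      (x - o).val + (ψ g).toAdd at e
    omega

theorem circle {G : Type} [Group G] (ψ : G →* MZ) (r : ℕ) (S₀ : Finset G) :
    ∃ l₀ : ℕ, 0 < l₀ ∧ ∀ l : ℕ, l₀ ≤ l → ∃ σ : G →* Equiv.Perm (ZMod l),
      (∀ g, (l : ℤ) ∣ (ψ g).toAdd → σ g = 1) ∧ Ctrl (fun K => K ≤ ψ.ker) 2 r S₀ σ := by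
  obtain ⟨D, hD, hS⟩ : ∃ D : ℕ, 0 < D ∧ ∀ g ∈ S₀, |(ψ g).toAdd| ≤ D := by
    refine ⟨S₀.sup (fun g => (ψ g).toAdd.natAbs) + 1, Nat.succ_pos _, fun g hg => ?_⟩
    have h := Finset.le_sup (f := fun g => (ψ g).toAdd.natAbs) hg
    rw [← Int.natCast_natAbs]
    exact_mod_cast h.trans (Nat.le_succ _)
  refine ⟨4 * (r * D) + 4 * D + 4, by omega, fun l hl => ?_⟩
  have : NeZero l := ⟨by omega⟩
  refine ⟨{ toFun := fun g => Equiv.addRight (((ψ g).toAdd : ℤ) : ZMod l)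
            map_one' := by ext x; simp
            map_mul' := fun g h => by ext x; simp [add_assoc, add_left_comm, add_comm] }, fun g hg => ?_,
    Bool, inferInstance, fun i => Circ_spi ψ D (cond i (((l / 2 : ℕ) : ℤ) : ZMod l) 0),
    fun x => ?_, fun i x _ g hg => ?_, fun x => ?_, fun g hg x i => ?_⟩
  · ext x
    simp [(ZMod.intCast_zmod_eq_zero_iff_dvd _ l).2 hg]
  · exact (Set.ncard_le_card _).trans (by simp)
  · have h : ((x - _).val : ℤ) = (x - _).val + (ψ g).toAdd := hg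
    exact toAdd_eq_zero.1 (left_eq_add.1 h)
  · have h := Circ_three (x - 0) (x - (((l / 2 : ℕ) : ℤ) : ZMod l)) ((l / 2 : ℕ) : ℤ) (by ring)
      (by rw [abs_le]; omega)
    have ha := (x - 0).val_lt
    have hb := (x - (((l / 2 : ℕ) : ℤ) : ZMod l)).val_lt
    by_cases h1 : r * D ≤ min (x - 0).val (l - (x - 0).val)
    · exact ⟨false, (Nat.le_div_iff_mul_le hD).2 h1⟩
    · refine ⟨true, (Nat.le_div_iff_mul_le hD).2 ?_⟩
      change r * D ≤ min (x - (((l / 2 : ℕ) : ℤ) : ZMod l)).val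
        (l - (x - (((l / 2 : ℕ) : ℤ) : ZMod l)).val)
      omega
  · exact Circ_rel ψ hD (by omega) _ x g (hS g hg)

end Pool.Agent.MP_f7db47_al.VC
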