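import Pool.Agent.MP_f7db47_al.VC.VB

/-!
Lengths of orbits.
-/

namespace Pool.Agent.MP_f7db47_al.VC

open GN GF

theorem Orb_cast (q n : ℕ) {p : ℕ} (hp : 0 < p) :
    ((∏ i : Fin n, (p ^ n - p ^ (i : ℕ)) : ℕ) : ZMod q) =
      ∏ i : Fin n, ((p : ZMod q) ^ n - (p : ZMod q) ^ (i : ℕ)) := by
  rw [Nat.cast_prod]
  refine Finset.prod_congr rfl fun i _ => ?_
  rw [Nat.cast_sub (Nat.pow_le_pow_right hp i.2.le), Nat.cast_pow, Nat.cast_pow]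

theorem gl_card (ι : Type) [Fintype ι] [DecidableEq ι] (π : ℕ) (hπ : π.Prime) :
    ∃ c : ℕ, ∀ p₀ : ℕ, ∃ p : ℕ, p.Prime ∧ p₀ ≤ p ∧ ¬ π ^ c ∣ Nat.card (GL ι (ZMod p)) := by
  obtain ⟨n, hn⟩ : ∃ n, n = Fintype.card ι := ⟨_, rfl⟩
  obtain ⟨N, hN⟩ : ∃ N, N = ∏ i : Fin n, ((π + 1) ^ n - (π + 1) ^ (i : ℕ)) := ⟨_, rfl⟩
  have h0 : 0 < N := by
    rw [hN]
    exact Finset.prod_pos fun i _ =>
      Nat.sub_pos_of_lt (Nat.pow_lt_pow_right (Nat.succ_lt_succ hπ.pos) i.2)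
  refine ⟨N, fun p₀ => ?_⟩
  obtain ⟨p, hp, hpp, he⟩ := Nat.forall_exists_prime_gt_and_modEq p₀ (q := π ^ N) (a := π + 1)
    (pow_ne_zero _ hπ.ne_zero) (Nat.Coprime.pow_right _ (by simp))
  refine ⟨p, hpp, hp.le, fun hd => ?_⟩
  have := Fact.mk hpp
  have e : Nat.card (GL ι (ZMod p)) = Nat.card (GL (Fin n) (ZMod p)) :=
    Nat.card_congr (Units.mapEquiv (Matrix.reindexRingEquiv (R := ZMod p)
      (Fintype.equivFinOfCardEq hn.symm)).toMulEquiv).toEquiv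
  rw [e, Matrix.card_GL_field, ZMod.card, ← ZMod.natCast_eq_zero_iff, Orb_cast _ _ hpp.pos,
    (ZMod.natCast_eq_natCast_iff _ _ _).2 he, ← Orb_cast _ _ π.succ_pos, ← hN,
    ZMod.natCast_eq_zero_iff] at hd
  exact absurd (Nat.le_of_dvd h0 hd) (not_le.2 (Nat.lt_pow_self hπ.one_lt))

theorem orb_abs {V : Type} [Group V] (ψ : V →* MZ) (hψ : Finite ψ.ker) (π : ℕ) (hπ : π.Prime)
    (c l₀ : ℕ) : ∃ T : Finset V, (∀ g ∈ T, ψ g ≠ 1) ∧ ∀ (Q : Type) [Group Q] [Finite Q]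
      (f : V →* Q) (Bad : Q → Prop), ¬ π ^ c ∣ Nat.card Q → (∀ x (n : ℕ), Bad x → Bad (x ^ n)) →
      (∀ g ∈ T, ¬ Bad (f g)) → ∃ (s : ℕ) (l : Fin s → ℕ), (∀ i, l₀ ≤ l i ∧ ¬ π ∣ l i) ∧
        ∀ g, Bad (f g) → ∃ i, (l i : ℤ) ∣ (ψ g).toAdd := by
  classical
  obtain ⟨u, hu⟩ := exists_gen ψ
  have hfin : {g | ψ g ≠ 1 ∧ |dg ψ g| ≤ |dg ψ u| * (π ^ c * l₀ : ℕ)}.Finite :=
    (vc_ball ψ hψ _).subset fun g hg => hg.2
  refine ⟨hfin.toFinset, fun g hg => (hfin.mem_toFinset.1 hg).1, fun Q _ _ f Bad hc hB hT => ?_⟩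
  obtain ⟨L, hL⟩ : ∃ L : Finset ℕ, ∀ l, l ∈ L ↔ l < Nat.card Q + π * l₀ + 2 ∧ l₀ ≤ l ∧ ¬ π ∣ l :=
    ⟨(Finset.range (Nat.card Q + π * l₀ + 2)).filter fun l => l₀ ≤ l ∧ ¬ π ∣ l, fun l => by simp⟩
  refine ⟨L.card, fun i => (L.equivFin.symm i : ℕ), fun i => ((hL _).1 (L.equivFin.symm i).2).2,
    fun g hg => ?_⟩
  suffices h : ∃ l ∈ L, (l : ℤ) ∣ (ψ g).toAdd by
    obtain ⟨l, hl, h⟩ := h
    exact ⟨L.equivFin ⟨l, hl⟩, by simpa using h⟩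
  by_cases h1 : ψ g = 1
  · refine ⟨π * l₀ + 1, (hL _).2 ⟨by omega, ?_, fun h => ?_⟩, by simp [h1]⟩
    · exact (Nat.le_mul_of_pos_left _ hπ.pos).trans (Nat.le_succ _)
    · exact hπ.one_lt.ne' (Nat.dvd_one.1 ((Nat.dvd_add_right (dvd_mul_right _ _)).1 h))
  obtain ⟨n, hn⟩ := hu g
  have hd : (ψ u).toAdd ≠ 0 := fun h => h1 (by rw [hn, show ψ u = 1 from h, one_zpow])
  have ho : 0 < Nat.card Q := Nat.card_pos
  obtain ⟨m, hm⟩ : ∃ m, m = Int.gcd n (Nat.card Q) := ⟨_, rfl⟩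
  have hmo : m ∣ Nat.card Q := by
    have : (m : ℤ) ∣ (Nat.card Q : ℕ) := hm ▸ Int.gcd_dvd_right ..
    exact_mod_cast this
  have hmn : (m : ℤ) ∣ n := hm ▸ Int.gcd_dvd_left ..
  have hm0 : 0 < m := Nat.pos_of_dvd_of_pos hmo ho
  obtain ⟨a, b, hab⟩ : ∃ a b : ℤ, (m : ℤ) = n * a + (Nat.card Q : ℕ) * b :=
    ⟨_, _, hm ▸ Int.gcd_eq_gcd_ab _ _⟩
  have hf : Bad (f (g ^ a * u ^ ((Nat.card Q : ℕ) * b))) := by
    obtain ⟨k, hk⟩ := (mem_powers_iff_mem_zpowers (x := f g) (y := f g ^ a)).2 ⟨a, rfl⟩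
    rw [map_mul, map_zpow, map_zpow, zpow_mul, zpow_natCast, pow_card_eq_one', one_zpow, mul_one,
      ← hk]
    exact hB _ _ hg
  have hv : (ψ (g ^ a * u ^ ((Nat.card Q : ℕ) * b))).toAdd = m * (ψ u).toAdd := by
    rw [map_mul, map_zpow, map_zpow, hn, ← zpow_mul, ← zpow_add, ← hab, toAdd_zpow, smul_eq_mul]
  have hlt : π ^ c * l₀ < m := by
    by_contra hle
    refine hT _ (hfin.mem_toFinset.2 ⟨fun h => ?_, ?_⟩) hf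
    · rw [h] at hv
      exact mul_ne_zero (Int.natCast_ne_zero.2 hm0.ne') hd hv.symm
    · rw [dg, hv, Int.cast_mul, abs_mul, mul_comm, Int.cast_natCast, Nat.abs_cast]
      exact mul_le_mul_of_nonneg_left (Nat.cast_le.2 (not_lt.1 hle)) (abs_nonneg _)
  obtain ⟨j, l, hl, e⟩ := Nat.exists_eq_pow_mul_and_not_dvd hm0.ne' π hπ.one_lt.ne'
  have hlm : l ∣ m := ⟨π ^ j, by rw [e, mul_comm]⟩
  have hj : j ≤ c := by
    by_contra h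
    exact hc ((pow_dvd_pow π (not_le.1 h).le).trans ((Dvd.intro l e.symm).trans hmo))
  refine ⟨l, (hL _).2 ⟨?_, ?_, hl⟩, ?_⟩
  · have := Nat.le_of_dvd ho (hlm.trans hmo)
    omega
  · refine (Nat.lt_of_mul_lt_mul_left (a := π ^ j) ?_).le
    rw [← e]
    exact (Nat.mul_le_mul_right _ (Nat.pow_le_pow_right hπ.pos hj)).trans_lt hlt
  · rw [hn, toAdd_zpow, smul_eq_mul]
    exact ((Int.natCast_dvd_natCast.2 hlm).trans hmn).mul_right _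

end Pool.Agent.MP_f7db47_al.VC
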