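import Pool.Agent.MP_f7db47_al.VC.Deep
import Pool.Agent.MP_f7db47_al.VC.Circ
import Pool.Agent.MP_f7db47_al.VC.Orb
import Pool.Agent.MP_f7db47_al.VC.Vab

/-!
Hyperbolic affine groups.
-/

namespace Pool.Agent.MP_f7db47_al.VC

open GN GF Matrix

theorem Aff_bad {ι F : Type} [Fintype ι] [DecidableEq ι] [CommRing F] (x : GL ι F) (n : ℕ)
    (h : (x.val - 1).det = 0) : ((x ^ n).val - 1).det = 0 := by
  rw [Units.val_pow_eq_pow_val, ← mul_geom_sum, det_mul, h, zero_mul]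

theorem Aff_ker {V ι : Type} [Group V] [Fintype ι] [DecidableEq ι] {Z : Subring ℚ}
    (L : V →* GLZ Z ι) (ψ : V →* MZ) (hψ : Finite ψ.ker) : FJ (ψ.comp (Aff.lin L)).ker := by
  let φ : (ψ.comp (Aff.lin L)).ker →* ψ.ker :=
    ((Aff.lin L).comp (ψ.comp (Aff.lin L)).ker.subtype).codRestrict ψ.ker fun x => x.2
  refine fj_vab φ.ker inferInstance fun a ha b hb => Subtype.ext ?_
  have ha' : a.1.g = 1 := congrArg Subtype.val ha
  have hb' : b.1.g = 1 := congrArg Subtype.val hb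
  refine Aff.ext ?_ ?_
  · change (a.1 * b.1).a = (b.1 * a.1).a
    rw [Aff.mul_a, Aff.mul_a, ha', hb', Aff.mulVec_one, Aff.mulVec_one, add_comm]
  · change (a.1 * b.1).g = (b.1 * a.1).g
    rw [Aff.mul_g, Aff.mul_g, ha', hb']

theorem fj_aff {q : ℕ} (hq : 0 < q) {V ι : Type} [Group V] [Fintype ι] [DecidableEq ι]
    (L : V →* GLZ (ZQ q) ι) (ψ : V →* MZ) (hψ : Finite ψ.ker)
    (h : ∀ g, ψ g ≠ 1 → ((L g).1.val - 1).det ≠ 0) : FJ (Aff L) := by
  classical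
  obtain ⟨N, hN⟩ := aff_deep hq L ψ hψ
  refine FJ.fh (max N 2) fun r S₀ π hπ => ?_
  obtain ⟨l₀, hl₀, hcirc⟩ := circle (ψ.comp (Aff.lin L)) r S₀
  obtain ⟨c, hc⟩ := gl_card ι π hπ
  obtain ⟨T, hT, horb⟩ := orb_abs ψ hψ π hπ c l₀
  obtain ⟨p₁, hp₁⟩ := red_ne (T.image fun g => ((L g).1.val - 1).det) (by
    intro a ha
    obtain ⟨g, hg, rfl⟩ := Finset.mem_image.1 ha
    exact h g (hT g hg))
  obtain ⟨p₀, hp₀⟩ := hN r S₀
  obtain ⟨p, hp, hle, hcard⟩ := hc (max (max p₀ p₁) (q + 1))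
  have : Fact p.Prime := ⟨hp⟩
  have hpq : ¬ p ∣ q := fun hd => by
    have := Nat.le_of_dvd hq hd
    omega
  obtain ⟨f, -, hf⟩ := exists_redL L hpq
  obtain ⟨σ₀, hσ₀⟩ := exists_act L hpq
  obtain ⟨s, l, hl, hbad⟩ := horb (GL ι (ZMod p)) f (fun x => (x.val - 1).det = 0) hcard
    Aff_bad fun g hg => by
      rw [hf]
      exact hp₁ p (by omega) _ (Finset.mem_image_of_mem _ hg)
  choose σ hσ hσ' using fun i => hcirc (l i) (hl i).1
  refine ⟨s, ι → ZMod p, inferInstance, σ₀, fun i => ZMod (l i), fun i => ?_, σ,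
    (hp₀ p (by omega) hpq σ₀ hσ₀).mono (fun K hK => FJ.of_vc hK) (le_max_left _ _),
    fun i => (hσ' i).mono (fun K hK => FJ.le hK (Aff_ker L ψ hψ)) (le_max_right _ _),
    fun i => ?_, fun g => ?_⟩
  · have : NeZero (l i) := ⟨by have := (hl i).1; omega⟩
    infer_instance
  · rw [Nat.card_zmod]
    exact (hl i).2
  · by_cases hb : ((f g.g).val - 1).det = 0
    · obtain ⟨i, hi⟩ := hbad g.g hb
      exact Or.inr ⟨i, hσ i g hi⟩
    · rw [hf] at hb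
      exact Or.inl (act_fix L hpq hσ₀ g hb)

end Pool.Agent.MP_f7db47_al.VC
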