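import Pool.Agent.MP_f7db47_al.GF.DH
import Pool.Agent.MP_f7db47_al.GF.AD

/-!
Reduction to virtually cyclic subgroups: definitions.
-/

namespace Pool.Agent.MP_f7db47_al.VC

open GN GF Matrix

universe w

/-- Finite-by-cyclic groups. -/
def IsVC (B : Type) [Group B] : Prop := ∃ φ : B →* MZ, Finite φ.ker

/-- A `G`-set that is controlled over spiders. -/
def Ctrl {G : Type} [Group G] (P : Subgroup G → Prop) (N r : ℕ) (S₀ : Finset G) {X : Type}
    (σ : G →* Equiv.Perm X) : Prop :=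
  ∃ (ι : Type) (_ : Finite ι) (S : ι → Spi G X), (∀ x, {i | 0 < (S i).ht x}.ncard ≤ N) ∧
    (∀ i x, 0 < (S i).ht x → P ((S i).leg.grp x)) ∧ (∀ x, ∃ i, r ≤ (S i).ht x) ∧
    ∀ g ∈ S₀, ∀ x i, (S i).rel 1 (σ g x) g x

/-- The data for the method of Farrell and Hsiang. -/
def FHD {G : Type} [Group G] (P : Subgroup G → Prop) (N r : ℕ) (S₀ : Finset G) (π : ℕ) : Prop :=
  ∃ (s : ℕ) (X₀ : Type) (_ : Finite X₀) (σ₀ : G →* Equiv.Perm X₀) (X : Fin s → Type)
    (_ : ∀ i, Finite (X i)) (σ : ∀ i, G →* Equiv.Perm (X i)), Ctrl P N r S₀ σ₀ ∧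
    (∀ i, Ctrl P N r S₀ (σ i)) ∧ (∀ i, ¬ π ∣ Nat.card (X i)) ∧
    ∀ g, (∃! x, σ₀ g x = x) ∨ ∃ i, σ i g = 1

/-- A property of groups over `G₀` that behaves like the vanishing of obstruction groups. -/
structure Thy (G₀ : Type) [Group G₀] where
  Q : ∀ (G : Type) [Group G], (G →* G₀) → Prop
  sub : ∀ {G H : Type} [Group G] [Group H] {i : H →* G₀} (f : G →* H), Function.Injective f →
    Q H i → Q G (i.comp f)
  loc : ∀ {G : Type} [Group G] {i : G →* G₀},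
    (∀ K : Subgroup G, K.FG → Q K (i.comp K.subtype)) → Q G i
  flow : ∀ {Γ G : Type} [Group Γ] [Group G] {i : G →* G₀} {Fam : Set (Subgroup Γ)},
    HasPack Γ Fam → ∀ f : G →* Γ, (∀ (B : Subgroup Γ) (φ : B →* MZ),
      (∀ g, φ g = 1 → IsOfFinOrder g) → Q (B.comap f) (i.comp (B.comap f).subtype)) →
    (∀ B ∈ Fam, Q (B.comap f) (i.comp (B.comap f).subtype)) → Q G i
  ext : ∀ {G : Type} [Group G] {i : G →* G₀} (ψ : G →* MZ) (ι : Type) (K : ι → Subgroup G)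
    (r : ι → ι → Prop), WellFounded r → (∀ j, K j ≤ ψ.ker) →
    (∀ M : Subgroup G, M.FG → M ≤ ψ.ker → ∃ j, M ≤ K j) → Q ψ.ker (i.comp ψ.ker.subtype) →
    (∀ j x, x ∉ ψ.ker →
      Q ↥(K j ⊔ Subgroup.zpowers x) (i.comp (K j ⊔ Subgroup.zpowers x).subtype) ∨
        Drops K r j x ∨ Drops K r j x⁻¹) → Q G i
  fh : Q PUnit.{1} 1 → ∀ N : ℕ, ∃ r : ℕ, ∀ (G : Type) [Group G] (i : G →* G₀),
    (∀ (S₀ : Finset G) (π : ℕ), π.Prime →
      FHD (fun K => Q K (i.comp K.subtype)) N r S₀ π) → Q G i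
  gl : ∀ {G A : Type} [Group G] [CommRing A] {i : G →* G₀} {n : ℕ} (f : G →* GL (Fin n) A),
    (∀ (H : Subgroup G) (φ : H →* MZ), (∀ g : H, φ g = 1 → QU (f g).val) →
      Q H (i.comp H.subtype)) → Q G i

/-- The fibred reduction to finite-by-cyclic subgroups holds for `Γ`. -/
def FJ (Γ : Type) [Group Γ] : Prop :=
  ∀ (G₀ : Type) [Group G₀] (T : Thy G₀) (G : Type) [Group G] (i : G →* G₀) (f : G →* Γ),
    (∀ B : Subgroup Γ, IsVC B → T.Q (B.comap f) (i.comp (B.comap f).subtype)) → T.Q G i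

/-- An additive invariant of integral representations. -/
structure Swan (G : Type) [Group G] (W : Type w) [AddCommGroup W] where
  κ : ∀ {m : Type} [Fintype m] [DecidableEq m], (G →* Matrix m m ℤ) → W
  conj : ∀ {m m' : Type} [Fintype m] [DecidableEq m] [Fintype m'] [DecidableEq m']
    (a : G →* Matrix m m ℤ) (b : G →* Matrix m' m' ℤ) (S : Matrix m' m ℤ) (S' : Matrix m m' ℤ),
    S * S' = 1 → S' * S = 1 → (∀ g, S * a g = b g * S) → κ a = κ b
  block : ∀ {m m' : Type} [Fintype m] [DecidableEq m] [Fintype m'] [DecidableEq m']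
    (c : G →* Matrix (m ⊕ m') (m ⊕ m') ℤ) (a : G →* Matrix m m ℤ) (d : G →* Matrix m' m' ℤ)
    (b : G → Matrix m m' ℤ), (∀ g, c g = fromBlocks (a g) (b g) 0 (d g)) → κ c = κ a + κ d

/-- An additive invariant of lattices. -/
structure SwanM (k : Type) [CommRing k] (G : Type) [Group G] (W : Type w) [AddCommGroup W] where
  κ : ∀ {M : Type} [AddCommGroup M] [Module k M] [Module.Free k M] [Module.Finite k M],
    Representation k G M → W
  ses : ∀ {M₁ M₂ M₃ : Type} [AddCommGroup M₁] [Module k M₁] [Module.Free k M₁]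
    [Module.Finite k M₁] [AddCommGroup M₂] [Module k M₂] [Module.Free k M₂] [Module.Finite k M₂]
    [AddCommGroup M₃] [Module k M₃] [Module.Free k M₃] [Module.Finite k M₃]
    (ρ₁ : Representation k G M₁) (ρ₂ : Representation k G M₂) (ρ₃ : Representation k G M₃)
    (f : M₁ →ₗ[k] M₂) (p : M₂ →ₗ[k] M₃), (∀ g x, f (ρ₁ g x) = ρ₂ g (f x)) →
    (∀ g x, p (ρ₂ g x) = ρ₃ g (p x)) → Function.Injective f → Function.Surjective p →
    Function.Exact f p → κ ρ₂ = κ ρ₁ + κ ρ₃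

/-- Permutation matrices. -/
def permRep {G X : Type} [Group G] [Fintype X] [DecidableEq X] (σ : G →* Equiv.Perm X) :
    G →* Matrix X X ℤ where
  toFun g := fun x y => if σ g y = x then 1 else 0
  map_one' := by
    ext x y
    simp [Matrix.one_apply, eq_comm]
  map_mul' g h := by
    ext x y
    simp [Matrix.mul_apply]

/-- The lattice given by a matrix representation. -/
noncomputable def matRep {G m : Type} [Group G] [Fintype m] [DecidableEq m]
    (a : G →* Matrix m m ℤ) : Representation ℤ G (m → ℤ) :=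
  (Matrix.toLinAlgEquiv' (R := ℤ) (n := m)).toMonoidHom.comp a

/-- The diagonal action on a product. -/
def permProd {G X Y : Type} [Group G] (σ : G →* Equiv.Perm X) (τ : G →* Equiv.Perm Y) :
    G →* Equiv.Perm (X × Y) where
  toFun g := Equiv.prodCongr (σ g) (τ g)
  map_one' := by
    ext x <;> simp
  map_mul' g h := by
    ext x <;> simp

/-- A flow with a weaker Lipschitz condition. -/
structure WFlow (Γ : Type) [Group Γ] (Y : Type) [MetricSpace Y] [MulAction Γ Y] where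
  Φ : ℝ → Y → Y
  κ : ℝ
  A : ℝ
  m : ℕ
  hκ : 0 ≤ κ
  zero : ∀ y, Φ 0 y = y
  add : ∀ s t y, Φ (s + t) y = Φ s (Φ t y)
  smul : ∀ (γ : Γ) s y, Φ s (γ • y) = γ • Φ s y
  iso : ∀ (γ : Γ) (y y' : Y), dist (γ • y) (γ • y') = dist y y'
  lip : ∀ s y y', dist (Φ s y) (Φ s y') ≤ A * Real.exp (κ * |s|) * dist y y'
  spd : ∀ s t y, dist (Φ s y) (Φ t y) ≤ |s - t|
  prp : ∀ (y : Y) (r : ℝ), {γ : Γ | dist (γ • y) y ≤ r}.Finite
  cpt : ∀ (y : Y) (r : ℝ), IsCompact (Metric.closedBall y r)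
  cov : ∀ (y : Y) (r : ℝ), Cov (Metric.closedBall y r) m

/-- The value of a homomorphism to `ℤ`, as a real number. -/
def dg {Γ : Type} [Group Γ] (ψ : Γ →* MZ) (g : Γ) : ℝ := (((ψ g).toAdd : ℤ) : ℝ)

/-- Affine groups over a subring of `ℚ`. -/
@[ext] structure Aff {V ι : Type} [Group V] [Fintype ι] [DecidableEq ι] {Z : Subring ℚ}
    (L : V →* GLZ Z ι) where
  a : ι → ℚ
  mem : ∀ i, a i ∈ Z
  g : V

namespace Aff

variable {V ι : Type} [Group V] [Fintype ι] [DecidableEq ι] {Z : Subring ℚ} {L : V →* GLZ Z ι}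

theorem mulVec_mem (g : V) {a : ι → ℚ} (ha : ∀ i, a i ∈ Z) (i : ι) :
    ((L g).1.val *ᵥ a) i ∈ Z :=
  Z.sum_mem fun j _ => Z.mul_mem ((L g).2.1 i j) (ha j)

theorem mulVec_mul (g h : V) (a : ι → ℚ) :
    (L (g * h)).1.val *ᵥ a = (L g).1.val *ᵥ ((L h).1.val *ᵥ a) := by
  rw [map_mul, mulVec_mulVec]
  rfl

theorem mulVec_one (a : ι → ℚ) : (L 1).1.val *ᵥ a = a := by
  rw [map_one]
  exact Matrix.one_mulVec a

instance : Mul (Aff L) :=
  ⟨fun x y => ⟨x.a + (L x.g).1.val *ᵥ y.a,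
    fun i => Z.add_mem (x.mem i) (mulVec_mem x.g y.mem i), x.g * y.g⟩⟩

instance : One (Aff L) := ⟨⟨0, fun _ => Z.zero_mem, 1⟩⟩

instance : Inv (Aff L) :=
  ⟨fun x => ⟨-((L x.g⁻¹).1.val *ᵥ x.a), fun i => Z.neg_mem (mulVec_mem x.g⁻¹ x.mem i), x.g⁻¹⟩⟩

theorem mul_a (x y : Aff L) : (x * y).a = x.a + (L x.g).1.val *ᵥ y.a := rfl

theorem mul_g (x y : Aff L) : (x * y).g = x.g * y.g := rfl

theorem one_a : (1 : Aff L).a = 0 := rfl

theorem one_g : (1 : Aff L).g = 1 := rfl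

theorem inv_a (x : Aff L) : (x⁻¹).a = -((L x.g⁻¹).1.val *ᵥ x.a) := rfl

theorem inv_g (x : Aff L) : (x⁻¹).g = x.g⁻¹ := rfl

instance : Group (Aff L) :=
  Group.ofLeftAxioms
    (fun x y z => Aff.ext (by simp only [mul_a, mul_g, mulVec_mul, mulVec_add, add_assoc])
      (mul_assoc _ _ _))
    (fun x => Aff.ext (by rw [mul_a, one_a, one_g, mulVec_one, zero_add]) (one_mul _))
    fun x => Aff.ext (by rw [mul_a, inv_a, inv_g, one_a, neg_add_cancel]) (inv_mul_cancel _)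

variable (L) in
/-- The linear part. -/
def lin : Aff L →* V where
  toFun := Aff.g
  map_one' := rfl
  map_mul' _ _ := rfl

/-- The action on the reduction modulo `p`. -/
def IsAct (p : ℕ) [Fact p.Prime] (σ : Aff L →* Equiv.Perm (ι → ZMod p)) : Prop :=
  ∀ x z i, σ x z i = ((x.a i : ℚ) : ZMod p) + ∑ j, (((L x.g).1.val i j : ℚ) : ZMod p) * z j

end Aff

/-- The wreath product of `ℤ` with a symmetric group. -/
@[ext] structure Wr (ι : Type) where
  b : ι → ℤ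
  σ : Equiv.Perm ι

namespace Wr

variable {ι : Type}

instance : Mul (Wr ι) := ⟨fun x y => ⟨fun i => x.b i + y.b (x.σ⁻¹ i), x.σ * y.σ⟩⟩

instance : One (Wr ι) := ⟨⟨0, 1⟩⟩

instance : Inv (Wr ι) := ⟨fun x => ⟨fun i => -x.b (x.σ i), x.σ⁻¹⟩⟩

theorem mul_b (x y : Wr ι) (i : ι) : (x * y).b i = x.b i + y.b (x.σ⁻¹ i) := rfl

theorem mul_σ (x y : Wr ι) : (x * y).σ = x.σ * y.σ := rfl

theorem one_b (i : ι) : (1 : Wr ι).b i = 0 := rfl

theorem one_σ : (1 : Wr ι).σ = 1 := rfl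

theorem inv_b (x : Wr ι) (i : ι) : (x⁻¹).b i = -x.b (x.σ i) := rfl

theorem inv_σ (x : Wr ι) : (x⁻¹).σ = x.σ⁻¹ := rfl

instance : Group (Wr ι) :=
  Group.ofLeftAxioms
    (fun x y z => Wr.ext (funext fun i => by simp [mul_b, mul_σ, add_assoc]) (mul_assoc _ _ _))
    (fun x => Wr.ext (funext fun i => by simp [mul_b, one_b, one_σ]) (one_mul _))
    fun x => Wr.ext (funext fun i => by simp [mul_b, inv_b, inv_σ, one_b]) (inv_mul_cancel _)

end Wr

/-- An abelian normal subgroup with finite-by-cyclic quotient, embedded in a rational vector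
space. -/
structure Lin (Γ : Type) [Group Γ] (U : Type) [AddCommGroup U] [Module ℚ U] where
  ψ : Γ →* MZ
  A : Subgroup Γ
  L : Γ →* (U ≃ₗ[ℚ] U)
  e : Γ → U
  normal : A.Normal
  le : A ≤ ψ.ker
  idx : A.relIndex ψ.ker ≠ 0
  add : ∀ a ∈ A, ∀ b ∈ A, e (a * b) = e a + e b
  inj : ∀ a ∈ A, e a = 0 → a = 1
  conj : ∀ γ, ∀ a ∈ A, e (γ * a * γ⁻¹) = L γ (e a)
  triv : ∀ a ∈ A, L a = 1

end Pool.Agent.MP_f7db47_al.VC
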