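import Pool.Agent.MP_f7db47_al.VC.VB
import Pool.Agent.MP_f7db47_al.GF.AInt

/-!
Reduction modulo a prime.
-/

namespace Pool.Agent.MP_f7db47_al.VC

open GN GF Matrix

variable {q p : ℕ} [Fact p.Prime]

theorem Red_q (h : ¬ p ∣ q) : (q : ZMod p) ≠ 0 := fun e =>
  h ((ZMod.natCast_eq_zero_iff q p).1 e)

theorem Red_den (h : ¬ p ∣ q) {a : ℚ} (ha : a ∈ ZQ q) : (a.den : ZMod p) ≠ 0 := by
  obtain ⟨e, z, hz⟩ := ha
  have hq : q ≠ 0 := by
    rintro rfl
    exact h (dvd_zero p)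
  have hq' : ((q : ℚ) ^ e) ≠ 0 := pow_ne_zero _ (by exact_mod_cast hq)
  have h1 : a = Rat.divInt z ((q : ℤ) ^ e) := by
    rw [Rat.divInt_eq_div]
    push_cast
    rw [eq_div_iff hq', mul_comm, hz]
  have h2 : (a.den : ℤ) ∣ (q : ℤ) ^ e := by
    rw [h1]
    exact Rat.den_dvd _ _
  have h3 : a.den ∣ q ^ e := by exact_mod_cast h2
  intro h0
  have h4 : p ∣ a.den := (ZMod.natCast_eq_zero_iff _ p).1 h0
  exact h ((Fact.out : p.Prime).dvd_of_dvd_pow (h4.trans h3))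

theorem exists_red (h : ¬ p ∣ q) : ∃ ρ : ZQ q →+* ZMod p, ∀ a, ρ a = ((a : ℚ) : ZMod p) := by
  refine ⟨⟨⟨⟨fun a => ((a : ℚ) : ZMod p), ?_⟩, fun a b => ?_⟩, ?_, fun a b => ?_⟩, fun _ => rfl⟩
  · simp
  · exact Rat.cast_mul_of_ne_zero (Red_den h a.2) (Red_den h b.2)
  · simp
  · exact Rat.cast_add_of_ne_zero (Red_den h a.2) (Red_den h b.2)

theorem red_div (h : ¬ p ∣ q) {a : ℚ} (ha : a ∈ ZQ q) (h0 : (a : ZMod p) = 0) :
    a / p ∈ ZQ q := by
  have hd := Red_den h ha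
  obtain ⟨e, z, hz⟩ := ha
  have h1 : (z : ZMod p) = 0 := by
    have h2 : (((q : ℚ) ^ e * a : ℚ) : ZMod p) = ((z : ℚ) : ZMod p) := by rw [hz]
    rw [Rat.cast_mul_of_ne_zero _ hd, h0, mul_zero, Rat.cast_intCast] at h2
    · exact h2.symm
    · have h3 : ((q : ℚ) ^ e) = ((q ^ e : ℕ) : ℚ) := by push_cast; rfl
      rw [h3, Rat.den_natCast]
      simp
  obtain ⟨w, rfl⟩ := (ZMod.intCast_zmod_eq_zero_iff_dvd z p).1 h1
  have hp : (p : ℚ) ≠ 0 := by exact_mod_cast (Fact.out : p.Prime).ne_zero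
  refine ⟨e, w, ?_⟩
  rw [← mul_div_assoc, hz]
  push_cast
  field_simp

theorem red_ne (T : Finset ℚ) (hT : ∀ a ∈ T, a ≠ 0) :
    ∃ p₀ : ℕ, ∀ (p : ℕ) [Fact p.Prime], p₀ ≤ p → ∀ a ∈ T, (a : ZMod p) ≠ 0 := by
  refine ⟨T.sup (fun a => a.num.natAbs + a.den) + 1, fun p _ hp a ha => ?_⟩
  have h1 : a.num.natAbs + a.den ≤ T.sup (fun a => a.num.natAbs + a.den) :=
    Finset.le_sup (f := fun a : ℚ => a.num.natAbs + a.den) ha
  have h2 : 0 < a.num.natAbs := Int.natAbs_pos.2 (Rat.num_ne_zero.2 (hT a ha))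
  have h3 : 0 < a.den := a.den_pos
  rw [Rat.cast_def]
  refine div_ne_zero (fun e => ?_) fun e => ?_
  · have h4 : (p : ℤ) ∣ a.num := (ZMod.intCast_zmod_eq_zero_iff_dvd _ p).1 e
    have h5 : p ∣ a.num.natAbs := Int.natCast_dvd.1 h4
    have := Nat.le_of_dvd h2 h5
    omega
  · have h4 : p ∣ a.den := (ZMod.natCast_eq_zero_iff _ p).1 e
    have := Nat.le_of_dvd h3 h4
    omega

variable {V ι : Type} [Group V] [Fintype ι] [DecidableEq ι] (L : V →* GLZ (ZQ q) ι)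

/-- The matrix over the subring. -/
def Red_M (g : V) : Matrix ι ι (ZQ q) := fun i j => ⟨(L g).1.val i j, (L g).2.1 i j⟩

theorem Red_M_map (g : V) : (ZQ q).subtype.mapMatrix (Red_M L g) = (L g).1.val := by
  ext i j
  rfl

theorem Red_inj : Function.Injective ((ZQ q).subtype.mapMatrix (m := ι)) := fun A B e => by
  ext i j
  exact congrFun (congrFun e i) j

/-- The matrix over the subring, as a homomorphism. -/
def Red_hom : V →* Matrix ι ι (ZQ q) where
  toFun := Red_M L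
  map_one' := Red_inj (by rw [Red_M_map, map_one, map_one]; rfl)
  map_mul' g h := Red_inj (by rw [map_mul, Red_M_map, Red_M_map, Red_M_map, map_mul]; rfl)

theorem exists_redL (h : ¬ p ∣ q) : ∃ f : V →* GL ι (ZMod p),
    (∀ g i j, (f g).val i j = (((L g).1.val i j : ℚ) : ZMod p)) ∧
    ∀ g, ((f g).val - 1).det = ((((L g).1.val - 1).det : ℚ) : ZMod p) := by
  obtain ⟨ρ, hρ⟩ := exists_red h
  refine ⟨((ρ.mapMatrix (m := ι)).toMonoidHom.comp (Red_hom L)).toHomUnits,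
    fun g i j => hρ _, fun g => ?_⟩
  have h1 : (((ρ.mapMatrix (m := ι)).toMonoidHom.comp (Red_hom L)).toHomUnits g).val - 1 =
      ρ.mapMatrix (Red_M L g - 1) := by
    rw [map_sub, map_one]
    rfl
  have h2 : (L g).1.val - 1 = (ZQ q).subtype.mapMatrix (Red_M L g - 1) := by
    rw [map_sub, map_one, Red_M_map]
  rw [h1, h2, ← RingHom.map_det, ← RingHom.map_det, hρ]
  rfl

theorem exists_act (h : ¬ p ∣ q) : ∃ σ : Aff L →* Equiv.Perm (ι → ZMod p), Aff.IsAct p σ := by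
  obtain ⟨ρ, hρ⟩ := exists_red h
  obtain ⟨f, hf, -⟩ := exists_redL L h
  let c : Aff L → ι → ZMod p := fun x i => ((x.a i : ℚ) : ZMod p)
  have hc : ∀ x y : Aff L, c (x * y) = c x + (f x.g).val *ᵥ c y := by
    intro x y
    funext i
    have h1 : (⟨(x * y).a i, (x * y).mem i⟩ : ZQ q) =
        ⟨x.a i, x.mem i⟩ + ∑ j, Red_M L x.g i j * ⟨y.a j, y.mem j⟩ := by
      apply Subtype.ext
      push_cast
      rfl
    have h2 := congrArg ρ h1
    rw [map_add, map_sum, hρ, hρ] at h2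
    simp only [map_mul] at h2
    refine h2.trans ?_
    simp only [Pi.add_apply, Matrix.mulVec, dotProduct, hρ, hf]
    rfl
  let F : Aff L →* Function.End (ι → ZMod p) :=
    { toFun := fun x z => c x + (f x.g).val *ᵥ z
      map_one' := by
        funext z
        have h1 : c 1 = 0 := by
          funext i
          simp [c, Aff.one_a]
        rw [h1, Aff.one_g, map_one, zero_add]
        exact Matrix.one_mulVec z
      map_mul' := fun x y => by
        funext z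
        change c (x * y) + (f (x * y).g).val *ᵥ z =
          c x + (f x.g).val *ᵥ (c y + (f y.g).val *ᵥ z)
        rw [hc, Aff.mul_g, map_mul, Units.val_mul, mulVec_add, mulVec_mulVec, add_assoc] }
  refine ⟨F.toHomPerm, fun x z i => ?_⟩
  change (c x + (f x.g).val *ᵥ z) i = _
  simp only [Pi.add_apply, Matrix.mulVec, dotProduct, hf]
  rfl

theorem act_fix (h : ¬ p ∣ q) {σ : Aff L →* Equiv.Perm (ι → ZMod p)} (hσ : Aff.IsAct p σ)
    (γ : Aff L) (hγ : ((((L γ.g).1.val - 1).det : ℚ) : ZMod p) ≠ 0) : ∃! z, σ γ z = z := by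
  obtain ⟨f, hf, hd⟩ := exists_redL L h
  rw [← hd] at hγ
  have hu : IsUnit ((f γ.g).val - 1) :=
    (Matrix.isUnit_iff_isUnit_det _).2 (isUnit_iff_ne_zero.2 hγ)
  let c : ι → ZMod p := fun i => ((γ.a i : ℚ) : ZMod p)
  have h1 : ∀ z, σ γ z = c + (f γ.g).val *ᵥ z := fun z => by
    funext i
    rw [hσ]
    simp only [Pi.add_apply, Matrix.mulVec, dotProduct, hf]
    rfl
  have h2 : ∀ z, σ γ z = z ↔ ((f γ.g).val - 1) *ᵥ z = -c := fun z => by
    rw [h1, sub_mulVec, one_mulVec]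
    constructor
    · intro e
      rw [← sub_eq_zero] at e ⊢
      rw [← e]
      abel
    · intro e
      rw [← sub_eq_zero] at e ⊢
      rw [← e]
      abel
  have hb : Function.Bijective ((f γ.g).val - 1).mulVec :=
    ⟨Matrix.mulVec_injective_iff_isUnit.2 hu, Matrix.mulVec_surjective_iff_isUnit.2 hu⟩
  simp only [h2]
  exact hb.existsUnique _

end Pool.Agent.MP_f7db47_al.VC
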