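import Pool.Agent.MP_f7db47_al.VC.AF2
import Pool.Agent.MP_f7db47_al.VC.Red
import Pool.Agent.MP_f7db47_al.GF.FSpi

/-!
The reductions modulo large primes are controlled.
-/

namespace Pool.Agent.MP_f7db47_al.VC

open GN GF Matrix

section

variable {V ι X Y : Type} [Group V] [Fintype ι] [DecidableEq ι] {Z : Subring ℚ}
  {L : V →* GLZ Z ι}

/-- The spider on the labels. -/
def Deep_spi (t : ℚ) (w : X → ι → ℚ) (y : X → Y) (S : Spi (Aff L) Y) : Spi (Aff L) X where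
  ht x := S.ht (y x)
  leg :=
    { r := fun x g x' => ∃ d : Aff L, d.g = g.g ∧
        t • d.a = -w x + g.a + (L g.g).1.val *ᵥ w x' ∧ S.leg.r (y x) d (y x')
      refl := fun x => ⟨1, rfl, by simp [Aff.one_a, Aff.one_g], S.leg.refl _⟩
      symm := by
        rintro x g x' ⟨d, h1, h2, h3⟩
        refine ⟨d⁻¹, congrArg (·⁻¹) h1, ?_, S.leg.symm h3⟩
        rw [Aff.inv_a, Aff.inv_a, Aff.inv_g, smul_neg, ← mulVec_smul, h2, h1, mulVec_add,
          mulVec_add, ← Aff.mulVec_mul, inv_mul_cancel, Aff.mulVec_one, mulVec_neg]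
        abel
      trans := by
        rintro x g x' g' x'' ⟨d, h1, h2, h3⟩ ⟨d', h1', h2', h3'⟩
        refine ⟨d * d', congrArg₂ (· * ·) h1 h1', ?_, S.leg.trans h3 h3'⟩
        rw [Aff.mul_a, Aff.mul_a, Aff.mul_g, smul_add, ← mulVec_smul, h2, h2', h1, mulVec_add,
          mulVec_add, Aff.mulVec_mul, mulVec_neg]
        abel }

theorem Deep_vc (ψ : V →* MZ) (t : ℚ) (w : X → ι → ℚ) (y : X → Y) (S : Spi (Aff L) Y) (x : X)
    {P : Subgroup (Aff L)} (h : S.leg.grp (y x) ≤ P) (hP : {γ | γ ∈ P ∧ ψ γ.g = 1}.Finite) :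
    IsVC ((Deep_spi t w y S).leg.grp x) := by
  have h1 := hP.biUnion (t := fun d => {g : Aff L | d.g = g.g ∧
      t • d.a = -w x + g.a + (L g.g).1.val *ᵥ w x}) fun d _ => Set.Subsingleton.finite (by
    rintro g ⟨a1, a2⟩ g' ⟨b1, b2⟩
    rw [← a1] at a2
    rw [← b1, a2] at b2
    exact Aff.ext (add_left_cancel (add_right_cancel b2)) (a1.symm.trans b1))
  refine ⟨(ψ.comp (Aff.lin L)).comp (Subgroup.subtype _), @Finite.of_injective _ _ h1.to_subtype
    (fun g => ⟨g.1.1, ?_⟩) fun g g' e => Subtype.ext (Subtype.ext (by simpa using e))⟩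
  obtain ⟨⟨g, d, a1, a2, a3⟩, hg⟩ := g
  exact Set.mem_biUnion (x := d) ⟨h a3, (congrArg ψ a1).trans hg⟩ ⟨a1, a2⟩

end

theorem Deep_av {q p : ℕ} [Fact p.Prime] (h : ¬ p ∣ q) (l : q.primeFactors) (a : ℚ) :
    avQ q (some l) (a / p) = padicNorm l a := by
  have := Fact.mk (Nat.prime_of_mem_primeFactors l.2)
  have h1 : l.1 ≠ p := fun e => h (e ▸ Nat.dvd_of_mem_primeFactors l.2)
  show ((padicNorm l (a / p) : ℚ) : ℝ) = _
  rw [padicNorm.div, padicNorm.padicNorm_of_prime_of_ne h1, div_one]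

theorem aff_deep {q : ℕ} (hq : 0 < q) {V ι : Type} [Group V] [Fintype ι] [DecidableEq ι]
    (L : V →* GLZ (ZQ q) ι) (ψ : V →* MZ) (hψ : Finite ψ.ker) :
    ∃ N : ℕ, ∀ (r : ℕ) (S₀ : Finset (Aff L)), ∃ p₀ : ℕ, ∀ (p : ℕ) [Fact p.Prime], p₀ ≤ p →
      ¬ p ∣ q → ∀ σ : Aff L →* Equiv.Perm (ι → ZMod p), Aff.IsAct p σ →
        Ctrl (fun K => IsVC K) N r S₀ σ := by
  obtain ⟨Y, _, _, F, pt, A, κ, f1, f2, f3, f4⟩ := aff_flow hq L ψ hψ
  refine ⟨4 * (F.m + 1), fun r S₀ => ?_⟩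
  obtain ⟨β, hβ⟩ := (S₀.finite_toSet.image fun g => |dg ψ g.g|).bddAbove
  obtain ⟨ε, hε, n, S, s1, s2, s3, s4⟩ :=
    F.spiders (pt 0 0) (A * Real.exp (κ * |(0 : ℝ)|) * 1) β r
  obtain ⟨C₀, hC₀⟩ := ((S₀.finite_toSet.prod (Set.finite_univ (α := Option q.primeFactors × ι))).image
    fun u => avQ q u.2.1 (u.1.a u.2.2)).bddAbove
  obtain ⟨C, C0, hC⟩ : ∃ C : ℝ, 0 < C ∧ ∀ g ∈ S₀, ∀ v i, avQ q v (g.a i) ≤ C :=
    ⟨max C₀ 1, lt_max_of_lt_right one_pos, fun g hg v i =>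
      le_max_of_le_left (hC₀ ⟨(g, v, i), ⟨hg, trivial⟩, rfl⟩)⟩
  obtain ⟨c, c0, hc⟩ : ∃ c : ℝ, 0 < c ∧ (|A| + 1) * Real.exp (|κ| * β) * c = ε :=
    ⟨ε / ((|A| + 1) * Real.exp (|κ| * β)), by positivity, by field_simp⟩
  obtain ⟨k, hk⟩ := ZQ_shrink q (c / C) (by positivity)
  refine ⟨⌈(q : ℝ) ^ k * C / c⌉₊, fun p _ hp hpq σ hσ => ?_⟩
  have p0 : 0 < p := (Fact.out : p.Prime).pos
  have p1 : (0 : ℝ) < p := Nat.cast_pos.2 p0
  have p2 : (p : ℚ) ≠ 0 := Nat.cast_ne_zero.2 p0.ne'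
  have q1 : (q : ℚ) ^ k ≠ 0 := by positivity
  have q2 : (q : ZMod p) ^ k ≠ 0 := pow_ne_zero _ fun e => hpq ((ZMod.natCast_eq_zero_iff _ _).1 e)
  obtain ⟨ρ, hρ⟩ := exists_red hpq
  let W : (ι → ZMod p) → ι → ZQ q := fun z i =>
    ⟨(((q : ZMod p) ^ k * z i).val : ℚ) / (q : ℚ) ^ k, k, (((q : ZMod p) ^ k * z i).val : ℕ), by
      rw [mul_div_cancel₀ _ q1, Int.cast_natCast]⟩
  have hW : ∀ z i, ρ (W z i) = z i := fun z i => by
    have e : (q : ZQ q) ^ k * W z i = (((q : ZMod p) ^ k * z i).val : ℕ) :=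
      Subtype.ext (by
        rw [Subring.coe_mul, Subring.coe_pow, Subring.coe_natCast, Subring.coe_natCast]
        exact mul_div_cancel₀ _ q1)
    have := congrArg ρ e
    rw [map_mul, map_pow, map_natCast, map_natCast, ZMod.natCast_zmod_val] at this
    exact mul_left_cancel₀ q2 this
  let t : ℚ := p / (q : ℚ) ^ k
  have t0 : t ≠ 0 := div_ne_zero p2 q1
  let w : (ι → ZMod p) → ι → ℚ := fun z i => W z i
  let y : (ι → ZMod p) → Y := fun z => pt (-(t⁻¹ • w z)) 0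
  refine ⟨Fin n, inferInstance, fun i => Deep_spi t w y (S i), fun x => s1 (y x),
    fun i x hx => ?_, fun x => s4 (y x) 1 ?_, fun g hg x i => ?_⟩
  · obtain ⟨z, hz⟩ := s3 i (y x) hx
    exact Deep_vc ψ t w y (S i) x hz (f4 z)
  · rw [one_smul]
    refine f3 _ _ _ 1 zero_le_one fun v i => ?_
    have e : (-(t⁻¹ • w x)) i - (0 : ι → ℚ) i = -((((q : ZMod p) ^ k * x i).val : ℚ) / p) := by
      simp only [t, w, W, Pi.neg_apply, Pi.smul_apply, smul_eq_mul, Pi.zero_apply]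
      field_simp
      ring
    rw [e, avQ_neg]
    cases v with
    | none =>
      show |(((_ : ℚ) / p : ℚ) : ℝ)| ≤ 1
      push_cast
      rw [abs_of_nonneg (by positivity), div_le_one p1]
      exact_mod_cast (ZMod.val_lt _).le
    | some l =>
      have := Fact.mk (Nat.prime_of_mem_primeFactors l.2)
      rw [Deep_av hpq]
      exact_mod_cast padicNorm.of_nat _
  · let u : ι → ℚ := -w (σ g x) + g.a + (L g.g).1.val *ᵥ w x
    have hu : ∀ j, (t⁻¹ • u) j ∈ ZQ q := fun j => by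
      let U : ZQ q := -W (σ g x) j + ⟨g.a j, g.mem j⟩ +
        ∑ l, (⟨(L g.g).1.val j l, (L g.g).2.1 j l⟩ : ZQ q) * W x l
      have e : (U : ℚ) = u j := by simp [U, u, w, mulVec, dotProduct]
      have h0 : ρ U = 0 := by
        simp only [U, map_add, map_neg, map_sum, map_mul, hW, hσ g x j]
        simp only [hρ]
        ring
      have h1 := (ZQ q).mul_mem ((ZQ q).pow_mem (natCast_mem _ q) k)
        (red_div hpq U.2 ((hρ U).symm.trans h0))
      convert h1 using 1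
      simp only [e, t, Pi.smul_apply, smul_eq_mul]
      field_simp
    let d : Aff L := ⟨t⁻¹ • u, hu, g.g⟩
    have hb : |dg ψ g.g| ≤ β := hβ ⟨g, hg, rfl⟩
    have h1 := s2 i (y (σ g x)) d (y x) ⟨dg ψ g.g, hb, by
      simp only [y, f1, f2]
      refine (f3 _ _ _ c c0.le fun v j => ?_).trans ?_
      · have e : (-(t⁻¹ • w (σ g x))) j - (d.a + (L d.g).1.val *ᵥ (-(t⁻¹ • w x))) j =
            -((q : ℚ) ^ k / p * g.a j) := by
          simp only [d, u, t, mulVec_neg, mulVec_smul, Pi.neg_apply, Pi.add_apply, Pi.smul_apply,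
            smul_eq_mul, inv_div]
          ring
        rw [e, avQ_neg, avQ_mul]
        refine (mul_le_mul (b := c / C) ?_ (hC g hg v j) (avQ_nonneg _ _ _)
          (by positivity)).trans_eq (by field_simp)
        cases v with
        | none =>
          show |(((_ : ℚ) / p : ℚ) : ℝ)| ≤ _
          push_cast
          have h2 := Nat.ceil_le.1 hp
          rw [div_le_iff₀ c0] at h2
          rw [abs_of_nonneg (by positivity), div_le_div_iff₀ p1 C0]
          linarith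
        | some l =>
          rw [Deep_av hpq]
          exact hk l l.2
      · rw [← hc, zero_add]
        have h2 : κ * |dg ψ g.g| ≤ |κ| * β :=
          mul_le_mul (le_abs_self κ) hb (abs_nonneg _) (abs_nonneg _)
        have h3 : A ≤ |A| + 1 := by linarith [le_abs_self A]
        gcongr⟩
    exact ⟨h1.1, h1.2.1, fun h => h1.2.2 fun h2 => h ⟨d, rfl, smul_inv_smul₀ t0 u, h2⟩⟩

end Pool.Agent.MP_f7db47_al.VC
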