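import Pool.Agent.MP_f7db47_al.VC.VB

/-!
Closure properties.
-/

namespace Pool.Agent.MP_f7db47_al.VC

open GN GF Function

variable {Γ Γ' : Type} [Group Γ] [Group Γ']

theorem FJc_fg {K : Subgroup Γ'} (h : K.FG) (f : Γ' →* Γ) : (K.map f).FG := by
  classical
  obtain ⟨S, rfl⟩ := h
  exact ⟨S.image f, by rw [MonoidHom.map_closure, Finset.coe_image]⟩

theorem FJc_drops {ι : Type} {K : ι → Subgroup Γ} {r : ι → ι → Prop} (f : Γ' →* Γ) {j : ι} {x : Γ'}
    (h : Drops K r j (f x)) : Drops (fun j => (K j).comap f) r j x := by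
  intro M hM hle
  obtain ⟨j', hr, hle'⟩ := h (M.map f) (FJc_fg hM f) (by
    rintro _ ⟨m, hm, rfl⟩
    obtain ⟨h1, y, hy, rfl⟩ := hle hm
    exact ⟨h1, f y, hy, by simp⟩)
  exact ⟨j', hr, Subgroup.map_le_iff_le_comap.1 hle'⟩

theorem FJc_qu {A : Type} [CommRing A] {n : ℕ} {u : GL (Fin n) A} {a : ℤ} (ha : a ≠ 0)
    (h : QU (u ^ a).val) : QU u.val := by
  have hn : ∀ k : ℕ, 0 < k → QU (u ^ k).val → QU u.val := fun k hk ⟨m, hm, h⟩ =>
    ⟨k * m, Nat.mul_pos hk hm, by rwa [Units.val_pow_eq_pow_val, ← pow_mul] at h⟩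
  refine hn a.natAbs (Int.natAbs_pos.2 ha) ?_
  rw [← zpow_natCast]
  rcases Int.natAbs_eq_iff.1 (rfl : a.natAbs = a.natAbs) with e | e
  · rwa [← e]
  · rw [← neg_neg (a.natAbs : ℤ), ← e, zpow_neg]
    obtain ⟨m, hm, h⟩ := h
    refine ⟨m, hm, ?_⟩
    rw [← Units.val_pow_eq_pow_val] at h ⊢
    rw [inv_pow]
    generalize (u ^ a) ^ m = w at h ⊢
    have e1 : (w⁻¹).val - 1 = -((w⁻¹).val * (w.val - 1)) := by
      rw [mul_sub, Units.inv_mul, mul_one, neg_sub]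
    rw [e1]
    exact (((Commute.refl w).inv_left.map (Units.coeHom _)).sub_right
      (Commute.one_right _)).isNilpotent_mul_left h |>.neg

theorem FJ.comap {B : Subgroup Γ} (hB : FJ B) {G₀ : Type} [Group G₀] (T : Thy G₀) {G : Type}
    [Group G] (i : G →* G₀) (f : G →* Γ)
    (h : ∀ C : Subgroup Γ, IsVC C → T.Q (C.comap f) (i.comp (C.comap f).subtype)) :
    T.Q (B.comap f) (i.comp (B.comap f).subtype) := by
  refine hB G₀ T _ _ (f.subgroupComap B) fun C hC => ?_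
  let e := (C.equivMapOfInjective B.subtype B.subtype_injective).symm
  exact T.sub' (((B.comap f).subtype.comp (C.comap (f.subgroupComap B)).subtype).codRestrict
    ((C.map B.subtype).comap f) fun x => ⟨f.subgroupComap B x.1, x.2, rfl⟩)
    (fun x y e => Subtype.ext (Subtype.ext (Subtype.ext_iff.1 e :))) (fun _ => rfl)
    (h _ (hC.sub e.toMonoidHom e.injective))

theorem FJ.sub (j : Γ' →* Γ) (hj : Injective j) (h : FJ Γ) : FJ Γ' := by
  intro G₀ _ T G _ i f H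
  exact h G₀ T G i (j.comp f) fun B hB => H (B.comap j) (hB.sub (j.subgroupComap B)
    fun x y e => Subtype.ext (hj (congrArg Subtype.val e)))

theorem FJ.le {K K' : Subgroup Γ} (h : K ≤ K') (h' : FJ K') : FJ K :=
  h'.sub (Subgroup.inclusion h) (Subgroup.inclusion_injective h)

theorem FJ.of_vc (h : IsVC Γ) : FJ Γ := by
  intro G₀ _ T G _ i f H
  exact T.top (K := (⊤ : Subgroup Γ).comap f) (fun _ => trivial)
    (H ⊤ (h.sub _ (Subgroup.subtype_injective _)))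

theorem FJ.ext (p : Γ →* Γ') (h : FJ Γ') (h' : ∀ B : Subgroup Γ', IsVC B → FJ (B.comap p)) :
    FJ Γ := by
  intro G₀ _ T G _ i f H
  exact h G₀ T G i (p.comp f) fun B hB => (h' B hB).comap T i f H

theorem FJ.loc (h : ∀ K : Subgroup Γ, K.FG → FJ K) : FJ Γ := by
  intro G₀ _ T G _ i f H
  exact T.loc fun K hK => T.le (Subgroup.le_comap_map f K) ((h _ (FJc_fg hK f)).comap T i f H)

theorem FJ.flow {Fam : Set (Subgroup Γ)} (hP : HasPack Γ Fam)
    (hc : ∀ (B : Subgroup Γ) (φ : B →* MZ), (∀ g, φ g = 1 → IsOfFinOrder g) → FJ B)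
    (hF : ∀ B ∈ Fam, FJ B) : FJ Γ := by
  intro G₀ _ T G _ i f H
  exact T.flow hP f (fun B φ hφ => (hc B φ hφ).comap T i f H) fun B hB => (hF B hB).comap T i f H

theorem FJ.tame (ψ : Γ →* MZ) (ι : Type) (K : ι → Subgroup Γ) (r : ι → ι → Prop)
    (hr : WellFounded r) (hK : ∀ j, K j ≤ ψ.ker)
    (hM : ∀ M : Subgroup Γ, M.FG → M ≤ ψ.ker → ∃ j, M ≤ K j) (h0 : FJ ψ.ker)
    (h : ∀ j x, x ∉ ψ.ker → FJ ↥(K j ⊔ Subgroup.zpowers x) ∨ Drops K r j x ∨ Drops K r j x⁻¹) :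
    FJ Γ := by
  intro G₀ _ T G _ i f H
  refine T.ext (ψ.comp f) ι (fun j => (K j).comap f) r hr (fun j x hx => hK j hx)
    (fun M hfg hle => ?_) (h0.comap T i f H) fun j x hx => ?_
  · obtain ⟨j, hj⟩ := hM (M.map f) (FJc_fg hfg f) (Subgroup.map_le_iff_le_comap.2 hle)
    exact ⟨j, Subgroup.map_le_iff_le_comap.1 hj⟩
  · rcases h j (f x) hx with h1 | h1 | h1
    · refine Or.inl (T.le (sup_le (Subgroup.comap_mono le_sup_left) ?_) (h1.comap T i f H))
      exact Subgroup.zpowers_le.2 (Subgroup.mem_sup_right (Subgroup.mem_zpowers _))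
    · exact Or.inr (Or.inl (FJc_drops f h1))
    · exact Or.inr (Or.inr (FJc_drops f (by rwa [map_inv])))

theorem FJ.fh (N : ℕ)
    (h : ∀ (r : ℕ) (S₀ : Finset Γ) (π : ℕ), π.Prime → FHD (fun K => FJ K) N r S₀ π) : FJ Γ := by
  intro G₀ _ T G _ i f H
  classical
  obtain ⟨r, hr⟩ := T.fh (T.sub' (1 : PUnit.{1} →* (⊥ : Subgroup Γ).comap f)
    (fun _ _ _ => rfl) (fun _ => (map_one _).symm) (H ⊥ IsVC.of_finite)) N
  exact hr G i fun S₀ π hπ => (h r (S₀.image f) π hπ).pull f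
    (fun _ hg => Finset.mem_image_of_mem f hg) fun _ hK => hK.comap T i f H

theorem FJ.gl {A : Type} [CommRing A] {n : ℕ} (f : Γ →* GL (Fin n) A)
    (h : ∀ (H : Subgroup Γ) (φ : H →* MZ), (∀ g : H, φ g = 1 → QU (f g).val) → FJ H) :
    FJ Γ := by
  intro G₀ _ T G _ i p H
  refine T.gl (f.comp p) fun K φ hφ => T.le (Subgroup.le_comap_map p K) (FJ.comap ?_ T i p H)
  by_cases hk : (p.subgroupMap K).ker ≤ φ.ker
  · have hs := p.subgroupMap_surjective K
    refine h _ ((p.subgroupMap K).liftOfSurjective hs ⟨φ, hk⟩) fun g hg => ?_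
    obtain ⟨x, rfl⟩ := hs g
    rw [MonoidHom.liftOfRightInverse_comp_apply] at hg
    exact hφ x hg
  · obtain ⟨y, hy, hy'⟩ := SetLike.not_le_iff_exists.1 hk
    have e : p y = 1 := congrArg Subtype.val hy
    refine h _ 1 ?_
    rintro ⟨_, x, hx, rfl⟩ -
    refine FJc_qu (a := (φ y).toAdd) hy' ?_
    have := hφ ((⟨x, hx⟩ : K) ^ (φ y).toAdd * y ^ (-(φ ⟨x, hx⟩).toAdd)) (by
      apply Multiplicative.toAdd.injective
      simp [mul_comm])
    simpa [e] using this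

end Pool.Agent.MP_f7db47_al.VC
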