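import Pool.Agent.MP_f7db47_al.VC.Lin2
import Pool.Agent.MP_f7db47_al.VC.Aff
import Pool.Agent.MP_f7db47_al.GF.BMain

/-!
The hyperbolic case.
-/

namespace Pool.Agent.MP_f7db47_al.VC

open GN GF Function

variable {Γ U : Type} [Group Γ] [AddCommGroup U] [Module ℚ U] (D : Lin Γ U)

theorem Hyp_comm {Q : Type} [Group Q] (q x : Q) {i j n : ℕ} (hij : i < j) (hj : j ≤ n)
    (h : q ^ i * x * (q ^ i)⁻¹ * x⁻¹ = q ^ j * x * (q ^ j)⁻¹ * x⁻¹) :
    q ^ n.factorial * x * (q ^ n.factorial)⁻¹ * x⁻¹ = 1 := by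
  obtain ⟨k, rfl⟩ := Nat.exists_eq_add_of_le hij.le
  have h1 : Commute (q ^ k) x := by
    rw [mul_left_inj, pow_add, mul_inv_rev, ← mul_assoc, mul_left_inj, mul_assoc, mul_assoc,
      mul_right_inj, ← mul_assoc, eq_mul_inv_iff_mul_eq] at h
    exact h.symm
  obtain ⟨c, hc⟩ := Nat.dvd_factorial (m := k) (n := n) (by omega) (by omega)
  rw [hc, pow_mul, (h1.pow_left c).eq, mul_inv_cancel_right, mul_inv_cancel]

/-- The matrices of a linear action. -/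
noncomputable def Hyp_mat {ι : Type} [Fintype ι] [DecidableEq ι] (B : Module.Basis ι ℚ U) :
    Γ →* GL ι ℚ :=
  MonoidHom.toHomUnits
    { toFun := fun γ => LinearMap.toMatrix B B (D.L γ : U →ₗ[ℚ] U)
      map_one' := by rw [map_one, LinearEquiv.coe_toLinearMap_one, LinearMap.toMatrix_id]
      map_mul' := fun g h => by
        rw [map_mul, LinearEquiv.coe_toLinearMap_mul, LinearMap.toMatrix_mul] }

theorem Hyp_mat_mulVec {ι : Type} [Fintype ι] [DecidableEq ι] (B : Module.Basis ι ℚ U) (γ : Γ)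
    (u : U) : (Hyp_mat D B γ).val.mulVec (B.repr u) = B.repr (D.L γ u) :=
  LinearMap.toMatrix_mulVec_repr B B (D.L γ : U →ₗ[ℚ] U) u

theorem Hyp_det {ι : Type} [Fintype ι] [DecidableEq ι] (B : Module.Basis ι ℚ U) {γ : Γ}
    (h : ∀ u, D.L γ u = u → u = 0) : ((Hyp_mat D B γ).val - 1).det ≠ 0 := by
  intro e
  obtain ⟨w, hw, e'⟩ := Matrix.exists_mulVec_eq_zero_iff.2 e
  obtain ⟨u, rfl⟩ := B.equivFun.surjective w
  rw [B.equivFun_apply, Matrix.sub_mulVec, Matrix.one_mulVec, Hyp_mat_mulVec, sub_eq_zero] at e'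
  exact hw (by rw [h u (B.repr.injective (DFunLike.coe_injective e')), map_zero])

theorem Lin.central : ∃ m : ℕ, 0 < m ∧ ∀ g γ : Γ, g ^ m * γ * (g ^ m)⁻¹ * γ⁻¹ ∈ D.A := by
  have := D.normal
  have : Finite (D.ψ.ker ⧸ D.A.subgroupOf D.ψ.ker) := Nat.finite_of_card_ne_zero D.idx
  have := Fintype.ofFinite (D.ψ.ker ⧸ D.A.subgroupOf D.ψ.ker)
  refine ⟨(Fintype.card (D.ψ.ker ⧸ D.A.subgroupOf D.ψ.ker)).factorial, Nat.factorial_pos _,
    fun g γ => ?_⟩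
  have hk : ∀ i : ℕ, g ^ i * γ * (g ^ i)⁻¹ * γ⁻¹ ∈ D.ψ.ker := fun i => by
    rw [MonoidHom.mem_ker, map_mul, map_mul, map_mul, map_inv, map_inv, mul_inv_cancel_comm,
      mul_inv_cancel]
  obtain ⟨i, j, hij, e⟩ := Fintype.exists_ne_map_eq_of_card_lt
    (fun i : Fin (Fintype.card (D.ψ.ker ⧸ D.A.subgroupOf D.ψ.ker) + 1) =>
      (QuotientGroup.mk ⟨_, hk i⟩ : D.ψ.ker ⧸ D.A.subgroupOf D.ψ.ker)) (by simp)
  have e1 : QuotientGroup.mk' D.A _ = QuotientGroup.mk' D.A _ :=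
    QuotientGroup.eq.2 (Subgroup.mem_subgroupOf.1 (QuotientGroup.eq.1 e))
  rw [← QuotientGroup.eq_one_iff, ← QuotientGroup.mk'_apply]
  simp only [map_mul, map_inv, map_pow] at e1 ⊢
  rcases lt_or_gt_of_ne hij with h | h
  · exact Hyp_comm _ _ h (Nat.le_of_lt_succ j.2) e1
  · exact Hyp_comm _ _ h (Nat.le_of_lt_succ i.2) e1.symm

theorem Lin.cocycle {t : Γ} (ht : ∀ γ, t * γ * t⁻¹ * γ⁻¹ ∈ D.A)
    (hb : Bijective fun u => D.L t u - u) :
    ∃ b : Γ → U, (∀ γ δ, b (γ * δ) = b γ + D.L γ (b δ)) ∧ ∀ a ∈ D.A, b a = D.e a := by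
  choose b hb' using fun γ => hb.2 (D.e (t * γ * t⁻¹ * γ⁻¹))
  have hc : ∀ γ u, D.L t (D.L γ u) = D.L γ (D.L t u) := fun γ u => by
    have h1 : t * γ = t * γ * t⁻¹ * γ⁻¹ * (γ * t) := by group
    rw [← LinearEquiv.mul_apply, ← map_mul, h1, map_mul, D.triv _ (ht γ), one_mul, map_mul,
      LinearEquiv.mul_apply]
  refine ⟨b, fun γ δ => hb.1 ?_, fun a ha => hb.1 ?_⟩
  · have h1 : t * (γ * δ) * t⁻¹ * (γ * δ)⁻¹ =
        t * γ * t⁻¹ * γ⁻¹ * (γ * (t * δ * t⁻¹ * δ⁻¹) * γ⁻¹) := by group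
    rw [hb', h1, D.add _ (ht γ) _ (D.normal.conj_mem _ (ht δ) γ), D.conj _ _ (ht δ), ← hb', ← hb']
    simp only [map_add, map_sub, hc]
    abel
  · rw [hb', D.add _ (D.normal.conj_mem _ ha t) _ (D.A.inv_mem ha), D.conj _ _ ha, D.e_inv ha]
    exact (sub_eq_add_neg _ _).symm

theorem Lin.fj_hyp [FiniteDimensional ℚ U]
    (h : ∀ g, D.ψ g ≠ 1 → ∀ u, D.L g u = u → u = 0) : FJ Γ := by
  classical
  by_cases h0 : ∀ g, D.ψ g = 1
  · exact FJ.sub ((MonoidHom.id Γ).codRestrict D.ψ.ker h0)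
      (fun _ _ e => congrArg Subtype.val e) D.fj_ker
  obtain ⟨g, hg⟩ := not_forall.1 h0
  obtain ⟨m, hm, hc⟩ := D.central
  have h1 : D.ψ (g ^ m) ≠ 1 := fun e => hg (by
    have e1 := congrArg Multiplicative.toAdd e
    rw [map_pow, toAdd_pow, toAdd_one, smul_eq_zero_iff_right hm.ne'] at e1
    exact toAdd_eq_zero.1 e1)
  have h2 : Injective ((D.L (g ^ m) : U →ₗ[ℚ] U) - LinearMap.id : U →ₗ[ℚ] U) :=
    (injective_iff_map_eq_zero _).2 fun u hu => h _ h1 u (sub_eq_zero.1 hu)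
  obtain ⟨b, b1, b2⟩ := D.cocycle (hc g) ⟨h2, LinearMap.injective_iff_surjective.1 h2⟩
  have b0 : b 1 = 0 := by rw [b2 1 D.A.one_mem, D.e_one]
  have := D.normal
  let B := Module.finBasis ℚ U
  let L := QuotientGroup.lift D.A (Hyp_mat D B) fun a ha => Units.ext (by
    change LinearMap.toMatrix B B (D.L a : U →ₗ[ℚ] U) = 1
    rw [D.triv a ha, LinearEquiv.coe_toLinearMap_one, LinearMap.toMatrix_id])
  let ψ := QuotientGroup.lift D.A D.ψ D.le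
  have hψ : (ψ.ker : Set (Γ ⧸ D.A)).Finite := by
    have : Finite (D.ψ.ker ⧸ D.A.subgroupOf D.ψ.ker) := Nat.finite_of_card_ne_zero D.idx
    refine (Set.finite_range fun x : D.ψ.ker ⧸ D.A.subgroupOf D.ψ.ker =>
      (QuotientGroup.mk x.out.1 : Γ ⧸ D.A)).subset fun y hy => ?_
    obtain ⟨γ, rfl⟩ := QuotientGroup.mk_surjective y
    refine ⟨QuotientGroup.mk ⟨γ, hy⟩, QuotientGroup.eq.2 ?_⟩
    exact Subgroup.mem_subgroupOf.1 (QuotientGroup.eq.1 (QuotientGroup.out_eq'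
      (QuotientGroup.mk ⟨γ, hy⟩ : D.ψ.ker ⧸ D.A.subgroupOf D.ψ.ker)))
  refine FJ.loc fun K hK => ?_
  obtain ⟨F, hF⟩ := BMain_land ((Group.fg_iff_subgroup_fg K).2 hK) ((Hyp_mat D B).comp K.subtype)
  obtain ⟨S, hS⟩ := hK
  obtain ⟨q, hq, hZ⟩ := exists_ZQ (F ∪ (S ×ˢ Finset.univ).image fun p => B.repr (b p.1) p.2)
  have hL : ∀ γ ∈ K, Hyp_mat D B γ ∈ GLZ (ZQ q) _ := fun γ hγ =>
    hF _ (fun a ha => hZ a (Finset.mem_union_left _ ha)) ⟨γ, hγ⟩
  have hv : ∀ γ ∈ K, ∀ u, (∀ i, B.repr u i ∈ ZQ q) → ∀ i, B.repr (D.L γ u) i ∈ ZQ q :=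
    fun γ hγ u hu i => by
      rw [← Hyp_mat_mulVec]
      exact (ZQ q).sum_mem (t := Finset.univ) fun j _ => mul_mem ((hL γ hγ).1 i j) (hu j)
  have hb : ∀ γ ∈ K, ∀ i, B.repr (b γ) i ∈ ZQ q := by
    intro γ hγ
    rw [← hS] at hγ hv
    induction hγ using Subgroup.closure_induction with
    | mem x hx =>
      exact fun i => hZ _ (Finset.mem_union_right _ (Finset.mem_image.2
        ⟨(x, i), Finset.mem_product.2 ⟨hx, Finset.mem_univ _⟩, rfl⟩))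
    | one =>
      intro i
      rw [b0, map_zero]
      exact zero_mem _
    | mul x y hx _ ihx ihy =>
      intro i
      rw [b1, map_add]
      exact add_mem (ihx i) (hv x hx _ ihy i)
    | inv x hx ih =>
      intro i
      have e := b1 x⁻¹ x
      rw [inv_mul_cancel, b0, eq_comm, add_eq_zero_iff_eq_neg] at e
      rw [e, map_neg]
      exact neg_mem (hv _ (inv_mem hx) _ ih i)
  let V := K.map (QuotientGroup.mk' D.A)
  let L' : V →* GLZ (ZQ q) _ := (L.comp V.subtype).codRestrict _ (by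
    rintro ⟨_, γ, hγ, rfl⟩
    exact hL γ hγ)
  let j : K →* Aff L' := MonoidHom.mk'
    (fun γ => ⟨B.repr (b γ), hb γ γ.2, ⟨QuotientGroup.mk γ.1, γ.1, γ.2, rfl⟩⟩) fun γ δ =>
      Aff.ext (by
        change ⇑(B.repr (b (γ * δ))) = B.repr (b γ) + (Hyp_mat D B γ).val.mulVec (B.repr (b δ))
        rw [Hyp_mat_mulVec, b1, map_add]
        rfl) rfl
  refine FJ.sub j ((injective_iff_map_eq_one j).2 fun γ e => ?_)
    (fj_aff hq L' (ψ.comp V.subtype) ?_ ?_)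
  · have e1 : γ.1 ∈ D.A := (QuotientGroup.eq_one_iff _).1 (congrArg (fun x => x.g.1) e)
    have e2 : B.repr (b γ) = 0 := DFunLike.coe_injective (congrArg Aff.a e)
    rw [map_eq_zero_iff _ B.repr.injective, b2 _ e1] at e2
    exact Subtype.ext (D.inj _ e1 e2)
  · have := hψ.to_subtype
    exact Finite.of_injective (fun x : (ψ.comp V.subtype).ker => (⟨x.1.1, x.2⟩ : ψ.ker))
      fun x y e => Subtype.ext (Subtype.ext (Subtype.mk.inj e))
  · rintro ⟨_, γ, hγ, rfl⟩ e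
    exact Hyp_det D B (h γ e)

end Pool.Agent.MP_f7db47_al.VC
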