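import Pool.Agent.MP_f7db47_al.VC.FJc

/-!
Locally finite by cyclic groups.
-/

namespace Pool.Agent.MP_f7db47_al.VC

open GN GF Function

theorem Lf_drop {Γ : Type} [Group Γ] (ψ : Γ →* MZ)
    (j : {K : Subgroup Γ // K ≤ ψ.ker ∧ Finite K}) (x : Γ)
    (hx : ¬ j.1 ≤ j.1.map (MulAut.conj x).toMonoidHom) :
    Drops (fun j : {K : Subgroup Γ // K ≤ ψ.ker ∧ Finite K} => j.1)
      (InvImage (· < ·) fun j => Nat.card j.1) j x := by
  intro M _ hM
  have hf : Finite j.1 := j.2.2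
  have hle : j.1 ⊓ j.1.map (MulAut.conj x).toMonoidHom ≤ j.1 := inf_le_left
  refine ⟨⟨j.1 ⊓ j.1.map (MulAut.conj x).toMonoidHom, hle.trans j.2.1,
    Finite.of_injective _ (Subgroup.inclusion_injective hle)⟩, ?_, hM⟩
  by_contra hc
  have := Subgroup.eq_of_le_of_card_ge hle (not_lt.1 hc)
  exact hx (this.ge.trans inf_le_right)

theorem Lf_vc {Γ : Type} [Group Γ] (ψ : Γ →* MZ) (K : Subgroup Γ) (hK : K ≤ ψ.ker) [Finite K]
    (x : Γ) (hx : x ∉ ψ.ker) (h1 : K ≤ K.map (MulAut.conj x).toMonoidHom)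
    (h2 : K ≤ K.map (MulAut.conj x⁻¹).toMonoidHom) : IsVC ↥(K ⊔ Subgroup.zpowers x) := by
  have hn : Subgroup.zpowers x ≤ Subgroup.normalizer (K : Set Γ) := by
    rw [Subgroup.zpowers_le, Subgroup.mem_normalizer_iff]
    intro k
    constructor
    · intro hk
      obtain ⟨y, hy, e⟩ := h2 hk
      have e' : x⁻¹ * y * x⁻¹⁻¹ = k := e
      rw [← e']
      simpa [mul_assoc] using hy
    · intro hk
      obtain ⟨y, hy, e⟩ := h1 hk
      have e' : x * y * x⁻¹ = x * k * x⁻¹ := e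
      have : y = k := mul_left_cancel (mul_right_cancel e')
      exact this ▸ hy
  have key : ∀ g ∈ K ⊔ Subgroup.zpowers x, ψ g = 1 → g ∈ K := by
    intro g hg h0
    have hg' : g ∈ ((K ⊔ Subgroup.zpowers x : Subgroup Γ) : Set Γ) := hg
    rw [Subgroup.coe_mul_of_right_le_normalizer_left K _ hn] at hg'
    obtain ⟨k, hk, z, ⟨n, rfl⟩, rfl⟩ := hg'
    have hk0 : ψ k = 1 := hK hk
    have hz : ψ x ^ n = 1 := by
      have : ψ (k * x ^ n) = 1 := h0
      rwa [map_mul, hk0, one_mul, map_zpow] at this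
    have hn0 : n = 0 := by
      have h3 : n * (ψ x).toAdd = 0 := by
        have := congrArg Multiplicative.toAdd hz
        simpa using this
      rcases mul_eq_zero.1 h3 with h4 | h4
      · exact h4
      · exact absurd (show ψ x = 1 from Multiplicative.toAdd.injective h4) hx
    subst hn0
    simpa using hk
  refine ⟨ψ.comp (K ⊔ Subgroup.zpowers x).subtype, ?_⟩
  refine Finite.of_injective
    (fun g : (ψ.comp (K ⊔ Subgroup.zpowers x).subtype).ker => (⟨g.1.1, key _ g.1.2 g.2⟩ : K)) ?_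
  intro a b e
  exact Subtype.ext (Subtype.ext (congrArg (fun k : K => (k : Γ)) e))

theorem fj_lf {Γ : Type} [Group Γ] (ψ : Γ →* MZ)
    (h : ∀ M : Subgroup Γ, M.FG → M ≤ ψ.ker → Finite M) : FJ Γ := by
  refine FJ.tame ψ {K : Subgroup Γ // K ≤ ψ.ker ∧ Finite K} (fun j => j.1)
    (InvImage (· < ·) fun j => Nat.card j.1) (InvImage.wf _ wellFounded_lt) (fun j => j.2.1)
    (fun M hM hle => ⟨⟨M, hle, h M hM hle⟩, le_rfl⟩) ?_ ?_
  · refine FJ.loc fun K hK => ?_
    have hfg : (K.map ψ.ker.subtype).FG := by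
      obtain ⟨S, hS⟩ := hK
      classical
      refine ⟨S.image ψ.ker.subtype, ?_⟩
      rw [Finset.coe_image, ← MonoidHom.map_closure, hS]
    have hf : Finite (K.map ψ.ker.subtype) := h _ hfg (Subgroup.map_subtype_le K)
    have hf' : Finite K :=
      Finite.of_equiv _ (K.equivMapOfInjective _ ψ.ker.subtype_injective).symm.toEquiv
    exact FJ.of_vc IsVC.of_finite
  · intro j x hx
    by_cases h1 : j.1 ≤ j.1.map (MulAut.conj x).toMonoidHom
    · by_cases h2 : j.1 ≤ j.1.map (MulAut.conj x⁻¹).toMonoidHom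
      · have hf : Finite j.1 := j.2.2
        exact Or.inl (FJ.of_vc (Lf_vc ψ j.1 j.2.1 x hx h1 h2))
      · exact Or.inr (Or.inr (Lf_drop ψ j x⁻¹ h2))
    · exact Or.inr (Or.inl (Lf_drop ψ j x h1))

theorem fin_of_tors {Γ : Type} [Group Γ] (A M : Subgroup Γ) (hM : M.FG) (hi : A.relIndex M ≠ 0)
    (hc : ∀ a ∈ A, ∀ b ∈ A, a * b = b * a) (ht : ∀ a ∈ A, IsOfFinOrder a) : Finite M := by
  have h1 : Group.FG M := (Group.fg_iff_subgroup_fg M).2 hM
  have h2 : (A.subgroupOf M).FiniteIndex := ⟨hi⟩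
  have h3 : Group.FG (A.subgroupOf M) := Subgroup.fg_of_index_ne_zero _
  let _ : CommGroup (A.subgroupOf M) :=
    { (inferInstance : Group (A.subgroupOf M)) with
      mul_comm := fun a b => Subtype.ext (Subtype.ext (hc _ a.2 _ b.2)) }
  have h4 : Finite (A.subgroupOf M) := by
    refine CommGroup.finite_of_fg_isMulTorsion _ fun a => ?_
    have h5 := ht _ a.2
    rw [isOfFinOrder_iff_pow_eq_one] at h5 ⊢
    obtain ⟨n, hn, e⟩ := h5
    exact ⟨n, hn, Subtype.ext (Subtype.ext e)⟩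
  exact Finite.of_subgroup_quotient (A.subgroupOf M)

end Pool.Agent.MP_f7db47_al.VC
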