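import Pool.Agent.MP_f7db47_al.VC.VB

/-!
Constructions of linear data.
-/

namespace Pool.Agent.MP_f7db47_al.VC

open GN GF Function

variable {Γ : Type} [Group Γ]

/-- A representation by endomorphisms is a representation by automorphisms. -/
noncomputable def Lin1_eqv {G V : Type} [Group G] [AddCommGroup V] [Module ℚ V]
    (ρ : G →* Module.End ℚ V) : G →* (V ≃ₗ[ℚ] V) :=
  (LinearMap.GeneralLinearGroup.generalLinearEquiv ℚ V).toMonoidHom.comp ρ.toHomUnits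

theorem Lin1_eqv_apply {G V : Type} [Group G] [AddCommGroup V] [Module ℚ V]
    (ρ : G →* Module.End ℚ V) (g : G) (v : V) : Lin1_eqv ρ g v = ρ g v := rfl

theorem Lin1_eqv_one {G V : Type} [Group G] [AddCommGroup V] [Module ℚ V]
    (ρ : G →* Module.End ℚ V) (g : G) (h : ρ g = 1) : Lin1_eqv ρ g = 1 :=
  LinearEquiv.ext fun v => by rw [Lin1_eqv_apply, h]; rfl

theorem Lin1_base {G M : Type} [Group G] [AddCommGroup M] (c : G →* Module.End ℤ M)
    (ht : ∀ (n : ℤ) (m : M), n ≠ 0 → n • m = 0 → m = 0) :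
    ∃ (U : Type) (_ : AddCommGroup U) (_ : Module ℚ U) (L : G →* (U ≃ₗ[ℚ] U)) (ε : M →+ U),
      (∀ m, ε m = 0 → m = 0) ∧ (∀ g m, ε (c g m) = L g (ε m)) ∧ ∀ g, c g = 1 → L g = 1 := by
  let ρ : G →* Module.End ℚ (TensorProduct ℤ ℚ M) :=
    { toFun := fun g => LinearMap.baseChange ℚ (c g)
      map_one' := by rw [map_one, LinearMap.baseChange_one]
      map_mul' := fun g h => by rw [map_mul, LinearMap.baseChange_mul] }
  refine ⟨TensorProduct ℤ ℚ M, inferInstance, inferInstance, Lin1_eqv ρ,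
    (TensorProduct.mk ℤ ℚ M 1).toAddMonoidHom, fun m hm => ?_, fun g m => ?_, fun g hg => ?_⟩
  · obtain ⟨n, hn⟩ := (IsLocalizedModule.eq_zero_iff (nonZeroDivisors ℤ)
      (TensorProduct.mk ℤ ℚ M 1)).1 hm
    exact ht n m (nonZeroDivisors.coe_ne_zero n) hn
  · rw [Lin1_eqv_apply]
    exact (LinearMap.baseChange_tmul (c g) 1 m).symm
  · refine Lin1_eqv_one ρ g ?_
    show LinearMap.baseChange ℚ (c g) = 1
    rw [hg, LinearMap.baseChange_one]

theorem exists_lin (ψ : Γ →* MZ) (A : Subgroup Γ) (hA : A.Normal) (hle : A ≤ ψ.ker)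
    (hi : A.relIndex ψ.ker ≠ 0) (hc : ∀ a ∈ A, ∀ b ∈ A, a * b = b * a)
    (ht : ∀ a ∈ A, IsOfFinOrder a → a = 1) :
    ∃ (U : Type) (_ : AddCommGroup U) (_ : Module ℚ U), Nonempty (Lin Γ U) := by
  classical
  let _ : CommGroup A :=
    { (inferInstance : Group A) with mul_comm := fun a b => Subtype.ext (hc a a.2 b b.2) }
  let c : Γ →* Module.End ℤ (Additive A) :=
    { toFun := fun g =>
        (MonoidHom.toAdditive (MulAut.conjNormal (H := A) g).toMonoidHom).toIntLinearMap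
      map_one' := by
        ext a
        simp
      map_mul' := fun g h => by
        ext a
        simp [mul_assoc] }
  have hcv (g : Γ) (a : A) : c g (Additive.ofMul a) = Additive.ofMul (MulAut.conjNormal g a) := rfl
  obtain ⟨U, i1, i2, L, ε, h1, h2, h3⟩ := Lin1_base c fun n m hn hm => by
    have h : (Additive.toMul m) ^ n = 1 := congrArg Additive.toMul hm
    have h' : ((Additive.toMul m : A) : Γ) ^ n = 1 := by
      rw [← Subgroup.coe_zpow, h, Subgroup.coe_one]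
    have := ht _ (Additive.toMul m).2 (isOfFinOrder_iff_zpow_eq_one.2 ⟨n, hn, h'⟩)
    exact congrArg Additive.ofMul (Subtype.ext this : Additive.toMul m = 1)
  let e : Γ → U := fun g => if h : g ∈ A then ε (Additive.ofMul ⟨g, h⟩) else 0
  have he (a : Γ) (ha : a ∈ A) : e a = ε (Additive.ofMul ⟨a, ha⟩) := dif_pos ha
  refine ⟨U, i1, i2, ⟨⟨ψ, A, L, e, hA, hle, hi, fun a ha b hb => ?_, fun a ha h => ?_,
    fun γ a ha => ?_, fun a ha => h3 a ?_⟩⟩⟩
  · rw [he a ha, he b hb, he _ (A.mul_mem ha hb), ← map_add]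
    rfl
  · rw [he a ha] at h
    exact congrArg (fun m : Additive A => ((Additive.toMul m : A) : Γ)) (h1 _ h)
  · rw [he a ha, he _ (hA.conj_mem a ha γ), ← h2, hcv]
    rfl
  · refine LinearMap.ext fun m => ?_
    show Additive.ofMul (MulAut.conjNormal a (Additive.toMul m)) = m
    refine congrArg Additive.ofMul (Subtype.ext ?_ : _ = Additive.toMul m)
    rw [MulAut.conjNormal_apply, hc a ha _ (Additive.toMul m).2, mul_inv_cancel_right]

variable {U : Type} [AddCommGroup U] [Module ℚ U] (D : Lin Γ U)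

theorem Lin.e_one : D.e 1 = 0 := by
  have h := D.add 1 D.A.one_mem 1 D.A.one_mem
  rw [mul_one] at h
  exact left_eq_add.1 h

theorem Lin.e_inv {a : Γ} (ha : a ∈ D.A) : D.e a⁻¹ = -D.e a := by
  have h := D.add a⁻¹ (D.A.inv_mem ha) a ha
  rw [inv_mul_cancel, D.e_one] at h
  exact eq_neg_of_add_eq_zero_left h.symm

theorem Lin.e_inj {a b : Γ} (ha : a ∈ D.A) (hb : b ∈ D.A) (h : D.e a = D.e b) : a = b := by
  refine mul_inv_eq_one.1 (D.inj _ (D.A.mul_mem ha (D.A.inv_mem hb)) ?_)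
  rw [D.add a ha _ (D.A.inv_mem hb), D.e_inv hb, h, add_neg_cancel]

theorem Lin.comm {a b : Γ} (ha : a ∈ D.A) (hb : b ∈ D.A) : a * b = b * a := by
  refine D.e_inj (D.A.mul_mem ha hb) (D.A.mul_mem hb ha) ?_
  rw [D.add a ha b hb, D.add b hb a ha, add_comm]

/-- The elements of `A` that lie in a subspace. -/
def Lin.AW (W : Submodule ℚ U) : Subgroup Γ where
  carrier := {a | a ∈ D.A ∧ D.e a ∈ W}
  one_mem' := ⟨D.A.one_mem, D.e_one ▸ W.zero_mem⟩
  mul_mem' ha hb := ⟨D.A.mul_mem ha.1 hb.1, D.add _ ha.1 _ hb.1 ▸ W.add_mem ha.2 hb.2⟩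
  inv_mem' ha := ⟨D.A.inv_mem ha.1, D.e_inv ha.1 ▸ W.neg_mem ha.2⟩

theorem Lin.mem_AW {W : Submodule ℚ U} {a : Γ} : a ∈ D.AW W ↔ a ∈ D.A ∧ D.e a ∈ W := Iff.rfl

theorem Lin.restrict {H : Type} [Group H] (j : H →* Γ) (hj : Injective j) (W : Submodule ℚ U)
    (hW : ∀ h, ∀ u ∈ W, D.L (j h) u ∈ W) (ψ : H →* MZ) (h1 : (D.AW W).comap j ≤ ψ.ker)
    (h2 : ((D.AW W).comap j).relIndex ψ.ker ≠ 0) : Nonempty (Lin H W) := by
  classical
  let ρ : H →* Module.End ℚ W :=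
    { toFun := fun h => (D.L (j h)).toLinearMap.restrict (hW h)
      map_one' := by
        ext u
        simp
      map_mul' := fun g h => by
        ext u
        simp }
  have hρ (h : H) (u : W) : ((Lin1_eqv ρ h u : W) : U) = D.L (j h) u := rfl
  let e : H → W := fun h => if hh : D.e (j h) ∈ W then ⟨_, hh⟩ else 0
  have he (a : H) (ha : a ∈ (D.AW W).comap j) : (e a : U) = D.e (j a) :=
    congrArg Subtype.val (dif_pos ha.2 : e a = ⟨_, ha.2⟩)
  have hN : ((D.AW W).comap j).Normal := ⟨fun a ha γ => by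
    refine ⟨?_, ?_⟩
    · rw [map_mul, map_mul, map_inv]
      exact D.normal.conj_mem _ ha.1 _
    · rw [map_mul, map_mul, map_inv, D.conj _ _ ha.1]
      exact hW γ _ ha.2⟩
  refine ⟨⟨ψ, (D.AW W).comap j, Lin1_eqv ρ, e, hN, h1, h2, fun a ha b hb => Subtype.ext ?_,
    fun a ha h => hj ?_, fun γ a ha => Subtype.ext ?_, fun a ha => ?_⟩⟩
  · rw [Submodule.coe_add, he a ha, he b hb, he _ (Subgroup.mul_mem _ ha hb), map_mul,
      D.add _ ha.1 _ hb.1]
  · rw [map_one]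
    refine D.inj _ ha.1 ?_
    rw [← he a ha, h, Submodule.coe_zero]
  · rw [hρ, he a ha, he _ (hN.conj_mem a ha γ), map_mul, map_mul, map_inv, D.conj _ _ ha.1]
  · refine LinearEquiv.ext fun u => Subtype.ext ?_
    rw [hρ, D.triv _ ha.1]
    rfl

theorem Lin.quot (W : Submodule ℚ U) (hW : ∀ γ, ∀ u ∈ W, D.L γ u ∈ W) :
    ∃ (Γ' : Type) (_ : Group Γ') (p : Γ →* Γ'), p.ker = D.AW W ∧ Nonempty (Lin Γ' (U ⧸ W)) := by
  classical
  have hN : (D.AW W).Normal := ⟨fun a ha γ =>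
    ⟨D.normal.conj_mem _ ha.1 _, by rw [D.conj _ _ ha.1]; exact hW γ _ ha.2⟩⟩
  have hle : D.AW W ≤ D.A := fun a ha => ha.1
  let p := QuotientGroup.mk' (D.AW W)
  have hp : p.ker = D.AW W := QuotientGroup.ker_mk' _
  have hps : Surjective p := QuotientGroup.mk'_surjective _
  let ρ₀ : Γ →* Module.End ℚ (U ⧸ W) :=
    { toFun := fun g => W.mapQ W (D.L g).toLinearMap (hW g)
      map_one' := by
        ext u
        simp
      map_mul' := fun g h => by
        ext u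
        simp }
  have hρ₀ (g : Γ) (u : U) : ρ₀ g (W.mkQ u) = W.mkQ (D.L g u) := rfl
  have hρ₁ (a : Γ) (ha : a ∈ D.A) : ρ₀ a = 1 := by
    ext u
    show ρ₀ a (W.mkQ u) = W.mkQ u
    rw [hρ₀, D.triv a ha]
    rfl
  let L : Γ ⧸ D.AW W →* ((U ⧸ W) ≃ₗ[ℚ] (U ⧸ W)) :=
    QuotientGroup.lift (D.AW W) (Lin1_eqv ρ₀) fun a ha => Lin1_eqv_one ρ₀ a (hρ₁ a ha.1)
  have hL (g : Γ) : L (p g) = Lin1_eqv ρ₀ g := rfl
  let ψ : Γ ⧸ D.AW W →* MZ := QuotientGroup.lift (D.AW W) D.ψ fun a ha => D.le ha.1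
  have hψ (g : Γ) : ψ (p g) = D.ψ g := rfl
  let e : Γ ⧸ D.AW W → U ⧸ W := fun x => W.mkQ (D.e x.out)
  have he (a : Γ) (ha : a ∈ D.A) : e (p a) = W.mkQ (D.e a) := by
    obtain ⟨h, hh⟩ := QuotientGroup.mk_out_eq_mul (D.AW W) a
    show W.mkQ (D.e (QuotientGroup.mk a : Γ ⧸ D.AW W).out) = _
    rw [hh, D.add a ha _ h.2.1, map_add, W.mkQ_apply (D.e h),
      (Submodule.Quotient.mk_eq_zero W).2 h.2.2, add_zero]
  have hk : ψ.ker = D.ψ.ker.map p := by
    ext x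
    obtain ⟨g, rfl⟩ := hps x
    refine ⟨fun h => ⟨g, h, rfl⟩, ?_⟩
    rintro ⟨g', h, h'⟩
    rw [← h']
    exact h
  refine ⟨Γ ⧸ D.AW W, inferInstance, p, hp, ⟨⟨ψ, D.A.map p, L, e, D.normal.map p hps, ?_, ?_, ?_,
    ?_, ?_, ?_⟩⟩⟩
  · rw [hk]
    exact Subgroup.map_mono D.le
  · rw [hk, Subgroup.relIndex_map_map, hp, sup_eq_left.2 hle, sup_eq_left.2 (hle.trans D.le)]
    exact D.idx
  · rintro _ ⟨a, ha, rfl⟩ _ ⟨b, hb, rfl⟩
    rw [← map_mul, he a ha, he b hb, he _ (D.A.mul_mem ha hb), D.add a ha b hb, map_add]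
  · rintro _ ⟨a, ha, rfl⟩ h
    rw [he a ha] at h
    have : a ∈ p.ker := by
      rw [hp]
      exact ⟨ha, (Submodule.Quotient.mk_eq_zero W).1 h⟩
    exact this
  · rintro x _ ⟨a, ha, rfl⟩
    obtain ⟨g, rfl⟩ := hps x
    rw [← map_inv, ← map_mul, ← map_mul, he a ha, he _ (D.normal.conj_mem a ha g), hL,
      Lin1_eqv_apply, hρ₀, D.conj g a ha]
  · rintro _ ⟨a, ha, rfl⟩
    rw [hL]
    exact Lin1_eqv_one ρ₀ a (hρ₁ a ha)

end Pool.Agent.MP_f7db47_al.VC
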