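import Pool.Agent.MP_f7db47_al.VC.Lin1
import Pool.Agent.MP_f7db47_al.VC.Vab

/-!
Reduction to finite rank.
-/

namespace Pool.Agent.MP_f7db47_al.VC

open GN GF Function

theorem Lin.fj_ker {Γ U : Type} [Group Γ] [AddCommGroup U] [Module ℚ U] (D : Lin Γ U) :
    FJ D.ψ.ker :=
  fj_vab (D.A.subgroupOf D.ψ.ker) ⟨D.idx⟩ fun _ ha _ hb => Subtype.ext (D.comm ha hb)

section

variable {Γ U : Type} [Group Γ] [AddCommGroup U] [Module ℚ U] (D : Lin Γ U)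

/-- The product of a subgroup with a subgroup that it normalises. -/
def Lin2_prod (M N : Subgroup Γ) (h : ∀ m ∈ M, ∀ a ∈ N, m * a * m⁻¹ ∈ N) : Subgroup Γ where
  carrier := {g | ∃ m ∈ M, m⁻¹ * g ∈ N}
  one_mem' := ⟨1, M.one_mem, by simp⟩
  mul_mem' := by
    rintro g g' ⟨m, hm, hg⟩ ⟨m', hm', hg'⟩
    refine ⟨m * m', M.mul_mem hm hm', ?_⟩
    have := N.mul_mem (h _ (M.inv_mem hm') _ hg) hg'
    convert this using 1
    group
  inv_mem' := by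
    rintro g ⟨m, hm, hg⟩
    refine ⟨m⁻¹, M.inv_mem hm, ?_⟩
    have := h _ hm _ (N.inv_mem hg)
    convert this using 1
    group

theorem Lin2_L (g h : Γ) (u : U) : D.L (g * h) u = D.L g (D.L h u) := by
  rw [map_mul]
  rfl

theorem Lin2_conj {W : Submodule ℚ U} {γ a : Γ} (hγ : ∀ u ∈ W, D.L γ u ∈ W) (ha : a ∈ D.AW W) :
    γ * a * γ⁻¹ ∈ D.AW W :=
  ⟨D.normal.conj_mem a ha.1 γ, by rw [D.conj γ a ha.1]; exact hγ _ ha.2⟩

/-- The family of pairs. -/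
def Lin2_ok (p : Submodule ℚ U × Subgroup Γ) : Prop :=
  FiniteDimensional ℚ p.1 ∧ p.2 ≤ D.ψ.ker ∧ D.A ⊓ p.2 = D.AW p.1 ∧
    ∀ k ∈ p.2, ∀ u ∈ p.1, D.L k u ∈ p.1

/-- The size of a pair. -/
noncomputable def Lin2_sz (p : {p // Lin2_ok D p}) : ℕ × ℕ :=
  (Module.finrank ℚ p.1.1, D.A.relIndex p.1.2)

theorem Lin2_idx {K : Subgroup Γ} (hK : K ≤ D.ψ.ker) : D.A.relIndex K ≠ 0 :=
  fun h => D.idx (Subgroup.relIndex_eq_zero_of_le_right hK h)

theorem Lin2_cover (M : Subgroup Γ) (hM : M.FG) (hle : M ≤ D.ψ.ker) :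
    ∃ p : {p // Lin2_ok D p}, M ≤ p.1.2 := by
  have : Group.FG M := (Group.fg_iff_subgroup_fg M).2 hM
  have : (D.A.subgroupOf M).FiniteIndex := ⟨Lin2_idx D hle⟩
  obtain ⟨S, hS⟩ := (Group.fg_iff_subgroup_fg (D.A.subgroupOf M)).1 inferInstance
  have hS' : Subgroup.closure (M.subtype '' (S : Set M)) = D.A ⊓ M := by
    rw [← MonoidHom.map_closure, hS, Subgroup.subgroupOf_map_subtype]
  set T := M.subtype '' (S : Set M) with hT
  have hTf : T.Finite := S.finite_toSet.image _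
  have hT1 : ∀ s ∈ T, s ∈ D.A ⊓ M := fun s hs => hS' ▸ Subgroup.subset_closure hs
  set W := Submodule.span ℚ (D.e '' T) with hW
  have h1 : D.A ⊓ M ≤ D.AW W := by
    rw [← hS', Subgroup.closure_le]
    exact fun s hs => ⟨(hT1 s hs).1, Submodule.subset_span ⟨s, hs, rfl⟩⟩
  have h2 : ∀ m ∈ M, ∀ u ∈ W, D.L m u ∈ W := by
    intro m hm
    change W ≤ W.comap (D.L m : U →ₗ[ℚ] U)
    conv_lhs => rw [hW]
    rw [Submodule.span_le]
    rintro _ ⟨s, hs, rfl⟩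
    have h3 := (h1 ⟨D.normal.conj_mem s (hT1 s hs).1 m,
      M.mul_mem (M.mul_mem hm (hT1 s hs).2) (M.inv_mem hm)⟩).2
    rw [D.conj m s (hT1 s hs).1] at h3
    exact h3
  refine ⟨⟨(W, Lin2_prod M (D.AW W) fun m hm a ha => Lin2_conj D (h2 m hm) ha),
    FiniteDimensional.span_of_finite ℚ (hTf.image _), ?_, ?_, ?_⟩,
    fun m hm => ⟨m, hm, by simp⟩⟩
  · rintro g ⟨m, hm, hg⟩
    have := D.ψ.ker.mul_mem (hle hm) (D.le hg.1)
    rwa [mul_inv_cancel_left] at this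
  · refine le_antisymm ?_ fun a ha => ⟨ha.1, 1, M.one_mem, by simpa using ha⟩
    rintro g ⟨hg1, m, hm, hg⟩
    have h3 : m ∈ D.A := by
      have := D.A.mul_mem hg1 (D.A.inv_mem hg.1)
      rwa [mul_inv_rev, inv_inv, mul_inv_cancel_left] at this
    have := (D.AW W).mul_mem (h1 ⟨h3, hm⟩) hg
    rwa [mul_inv_cancel_left] at this
  · rintro g ⟨m, hm, hg⟩ u hu
    have e : g = m * (m⁻¹ * g) := by rw [mul_inv_cancel_left]
    rw [e, Lin2_L, D.triv _ hg.1]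
    exact h2 m hm u hu

theorem Lin2_mem (K : Subgroup Γ) (x a : Γ) :
    a ∈ K.map (MulAut.conj x).toMonoidHom ↔ x⁻¹ * a * x⁻¹⁻¹ ∈ K := by
  constructor
  · rintro ⟨k, hk, rfl⟩
    have e : x⁻¹ * (x * k * x⁻¹) * x⁻¹⁻¹ = k := by group
    exact e.symm ▸ hk
  · refine fun h => ⟨_, h, ?_⟩
    change x * (x⁻¹ * a * x⁻¹⁻¹) * x⁻¹ = a
    group

theorem Lin2_step (p : {p // Lin2_ok D p}) (x : Γ) :
    Drops (fun p : {p // Lin2_ok D p} => p.1.2)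
      (InvImage (Prod.Lex (· < ·) (· < ·)) (Lin2_sz D)) p x ∨
    ((∀ u ∈ p.1.1, D.L x⁻¹ u ∈ p.1.1) ∧ ∀ k ∈ p.1.2, x⁻¹ * k * x⁻¹⁻¹ ∈ p.1.2) := by
  obtain ⟨⟨W, K⟩, h1, h2, h3, h4⟩ := p
  dsimp only at h1 h2 h3 h4 ⊢
  set W' := W ⊓ W.comap (D.L x⁻¹ : U →ₗ[ℚ] U) with hW'
  set K' := K ⊓ K.map (MulAut.conj x).toMonoidHom with hK'
  have h3' : D.A ⊓ K' = D.AW W' := by
    ext a
    constructor
    · rintro ⟨ha, hk, hk'⟩
      have hc := D.normal.conj_mem a ha x⁻¹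
      have h5 : a ∈ D.AW W := h3 ▸ ⟨ha, hk⟩
      have h6 : x⁻¹ * a * x⁻¹⁻¹ ∈ D.AW W := h3 ▸ ⟨hc, (Lin2_mem K x a).1 hk'⟩
      have h7 := h6.2
      rw [D.conj _ a ha] at h7
      exact ⟨ha, h5.2, h7⟩
    · rintro ⟨ha, hu, hu'⟩
      have hc := D.normal.conj_mem a ha x⁻¹
      have h5 : a ∈ D.A ⊓ K := h3 ▸ (⟨ha, hu⟩ : a ∈ D.AW W)
      have h6 : x⁻¹ * a * x⁻¹⁻¹ ∈ D.A ⊓ K := by
        rw [h3]
        exact ⟨hc, by rw [D.conj _ a ha]; exact hu'⟩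
      exact ⟨ha, h5.2, (Lin2_mem K x a).2 h6.2⟩
  have hok : Lin2_ok D (W', K') := by
    refine ⟨Submodule.finiteDimensional_of_le inf_le_left, inf_le_left.trans h2, h3', ?_⟩
    rintro k ⟨hk, hk'⟩ u ⟨hu, hu'⟩
    refine ⟨h4 k hk u hu, ?_⟩
    have h5 := h4 _ ((Lin2_mem K x k).1 hk') _ hu'
    change D.L _ (D.L x⁻¹ u) ∈ W at h5
    rw [← Lin2_L, inv_mul_cancel_right, Lin2_L] at h5
    exact h5
  by_cases hW : W' = W
  · by_cases hK : K ≤ K'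
    · exact Or.inr ⟨fun u hu => (hW.ge hu).2, fun k hk => (Lin2_mem K x k).1 (hK hk).2⟩
    · refine Or.inl fun M _ hM => ⟨⟨(W', K'), hok⟩, ?_, hM⟩
      change Prod.Lex _ _ (Module.finrank ℚ W', D.A.relIndex K') (Module.finrank ℚ W, D.A.relIndex K)
      rw [hW]
      refine Prod.Lex.right _ ?_
      have hle : K' ≤ K := inf_le_left
      have h5 := Subgroup.relIndex_inf_mul_relIndex D.A K' K
      rw [inf_of_le_left hle, h3', hW, ← h3, Subgroup.inf_relIndex_right] at h5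
      have h6 := Lin2_idx D h2
      have h7 : K'.relIndex K ≠ 1 := fun h => hK (Subgroup.relIndex_eq_one.1 h)
      rw [← h5] at h6 ⊢
      have h8 := Nat.pos_of_ne_zero (left_ne_zero_of_mul h6)
      have h9 := Nat.pos_of_ne_zero (right_ne_zero_of_mul h6)
      exact lt_mul_of_one_lt_right h8 (by omega)
  · exact Or.inl fun M _ hM => ⟨⟨(W', K'), hok⟩,
      Prod.Lex.left _ _ (Submodule.finrank_lt_finrank_of_lt (lt_of_le_of_ne inf_le_left hW)), hM⟩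

/-- The elements that preserve a pair. -/
def Lin2_st (W : Submodule ℚ U) (K : Subgroup Γ) : Subgroup Γ where
  carrier := {g | ((∀ u ∈ W, D.L g u ∈ W) ∧ ∀ k ∈ K, g * k * g⁻¹ ∈ K) ∧
    (∀ u ∈ W, D.L g⁻¹ u ∈ W) ∧ ∀ k ∈ K, g⁻¹ * k * g⁻¹⁻¹ ∈ K}
  one_mem' := by
    rw [Set.mem_ofPred_eq, inv_one]
    simp
  mul_mem' := by
    rintro g g' ⟨⟨a1, a2⟩, a3, a4⟩ ⟨⟨b1, b2⟩, b3, b4⟩
    refine ⟨⟨fun u hu => ?_, fun k hk => ?_⟩, fun u hu => ?_, fun k hk => ?_⟩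
    · rw [Lin2_L]
      exact a1 _ (b1 u hu)
    · convert a2 _ (b2 k hk) using 1
      group
    · rw [mul_inv_rev, Lin2_L]
      exact b3 _ (a3 u hu)
    · convert b4 _ (a4 k hk) using 1
      group
  inv_mem' := by
    rintro g ⟨a, b⟩
    exact ⟨b, by simpa using a⟩

end

theorem fj_lin_of_fin (h : ∀ (Γ U : Type) [Group Γ] [AddCommGroup U] [Module ℚ U]
      [FiniteDimensional ℚ U], Lin Γ U → FJ Γ)
    {Γ U : Type} [Group Γ] [AddCommGroup U] [Module ℚ U] (D : Lin Γ U) : FJ Γ := by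
  refine FJ.tame D.ψ {p // Lin2_ok D p} (fun p => p.1.2)
    (InvImage (Prod.Lex (· < ·) (· < ·)) (Lin2_sz D))
    (InvImage.wf _ (WellFounded.prod_lex wellFounded_lt wellFounded_lt)) (fun p => p.2.2.1)
    (Lin2_cover D) D.fj_ker fun p x hx => ?_
  rcases Lin2_step D p x with h1 | h1
  · exact Or.inr (Or.inl h1)
  rcases Lin2_step D p x⁻¹ with h2 | h2
  · exact Or.inr (Or.inr h2)
  refine Or.inl ?_
  obtain ⟨⟨W, K⟩, k1, k2, k3, k4⟩ := p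
  dsimp only at h1 h2 k1 k2 k3 k4 ⊢
  have hx1 : Subgroup.zpowers x ≤ Lin2_st D W K :=
    Subgroup.zpowers_le.2 ⟨by simpa using h2, h1⟩
  have hK1 : K ≤ Lin2_st D W K := fun k hk =>
    ⟨⟨k4 k hk, fun a ha => K.mul_mem (K.mul_mem hk ha) (K.inv_mem hk)⟩, k4 _ (K.inv_mem hk),
      fun a ha => K.mul_mem (K.mul_mem (K.inv_mem hk) ha) (K.inv_mem (K.inv_mem hk))⟩
  have hP : K ⊔ Subgroup.zpowers x ≤
      Lin2_prod (Subgroup.zpowers x) K fun m hm => (hx1 hm).1.2 :=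
    sup_le (fun k hk => ⟨1, Subgroup.one_mem _, by simpa using hk⟩) fun m hm => ⟨m, hm, by simp⟩
  set H := K ⊔ Subgroup.zpowers x with hH
  have hker : (D.ψ.comp H.subtype).ker.map H.subtype ≤ K := by
    rintro _ ⟨g, hg, rfl⟩
    obtain ⟨_, ⟨n, rfl⟩, hn⟩ := hP g.2
    have h3 : D.ψ g = 1 := hg
    have h4 : D.ψ ((x ^ n)⁻¹ * g) = 1 := k2 hn
    rw [map_mul, h3, mul_one, map_inv, inv_eq_one, map_zpow] at h4
    have h5 : n * (D.ψ x).toAdd = 0 := by simpa using congrArg Multiplicative.toAdd h4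
    rcases mul_eq_zero.1 h5 with h6 | h6
    · simpa [h6] using hn
    · exact (hx (toAdd_eq_zero.1 h6)).elim
  obtain ⟨E⟩ := D.restrict H.subtype H.subtype_injective W
    (fun g => (sup_le hK1 hx1 g.2).1.1) (D.ψ.comp H.subtype) (fun g hg => D.le hg.1) (by
      rw [Subgroup.relIndex_comap]
      refine fun h0 => Lin2_idx D k2 ?_
      have h3 := Subgroup.relIndex_eq_zero_of_le_right hker h0
      rwa [← k3, Subgroup.inf_relIndex_right] at h3)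
  exact h H W E

end Pool.Agent.MP_f7db47_al.VC
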