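import Pool.Agent.MP_f7db47_al.VC.Hyp

/-!
Induction on the rank.
-/

namespace Pool.Agent.MP_f7db47_al.VC

open GN GF Function

theorem Lin3_zp (x : MZ) (hx : x ≠ 1) : (Subgroup.zpowers x).index ≠ 0 := by
  have h1 : (Subgroup.zpowers x).index = (AddSubgroup.zmultiples x.toAdd).index := by
    rw [← AddSubgroup.index_toSubgroup]
    congr 1
  rw [h1, Int.index_zmultiples]
  simpa using hx

theorem Lin3_top {Γ U : Type} [Group Γ] [AddCommGroup U] [Module ℚ U] (D : Lin Γ U) {t : Γ}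
    (h1 : D.ψ t ≠ 1) (ht : ∀ γ, t * γ * t⁻¹ * γ⁻¹ ∈ D.A) (hL : ∀ u, D.L t u = u) : FJ Γ := by
  have := D.normal
  have hc : ∀ a ∈ D.A, Commute t a := fun a ha => by
    have := D.e_inj (D.normal.conj_mem a ha t) ha (by rw [D.conj t a ha, hL])
    exact mul_inv_eq_iff_eq_mul.1 this
  have hq : ∀ γ : Γ ⧸ D.A, Commute (QuotientGroup.mk' D.A t) γ := fun γ => by
    obtain ⟨γ, rfl⟩ := QuotientGroup.mk'_surjective D.A γ
    have : QuotientGroup.mk' D.A (t * γ * t⁻¹ * γ⁻¹) = 1 := (QuotientGroup.eq_one_iff _).2 (ht γ)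
    rw [map_mul, map_mul, map_mul, map_inv, map_inv] at this
    exact commutatorElement_eq_one_iff_commute.1 this
  have hn : (Subgroup.zpowers (QuotientGroup.mk' D.A t)).Normal := ⟨by
    rintro _ ⟨n, rfl⟩ g
    refine ⟨n, ?_⟩
    simp only
    rw [← ((hq g).zpow_left n).eq, mul_inv_cancel_right]⟩
  set H := (Subgroup.zpowers (QuotientGroup.mk' D.A t)).comap (QuotientGroup.mk' D.A) with hH
  have hm : ∀ x, x ∈ H ↔ ∃ n : ℤ, (t ^ n)⁻¹ * x ∈ D.A := fun x => by
    rw [hH, Subgroup.mem_comap, Subgroup.mem_zpowers_iff]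
    refine exists_congr fun n => ?_
    rw [← map_zpow]
    exact QuotientGroup.eq
  have hAH : D.A ≤ H := fun a ha => (hm a).2 ⟨0, by simpa using ha⟩
  refine fj_vab H ⟨?_⟩ ?_
  · have e1 : H.relIndex D.ψ.ker ≠ 0 :=
      ne_zero_of_dvd_ne_zero D.idx (Subgroup.relIndex_dvd_of_le_left _ hAH)
    have e2 : ((Subgroup.zpowers (D.ψ t)).comap D.ψ).index ≠ 0 := by
      rw [Subgroup.index_comap]
      have : (Subgroup.zpowers (D.ψ t)).FiniteIndex := ⟨Lin3_zp _ h1⟩
      exact Subgroup.FiniteIndex.index_ne_zero (H := Subgroup.subgroupOf _ _)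
    have e3 : (Subgroup.zpowers (D.ψ t)).comap D.ψ ≤ D.ψ.ker ⊔ H := by
      rintro x ⟨n, hn⟩
      have : x = (x * (t ^ n)⁻¹) * t ^ n := by group
      rw [this]
      refine Subgroup.mul_mem_sup ?_ ((hm _).2 ⟨n, by simp⟩)
      rw [MonoidHom.mem_ker, map_mul, map_inv, map_zpow, ← hn]
      simp
    rw [← Subgroup.relIndex_mul_index (le_sup_right : H ≤ D.ψ.ker ⊔ H),
      Subgroup.relIndex_sup_right]
    exact mul_ne_zero e1 (ne_zero_of_dvd_ne_zero e2 (Subgroup.index_dvd_of_le e3))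
  · intro x hx y hy
    obtain ⟨n, hn⟩ := (hm x).1 hx
    obtain ⟨k, hk⟩ := (hm y).1 hy
    have ex : x = t ^ n * ((t ^ n)⁻¹ * x) := by group
    have ey : y = t ^ k * ((t ^ k)⁻¹ * y) := by group
    have : Commute (t ^ n * ((t ^ n)⁻¹ * x)) (t ^ k * ((t ^ k)⁻¹ * y)) :=
      Commute.mul_left
        (Commute.mul_right ((Commute.refl t).zpow_zpow n k) ((hc _ hk).zpow_left n))
        (Commute.mul_right ((hc _ hn).zpow_left k).symm (D.comm hn hk))
    rw [← ex, ← ey] at this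
    exact this

theorem Lin3_res {Γ Γ' U : Type} [Group Γ] [Group Γ'] [AddCommGroup U] [Module ℚ U] (D : Lin Γ U)
    (W : Submodule ℚ U) (hW : ∀ γ, ∀ u ∈ W, D.L γ u ∈ W) (p : Γ →* Γ') (hp : p.ker = D.AW W)
    (B : Subgroup Γ') (hB : IsVC B) : Nonempty (Lin (B.comap p) W) := by
  obtain ⟨φ, hφ⟩ := hB
  have hk : (D.AW W).comap (B.comap p).subtype = (p.subgroupComap B).ker := by
    ext x
    rw [← hp, Subgroup.mem_comap, MonoidHom.mem_ker, MonoidHom.mem_ker, Subtype.ext_iff]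
    rfl
  refine D.restrict (B.comap p).subtype Subtype.val_injective W (fun h => hW _)
    (φ.comp (p.subgroupComap B)) ?_ ?_
  · rw [hk]
    intro x hx
    rw [MonoidHom.mem_ker] at hx ⊢
    rw [MonoidHom.comp_apply, hx, map_one]
  · rw [hk, ← MonoidHom.comap_ker, ← MonoidHom.comap_bot, Subgroup.relIndex_comap,
      Subgroup.relIndex_bot_left]
    have : Finite (Subgroup.map (p.subgroupComap B) (Subgroup.comap (p.subgroupComap B) φ.ker)) :=
      Finite.of_injective _ (Subgroup.inclusion_injective (Subgroup.map_comap_le _ _))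
    exact Nat.card_pos.ne'

theorem Lin3_ind (n : ℕ) : ∀ (Γ U : Type) [Group Γ] [AddCommGroup U] [Module ℚ U]
    [FiniteDimensional ℚ U], Lin Γ U → Module.finrank ℚ U = n → FJ Γ := by
  induction n using Nat.strong_induction_on with
  | _ n ih =>
  intro Γ U _ _ _ _ D hn
  by_cases h : ∀ g, D.ψ g ≠ 1 → ∀ u, D.L g u = u → u = 0
  · exact D.fj_hyp h
  push Not at h
  obtain ⟨g, hg, u, hu, hu0⟩ := h
  obtain ⟨m, hm, hc⟩ := D.central
  have h1 : D.ψ (g ^ m) ≠ 1 := by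
    rw [map_pow]
    intro h
    apply hg
    have := congrArg Multiplicative.toAdd h
    simp only [toAdd_pow, toAdd_one, nsmul_eq_mul, mul_eq_zero, Nat.cast_eq_zero] at this
    exact this.resolve_left hm.ne'
  have hcm : ∀ γ v, D.L (g ^ m) (D.L γ v) = D.L γ (D.L (g ^ m) v) := fun γ v => by
    have h2 := D.triv _ (hc g γ)
    rw [map_mul, map_mul, map_mul, map_inv, map_inv] at h2
    have h3 : Commute (D.L (g ^ m)) (D.L γ) := commutatorElement_eq_one_iff_commute.1 h2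
    exact congrArg (fun f : U ≃ₗ[ℚ] U => f v) h3.eq
  let W : Submodule ℚ U := LinearMap.eqLocus (D.L (g ^ m)).toLinearMap LinearMap.id
  have mW : ∀ v, v ∈ W ↔ D.L (g ^ m) v = v := fun v => Iff.rfl
  have hW : ∀ γ, ∀ v ∈ W, D.L γ v ∈ W := fun γ v hv => by
    rw [mW] at hv ⊢
    rw [hcm, hv]
  have huW : u ∈ W := by
    rw [mW]
    clear h1 hcm hW mW hc hm W
    induction m with
    | zero => simp
    | succ k ihk => rw [pow_succ, map_mul, LinearEquiv.mul_apply, hu, ihk]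
  by_cases hT : W = ⊤
  · exact Lin3_top D h1 (hc g) fun v => (mW v).1 (hT ▸ Submodule.mem_top)
  obtain ⟨Γ', _, p, hp, ⟨D'⟩⟩ := D.quot W hW
  have hpos : 0 < Module.finrank ℚ W :=
    Module.finrank_pos_iff_exists_ne_zero.2 ⟨⟨u, huW⟩, fun h => hu0 (congrArg Subtype.val h)⟩
  refine FJ.ext p (ih _ ?_ Γ' (U ⧸ W) D' rfl) fun B hB => ?_
  · have := Submodule.finrank_quotient_add_finrank W
    omega
  · obtain ⟨D''⟩ := Lin3_res D W hW p hp B hB
    exact ih _ (hn ▸ Submodule.finrank_lt hT) _ W D'' rfl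

theorem fj_lin_fin (Γ U : Type) [Group Γ] [AddCommGroup U] [Module ℚ U] [FiniteDimensional ℚ U]
    (D : Lin Γ U) : FJ Γ :=
  Lin3_ind _ Γ U D rfl

theorem fj_lin {Γ U : Type} [Group Γ] [AddCommGroup U] [Module ℚ U] (D : Lin Γ U) : FJ Γ :=
  fj_lin_of_fin fj_lin_fin D

end Pool.Agent.MP_f7db47_al.VC
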