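import Pool.Agent.MP_f7db47_al.VC.VB
import Pool.Agent.MP_f7db47_al.GK.KUni

/-!
Groups of quasi-unipotent matrices inside finitely generated groups.
-/

namespace Pool.Agent.MP_f7db47_al.VC

open GN GF Function

/-- The representation factors through a finitely generated group. -/
def Qu_X {A G : Type} [CommRing A] [Group G] {n : ℕ} (f : G →* GL (Fin n) A) : Prop :=
  ∃ (H : Type) (_ : Group H) (_ : Group.FG H) (F : H →* GL (Fin n) A) (j : G →* H), f = F.comp j

theorem Qu_map {A B G : Type} [CommRing A] [CommRing B] [Group G] {n : ℕ} (φ : A →+* B)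
    {f : G →* GL (Fin n) A} (h : Qu_X f) : Qu_X ((Matrix.GeneralLinearGroup.map φ).comp f) := by
  obtain ⟨H, _, hH, F, j, rfl⟩ := h
  exact ⟨H, _, hH, (Matrix.GeneralLinearGroup.map φ).comp F, j, rfl⟩

theorem Qu_ring {A G : Type} [CommRing A] [Group G] {n : ℕ} {f : G →* GL (Fin n) A}
    (h : Qu_X f) : ∃ (A₀ : Subring A) (f₀ : G →* GL (Fin n) A₀), Algebra.FiniteType ℤ A₀ ∧
      Qu_X f₀ ∧ ∀ g, Matrix.GeneralLinearGroup.map A₀.subtype (f₀ g) = f g := by
  obtain ⟨H, _, hH, F, j, rfl⟩ := h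
  obtain ⟨A₀, F₀, h1, h2⟩ := GN.exists_fg_subring hH A n F
  exact ⟨A₀, F₀.comp j, h1, ⟨H, _, hH, F₀, j, rfl⟩, fun g => h2 (j g)⟩

theorem Qu_traces {G K : Type} [Group G] [Field K] [CharZero K] {n : ℕ}
    (f : G →* GL (Fin n) K) (hX : Qu_X f)
    (h : ∀ g, ∃ m, 0 < m ∧ IsNilpotent ((f g).val ^ m - 1)) :
    (Set.range fun g => (f g).val.trace).Finite := by
  obtain ⟨A, f₀, hA, -, hf⟩ := Qu_ring hX
  obtain ⟨L, _, _, ⟨ev⟩⟩ := GS.Uni1_ev A hA
  have e : ∀ g, (f g).val = A.subtype.mapMatrix (f₀ g).val := fun g => hf g ▸ rfl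
  have h0 : ∀ g, ∃ m, 0 < m ∧ IsNilpotent ((f₀ g).val ^ m - 1) := fun g => by
    obtain ⟨m, hm, h1⟩ := h g
    refine ⟨m, hm, (IsNilpotent.map_iff (f := A.subtype.mapMatrix)
      (Matrix.map_injective A.subtype_injective)).1 ?_⟩
    rwa [map_sub, map_pow, map_one, ← e]
  have hi : ∀ g, IsIntegral ℤ (f₀ g).val.trace := fun g => by
    obtain ⟨m, hm, h1⟩ := h0 g
    exact GS.Uni1_int ((algebraMap K (AlgebraicClosure K)).comp A.subtype)
      ((algebraMap K _).injective.comp A.subtype_injective) hm h1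
  have hfin : (Set.range fun g => (f₀ g).val.trace).Finite := by
    refine Set.Finite.of_finite_image (f := ev)
      ((NumberField.Embeddings.finite_of_norm_le L ℂ n).subset ?_) ?_
    · rintro _ ⟨_, ⟨g, rfl⟩, rfl⟩
      obtain ⟨m, hm, h1⟩ := h0 g
      exact ⟨(hi g).map ev.toIntAlgHom, fun φ => GS.Uni1_norm (φ.comp ev) hm h1⟩
    · rintro _ ⟨g, rfl⟩ _ ⟨g', rfl⟩ h1
      by_contra h2
      obtain ⟨r, h3, c, h4⟩ := ((hi g).sub (hi g')).isAlgebraic.exists_nonzero_dvd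
        (mem_nonZeroDivisors_of_ne_zero (sub_ne_zero.2 h2))
      have h5 := congrArg ev h4
      rw [map_mul, map_sub, sub_eq_zero.2 h1, zero_mul, eq_intCast, map_intCast] at h5
      exact h3 (Int.cast_eq_zero.1 h5)
  refine (hfin.image A.subtype).subset ?_
  rintro _ ⟨g, rfl⟩
  exact ⟨_, ⟨g, rfl⟩, (AddMonoidHom.map_trace _ _).trans (congrArg _ (e g).symm)⟩

theorem Qu_unipP (p : ℕ) [Fact p.Prime] {G K : Type} [Group G] [Field K]
    [CharP K p] {n : ℕ} (f : G →* GL (Fin n) K) (hX : Qu_X f)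
    (h : ∀ g, ∃ m, 0 < m ∧ IsNilpotent ((f g).val ^ m - 1)) :
    ∃ U : Subgroup G, U.FiniteIndex ∧ ∀ g ∈ U, IsNilpotent ((f g).val - 1) := by
  obtain ⟨A, f₀, hA, -, hf⟩ := Qu_ring hX
  obtain ⟨Q, hQ⟩ := Ideal.exists_maximal A
  let := Ideal.Quotient.field Q
  have hc : CharP (A ⧸ Q) p := (CharP.charP_iff_prime_eq_zero Fact.out).2 (by
    rw [← map_natCast (Ideal.Quotient.mk Q), CharP.cast_eq_zero, map_zero])
  let := ZMod.algebra (A ⧸ Q) p
  have h1 : Algebra.FiniteType ℤ (A ⧸ Q) :=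
    hA.of_surjective (Ideal.Quotient.mk Q).toIntAlgHom Ideal.Quotient.mk_surjective
  have h2 : Algebra.FiniteType (ZMod p) (A ⧸ Q) :=
    Algebra.FiniteType.of_restrictScalars_finiteType ℤ _ _
  have h3 : Module.Finite (ZMod p) (A ⧸ Q) := finite_of_finite_type_of_isJacobsonRing _ _
  have h4 : Finite (A ⧸ Q) := Module.finite_of_finite (ZMod p)
  have h5 : Function.Injective (A.subtype.mapMatrix (m := Fin n)) :=
    Matrix.map_injective A.subtype_injective
  refine ⟨((Matrix.GeneralLinearGroup.map (Ideal.Quotient.mk Q)).comp f₀).ker, inferInstance,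
    fun g hg => ?_⟩
  obtain ⟨m, hm, h6⟩ := h g
  have h7 : (f g).val = A.subtype.mapMatrix (f₀ g).val := by rw [← hf]; rfl
  rw [h7, ← map_one (A.subtype.mapMatrix (m := Fin n))] at h6 ⊢
  rw [← map_pow, ← map_sub, IsNilpotent.map_iff h5] at h6
  rw [← map_sub, IsNilpotent.map_iff h5]
  exact GK.KUni_core p (Ideal.Quotient.mk Q) hm _ (congrArg Units.val hg) h6

theorem Qu_field {K : Type} [Field K] {G : Type} [Group G] {n : ℕ}
    (f : G →* GL (Fin n) K) (hX : Qu_X f) (h : ∀ g, GF.QU (f g).val) :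
    ∃ (U : Subgroup G) (c : ℕ), U.FiniteIndex ∧ ∀ l : List G, l.length = c → (∀ g ∈ l, g ∈ U) →
      (l.map fun g => (f g).val - 1).prod = 0 := by
  obtain ⟨p, hp⟩ := CharP.exists K
  rcases CharP.char_is_prime_or_zero K p with h0 | rfl
  · have := Fact.mk h0
    obtain ⟨U, hU, h1⟩ := Qu_unipP p f hX h
    obtain ⟨c, h2⟩ := GK.kolchin (((Units.coeHom _).comp f).comp U.subtype) fun g => h1 g.1 g.2
    refine ⟨U, c, hU, fun l hl hm => ?_⟩
    lift l to List U using hm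
    rw [List.map_map]
    exact h2 l (by simpa using hl)
  · have := CharP.charP_to_charZero K
    obtain ⟨U, J, c, hU, h1, -, h2⟩ := GS.exists_unip ((Units.coeHom _).comp f)
      (Qu_traces f hX h)
    refine ⟨U, c, hU, fun l hl hm => h2 _ (by simpa using hl) fun a ha => ?_⟩
    obtain ⟨g, hg, rfl⟩ := List.mem_map.1 ha
    exact h1 g (hm g hg)

theorem Qu_dom (A : Type) [CommRing A] [IsDomain A] {G : Type}
    [Group G] {n : ℕ} (f : G →* GL (Fin n) A) (hX : Qu_X f) (h : ∀ g, GF.QU (f g).val) :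
    ∃ (U : Subgroup G) (c : ℕ), U.FiniteIndex ∧ ∀ l : List G, l.length = c → (∀ g ∈ l, g ∈ U) →
      (l.map fun g => (f g).val - 1).prod = 0 := by
  obtain ⟨U, c, hU, h1⟩ := Qu_field _ (Qu_map _ hX)
    (GK.KUni_qu (algebraMap A (FractionRing A)) f h)
  refine ⟨U, c, hU, fun l hl hm => ?_⟩
  have h5 : Function.Injective ((algebraMap A (FractionRing A)).mapMatrix (m := Fin n)) :=
    Matrix.map_injective (IsFractionRing.injective A _)
  exact h5 (by rw [GK.KUni_map, h1 l hl hm, map_zero])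

theorem Qu_all (A : Type) [CommRing A] {G : Type} [Group G] {n : ℕ}
    (f : G →* GL (Fin n) A) (hX : Qu_X f) (h : ∀ g, GF.QU (f g).val) :
    ∃ (U : Subgroup G) (c : ℕ), U.FiniteIndex ∧ ∀ l : List G, l.length = c → (∀ g ∈ l, g ∈ U) →
      (l.map fun g => (f g).val - 1).prod = 0 := by
  obtain ⟨B, f₀, hB, hX₀, hf⟩ := Qu_ring hX
  have h5 : Function.Injective (B.subtype.mapMatrix (m := Fin n)) :=
    Matrix.map_injective B.subtype_injective
  have e : ∀ g, (f g).val = B.subtype.mapMatrix (f₀ g).val := fun g => hf g ▸ rfl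
  have h0 : ∀ g, GF.QU (f₀ g).val := fun g => by
    obtain ⟨m, hm, h1⟩ := h g
    refine ⟨m, hm, (IsNilpotent.map_iff h5).1 ?_⟩
    rwa [map_sub, map_pow, map_one, ← e]
  have hno : IsNoetherianRing B := Algebra.FiniteType.isNoetherianRing ℤ B
  have hfin : Finite (minimalPrimes B) := (minimalPrimes.finite_of_isNoetherianRing B).to_subtype
  have := Fintype.ofFinite (minimalPrimes B)
  choose U c hU h1 using fun Q : minimalPrimes B =>
    have := Ideal.IsMinimalPrime.isPrime Q.2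
    Qu_dom (B ⧸ Q.1) _ (Qu_map _ hX₀)
      (GK.KUni_qu (Ideal.Quotient.mk Q.1) f₀ h0)
  obtain ⟨d, hd⟩ := IsNoetherianRing.isNilpotent_nilradical B
  have key := GK.KUni_pow (nilradical B) (fun g => (f₀ g).val - 1) (· ∈ ⨅ Q, U Q) (∑ Q, c Q)
    (fun l hl hm a b => by
      rw [nilradical, ← Ideal.sInf_minimalPrimes, Ideal.mem_sInf]
      intro Q hQ
      have h2 : c ⟨Q, hQ⟩ ≤ l.length :=
        hl ▸ Finset.single_le_sum (f := c) (fun _ _ => Nat.zero_le _) (Finset.mem_univ _)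
      have h3 := h1 ⟨Q, hQ⟩ (l.take (c ⟨Q, hQ⟩)) (by rw [List.length_take]; omega)
        fun g hg => Subgroup.mem_iInf.1 (hm g (List.mem_of_mem_take hg)) _
      have h4 := GK.KUni_map (Ideal.Quotient.mk Q) f₀ l
      conv_rhs at h4 =>
        rw [← List.take_append_drop (c ⟨Q, hQ⟩) l, List.map_append, List.prod_append, h3, zero_mul]
      exact Ideal.Quotient.eq_zero_iff_mem.1 (congrFun (congrFun h4 a) b)) d
  refine ⟨⨅ Q, U Q, (∑ Q, c Q) * d, Subgroup.finiteIndex_iInf hU, fun l hl hm => ?_⟩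
  have h6 : (l.map fun g => (f₀ g).val - 1).prod = 0 := by
    refine Matrix.ext fun a b => ?_
    have := key l hl hm a b
    rw [hd] at this
    exact (Submodule.mem_bot _).1 this
  have h7 := GK.KUni_map B.subtype f₀ l
  rw [h6, map_zero] at h7
  simp only [MonoidHom.comp_apply, hf] at h7
  exact h7.symm

theorem unip_sub (A : Type) [CommRing A] {G H : Type} [Group G] [Group H] [Group.FG H] {n : ℕ}
    (f : H →* GL (Fin n) A) (j : G →* H) (h : ∀ g, QU (f (j g)).val) :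
    ∃ (U : Subgroup G) (c : ℕ), U.FiniteIndex ∧ ∀ l : List G, l.length = c → (∀ g ∈ l, g ∈ U) →
      (l.map fun g => (f (j g)).val - 1).prod = 0 := by
  exact Qu_all A (f.comp j) ⟨H, _, ‹_›, f, j, rfl⟩ h

end Pool.Agent.MP_f7db47_al.VC
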