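import Pool.Agent.MP_f7db47_al.VC.Lin3
import Pool.Agent.MP_f7db47_al.VC.Lf

/-!
Extensions with solvable kernel.
-/

namespace Pool.Agent.MP_f7db47_al.VC

open GN GF Function

variable {Γ Γ' : Type} [Group Γ] [Group Γ']

theorem ker_idx (p : Γ →* Γ') (φ : Γ' →* MZ) (hφ : Finite φ.ker) :
    p.ker.relIndex (φ.comp p).ker ≠ 0 := by
  let f : (φ.comp p).ker →* φ.ker := (p.comp (Subgroup.subtype _)).codRestrict _ fun x => x.2
  have h : p.ker.subgroupOf (φ.comp p).ker = f.ker := by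
    ext x
    exact ⟨fun h => Subtype.ext h, fun h => congrArg Subtype.val h⟩
  rw [Subgroup.relIndex, h]
  exact Subgroup.FiniteIndex.index_ne_zero

theorem ker_res (p : Γ →* Γ') (B : Subgroup Γ') :
    (p.subgroupComap B).ker = p.ker.subgroupOf (B.comap p) := by
  ext x
  exact ⟨fun h => congrArg Subtype.val h, fun h => Subtype.ext h⟩

theorem idx_quot (N A K : Subgroup Γ) [N.Normal] (ψ : Γ ⧸ N →* MZ)
    (hK : K = (ψ.comp (QuotientGroup.mk' N)).ker) (hi : A.relIndex K ≠ 0) :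
    (A.map (QuotientGroup.mk' N)).relIndex ψ.ker ≠ 0 := by
  have h1 : ψ.ker = K.map (QuotientGroup.mk' N) := by
    rw [hK, ← MonoidHom.comap_ker, Subgroup.map_comap_eq_self_of_surjective
      (QuotientGroup.mk'_surjective N)]
  rw [h1, ← Subgroup.relIndex_comap]
  exact fun h => hi (Subgroup.relIndex_eq_zero_of_le_left (Subgroup.le_comap_map _ _) h)

theorem fj_abvc (p : Γ →* Γ') (h : IsVC Γ') (hc : ∀ a ∈ p.ker, ∀ b ∈ p.ker, a * b = b * a) :
    FJ Γ := by
  obtain ⟨φ, hφ⟩ := h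
  let N : Subgroup Γ :=
    { carrier := {a | a ∈ p.ker ∧ IsOfFinOrder a}
      one_mem' := ⟨one_mem _, IsOfFinOrder.one⟩
      mul_mem' := fun {a b} ha hb =>
        ⟨mul_mem ha.1 hb.1, Commute.isOfFinOrder_mul (hc a ha.1 b hb.1) ha.2 hb.2⟩
      inv_mem' := fun ha => ⟨inv_mem ha.1, ha.2.inv⟩ }
  have hN : N.Normal := ⟨fun a ha g => ⟨p.normal_ker.conj_mem a ha.1 g,
    (MulAut.conj g).toMonoidHom.isOfFinOrder ha.2⟩⟩
  let ψ : Γ ⧸ N →* MZ := QuotientGroup.lift N (φ.comp p) fun a ha => by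
    change φ (p a) = 1
    rw [show p a = 1 from ha.1, map_one]
  obtain ⟨U, _, _, ⟨D⟩⟩ := exists_lin ψ (p.ker.map (QuotientGroup.mk' N))
    (p.normal_ker.map _ (QuotientGroup.mk'_surjective N))
    (by
      rintro _ ⟨a, ha, rfl⟩
      change φ (p a) = 1
      rw [show p a = 1 from ha, map_one])
    (idx_quot N _ _ ψ rfl (ker_idx p φ hφ))
    (by
      rintro _ ⟨a, ha, rfl⟩ _ ⟨b, hb, rfl⟩
      rw [← map_mul, ← map_mul, hc a ha b hb])
    (by
      rintro _ ⟨a, ha, rfl⟩ h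
      obtain ⟨n, hn, e⟩ := isOfFinOrder_iff_pow_eq_one.1 h
      rw [← map_pow] at e
      exact (QuotientGroup.eq_one_iff a).2
        ⟨ha, (((QuotientGroup.eq_one_iff _).1 e).2.of_pow hn.ne')⟩)
  refine FJ.ext (QuotientGroup.mk' N) (fj_lin D) fun B ⟨χ, hχ⟩ => ?_
  refine fj_lf (χ.comp ((QuotientGroup.mk' N).subgroupComap B)) fun M hM hle => ?_
  have e := ker_res (QuotientGroup.mk' N) B
  rw [QuotientGroup.ker_mk'] at e
  refine fin_of_tors (N.subgroupOf _) M hM
    (fun h0 => ker_idx ((QuotientGroup.mk' N).subgroupComap B) χ hχ ?_)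
    (fun a ha b hb => Subtype.ext (hc _ ha.1 _ hb.1)) fun a ha => ?_
  · rw [e]
    exact Subgroup.relIndex_eq_zero_of_le_right hle h0
  · exact (Subgroup.subtype_injective _).isOfFinOrder_iff.1 ha.2

theorem fj_der (h : FJ Γ') (d : ℕ) : ∀ (Γ : Type) [Group Γ] (p : Γ →* Γ'),
    derivedSeries p.ker d = ⊥ → FJ Γ := by
  induction d with
  | zero =>
    intro Γ _ p hp
    refine h.sub p ((injective_iff_map_eq_one p).2 fun a ha => ?_)
    have : (⟨a, ha⟩ : p.ker) ∈ derivedSeries p.ker 0 := Subgroup.mem_top _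
    rw [hp] at this
    exact congrArg Subtype.val (Subgroup.mem_bot.1 this)
  | succ d ih =>
    intro Γ _ p hp
    let A := (derivedSeries p.ker d).map p.ker.subtype
    have hA : A.Normal := inferInstance
    have hle : A ≤ p.ker := Subgroup.map_subtype_le _
    let p' := QuotientGroup.lift A p hle
    let π : p.ker →* p'.ker := ((QuotientGroup.mk' A).comp p.ker.subtype).codRestrict _ fun x => x.2
    have hπ : Surjective π := by
      rintro ⟨x, hx⟩
      obtain ⟨x, rfl⟩ := QuotientGroup.mk'_surjective A x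
      exact ⟨⟨x, hx⟩, rfl⟩
    refine FJ.ext (QuotientGroup.mk' A) (ih _ p' ?_) fun B hB =>
      fj_abvc ((QuotientGroup.mk' A).subgroupComap B) hB ?_
    · rw [← map_derivedSeries_eq hπ, Subgroup.map_eq_bot_iff]
      exact fun x hx => Subtype.ext ((QuotientGroup.eq_one_iff _).2 ⟨x, hx, rfl⟩)
    · rw [ker_res, QuotientGroup.ker_mk']
      rintro a ⟨x, hx, ha⟩ b ⟨y, hy, hb⟩
      have h1 := Subgroup.commutator_mem_commutator hx hy
      rw [← derivedSeries_succ, hp, Subgroup.mem_bot, commutatorElement_eq_one_iff_mul_comm] at h1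
      refine Subtype.ext ?_
      change (a : Γ) * b = b * a
      have h2 := congrArg p.ker.subtype h1
      rwa [map_mul, map_mul, ha, hb] at h2

theorem fj_solv_ext (p : Γ →* Γ') (h : FJ Γ') (hs : Group.IsSolvable p.ker) : FJ Γ := by
  obtain ⟨d, hd⟩ := hs
  exact fj_der h d Γ p hd

end Pool.Agent.MP_f7db47_al.VC
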