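import Pool.Agent.MP_f7db47_al.VC.VB

/-!
From matrix representations to lattices.
-/

namespace Pool.Agent.MP_f7db47_al.VC

open Matrix

universe w

variable {G : Type} [Group G] {W : Type w} [AddCommGroup W]

/-- The matrices of a representation in a basis. -/
noncomputable def SwA_mat {k : Type} [CommRing k] {M : Type} [AddCommGroup M] [Module k M]
    {m : Type} [Fintype m] [DecidableEq m] (b : Module.Basis m k M) (ρ : Representation k G M) :
    G →* Matrix m m k where
  toFun g := LinearMap.toMatrix b b (ρ g)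
  map_one' := by rw [map_one, Module.End.one_eq_id, LinearMap.toMatrix_id]
  map_mul' g h := by rw [map_mul, LinearMap.toMatrix_mul]

theorem SwA_mat_apply {k : Type} [CommRing k] {M : Type} [AddCommGroup M] [Module k M]
    {m : Type} [Fintype m] [DecidableEq m] (b : Module.Basis m k M) (ρ : Representation k G M)
    (g : G) : SwA_mat b ρ g = LinearMap.toMatrix b b (ρ g) := rfl

theorem SwA_chg {k : Type} [CommRing k] {M : Type} [AddCommGroup M] [Module k M]
    {m m' : Type} [Fintype m] [DecidableEq m] [Fintype m'] [DecidableEq m']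
    (b : Module.Basis m k M) (b' : Module.Basis m' k M) (ρ : Representation k G M) :
    ∃ (A : Matrix m' m k) (A' : Matrix m m' k), A * A' = 1 ∧ A' * A = 1 ∧
      ∀ g, A * SwA_mat b ρ g = SwA_mat b' ρ g * A := by
  refine ⟨LinearMap.toMatrix b b' LinearMap.id, LinearMap.toMatrix b' b LinearMap.id, ?_, ?_,
    fun g => ?_⟩
  · rw [← LinearMap.toMatrix_comp, LinearMap.id_comp, LinearMap.toMatrix_id]
  · rw [← LinearMap.toMatrix_comp, LinearMap.id_comp, LinearMap.toMatrix_id]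
  · rw [SwA_mat_apply, SwA_mat_apply, ← LinearMap.toMatrix_comp, ← LinearMap.toMatrix_comp,
      LinearMap.id_comp, LinearMap.comp_id]

theorem SwA_blk {k : Type} [CommRing k] {M₁ M₂ M₃ : Type} [AddCommGroup M₁] [Module k M₁]
    [AddCommGroup M₂] [Module k M₂] [AddCommGroup M₃] [Module k M₃]
    {m m' : Type} [Fintype m] [DecidableEq m] [Fintype m'] [DecidableEq m']
    (b₁ : Module.Basis m k M₁) (b₃ : Module.Basis m' k M₃)
    (ρ₁ : Representation k G M₁) (ρ₂ : Representation k G M₂) (ρ₃ : Representation k G M₃)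
    (f : M₁ →ₗ[k] M₂) (p : M₂ →ₗ[k] M₃) (hf : ∀ g x, f (ρ₁ g x) = ρ₂ g (f x))
    (hp : ∀ g x, p (ρ₂ g x) = ρ₃ g (p x)) (fi : Function.Injective f)
    (ps : Function.Surjective p) (ex : Function.Exact f p) :
    ∃ (b : Module.Basis (m ⊕ m') k M₂) (B : G → Matrix m m' k),
      ∀ g, SwA_mat b ρ₂ g = fromBlocks (SwA_mat b₁ ρ₁ g) (B g) 0 (SwA_mat b₃ ρ₃ g) := by
  choose t ht using fun j => ps (b₃ j)
  let s : M₃ →ₗ[k] M₂ := b₃.constr k t
  have hs : ∀ z, p (s z) = z := by
    have : p ∘ₗ s = LinearMap.id := b₃.ext fun j => by simp [s, ht]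
    exact fun z => LinearMap.congr_fun this z
  have hpf : ∀ x, p (f x) = 0 := fun x => ex.apply_apply_eq_zero x
  have hb : Function.Bijective (f.coprod s) := by
    constructor
    · rw [injective_iff_map_eq_zero]
      rintro ⟨x, z⟩ h
      have h' : f x + s z = 0 := h
      have hz : z = 0 := by
        have := congrArg p h'
        rwa [map_add, hpf, hs, zero_add, map_zero] at this
      rw [hz, map_zero, add_zero] at h'
      rw [hz, (injective_iff_map_eq_zero f).1 fi x h']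
      rfl
    · intro y
      obtain ⟨x, hx⟩ := (ex (y - s (p y))).1 (by rw [map_sub, hs, sub_self])
      exact ⟨(x, p y), by simp [hx]⟩
  let e : (M₁ × M₃) ≃ₗ[k] M₂ := LinearEquiv.ofBijective _ hb
  have he : ∀ x z, e (x, z) = f x + s z := fun x z => rfl
  have e1 : ∀ x, e.symm (f x) = (x, 0) := fun x => by
    rw [LinearEquiv.symm_apply_eq, he, map_zero, add_zero]
  have e2 : ∀ y, (e.symm y).2 = p y := fun y => by
    obtain ⟨⟨x, z⟩, rfl⟩ := e.surjective y
    rw [e.symm_apply_apply, he, map_add, hpf, hs, zero_add]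
  have b1 : ∀ j, ((b₁.prod b₃).map e) (.inl j) = f (b₁ j) := fun j => by
    simp [he]
  have b2 : ∀ j, ((b₁.prod b₃).map e) (.inr j) = s (b₃ j) := fun j => by
    simp [he]
  have r1 : ∀ y i, ((b₁.prod b₃).map e).repr y (.inl i) = b₁.repr (e.symm y).1 i :=
    fun y i => by simp
  have r2 : ∀ y i, ((b₁.prod b₃).map e).repr y (.inr i) = b₃.repr (p y) i := fun y i => by
    rw [← e2]
    simp
  refine ⟨(b₁.prod b₃).map e, fun g => (SwA_mat ((b₁.prod b₃).map e) ρ₂ g).toBlocks₁₂,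
    fun g => ?_⟩
  ext (i | i) (j | j)
  · rw [fromBlocks_apply₁₁, SwA_mat_apply, SwA_mat_apply, LinearMap.toMatrix_apply,
      LinearMap.toMatrix_apply, b1, r1, ← hf, e1]
  · rfl
  · rw [fromBlocks_apply₂₁, SwA_mat_apply, LinearMap.toMatrix_apply, b1, r2, ← hf, hpf]
    simp
  · rw [fromBlocks_apply₂₂, SwA_mat_apply, SwA_mat_apply, LinearMap.toMatrix_apply,
      LinearMap.toMatrix_apply, b2, r2, hp, hs]

theorem SwA_indep (S : Swan G W) {M : Type} [AddCommGroup M] [Module ℤ M]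
    {m m' : Type} [Fintype m] [DecidableEq m] [Fintype m'] [DecidableEq m']
    (b : Module.Basis m ℤ M) (b' : Module.Basis m' ℤ M) (ρ : Representation ℤ G M) :
    S.κ (SwA_mat b ρ) = S.κ (SwA_mat b' ρ) := by
  obtain ⟨A, A', h1, h2, h3⟩ := SwA_chg b b' ρ
  exact S.conj _ _ A A' h1 h2 h3

open Classical in
theorem Swan.toM (S : Swan G W) : ∃ S' : SwanM ℤ G W,
    ∀ (m : Type) [Fintype m] [DecidableEq m] (a : G →* Matrix m m ℤ),
      S'.κ (matRep a) = S.κ a := by
  refine ⟨⟨fun {M} _ _ _ _ ρ => S.κ (SwA_mat (Module.Free.chooseBasis ℤ M) ρ), ?_⟩, ?_⟩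
  · intro M₁ M₂ M₃ _ _ _ _ _ _ _ _ _ _ _ _ ρ₁ ρ₂ ρ₃ f p hf hp fi ps ex
    obtain ⟨b, B, hB⟩ := SwA_blk (Module.Free.chooseBasis ℤ M₁) (Module.Free.chooseBasis ℤ M₃)
      ρ₁ ρ₂ ρ₃ f p hf hp fi ps ex
    rw [SwA_indep S _ b]
    exact S.block _ _ _ B hB
  · intro m _ _ a
    change S.κ (SwA_mat (Module.Free.chooseBasis ℤ (m → ℤ)) (matRep a)) = _
    rw [SwA_indep S _ (Pi.basisFun ℤ m)]
    congr 1
    ext g i j
    simp [SwA_mat_apply, matRep]

theorem Swan.perm_equiv (S : Swan G W) {X Y : Type} [Fintype X] [DecidableEq X] [Fintype Y]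
    [DecidableEq Y] (σ : G →* Equiv.Perm X) (τ : G →* Equiv.Perm Y) (e : X ≃ Y)
    (he : ∀ g x, e (σ g x) = τ g (e x)) : S.κ (permRep σ) = S.κ (permRep τ) := by
  refine S.conj _ _ (fun y x => if x = e.symm y then 1 else 0)
    (fun x y => if y = e x then 1 else 0) ?_ ?_ fun g => ?_
  · ext y y'
    rw [Matrix.mul_apply, Finset.sum_eq_single (e.symm y) (fun x _ hx => by simp [hx]) (by simp)]
    simp [Matrix.one_apply, eq_comm]
  · ext x x'
    rw [Matrix.mul_apply, Finset.sum_eq_single (e x) (fun y _ hy => by simp [hy]) (by simp)]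
    simp [Matrix.one_apply, eq_comm]
  · ext y x
    simp [Matrix.mul_apply, permRep, ← he, Equiv.eq_symm_apply]

theorem Swan.perm_sum (S : Swan G W) {X Y Z : Type} [Fintype X] [DecidableEq X] [Fintype Y]
    [DecidableEq Y] [Fintype Z] [DecidableEq Z] (σ : G →* Equiv.Perm X) (τ : G →* Equiv.Perm Y)
    (ρ : G →* Equiv.Perm Z) (e : X ⊕ Y ≃ Z) (h1 : ∀ g x, e (.inl (σ g x)) = ρ g (e (.inl x)))
    (h2 : ∀ g y, e (.inr (τ g y)) = ρ g (e (.inr y))) :
    S.κ (permRep ρ) = S.κ (permRep σ) + S.κ (permRep τ) := by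
  let μ : G →* Equiv.Perm (X ⊕ Y) :=
    { toFun := fun g => Equiv.sumCongr (σ g) (τ g)
      map_one' := by ext (x | x) <;> simp
      map_mul' := fun g h => by ext (x | x) <;> simp }
  have hμ : ∀ g, μ g = Equiv.sumCongr (σ g) (τ g) := fun g => rfl
  rw [← S.perm_equiv μ ρ e (by rintro g (x | x) <;> simp [hμ, h1, h2])]
  refine S.block _ _ _ (fun _ => 0) fun g => ?_
  ext (x | x) (y | y) <;> simp [permRep, hμ]

end Pool.Agent.MP_f7db47_al.VC
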