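import Pool.Agent.MP_f7db47_al.VC.VB

/-!
Additive invariants of lattices: sublattices with isomorphic quotients.
-/

namespace Pool.Agent.MP_f7db47_al.VC

open Function

universe w

variable {k : Type} [CommRing k] [IsDomain k] [IsPrincipalIdealRing k] {G : Type} [Group G]
  {W : Type w} [AddCommGroup W] (S : SwanM k G W) {M M' N N' X X₁ X₂ X₃ : Type}
  [AddCommGroup M] [Module k M] [Module.Free k M] [Module.Finite k M]
  [AddCommGroup M'] [Module k M'] [Module.Free k M'] [Module.Finite k M']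
  [AddCommGroup N] [Module k N] [Module.Free k N] [Module.Finite k N]
  [AddCommGroup N'] [Module k N'] [Module.Free k N'] [Module.Finite k N']
  [AddCommGroup X] [Module k X] [Module.Free k X] [Module.Finite k X]
  [AddCommGroup X₁] [Module k X₁] [Module.Free k X₁] [Module.Finite k X₁]
  [AddCommGroup X₂] [Module k X₂] [Module.Free k X₂] [Module.Finite k X₂]
  [AddCommGroup X₃] [Module k X₃] [Module.Free k X₃] [Module.Finite k X₃]

theorem SwanM.iso (ρ : Representation k G M) (τ : Representation k G N) (e : M ≃ₗ[k] N)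
    (he : ∀ g x, e (ρ g x) = τ g (e x)) : S.κ ρ = S.κ τ := by
  have h0 : S.κ (1 : Representation k G PUnit.{1}) = 0 := by
    have := S.ses (1 : Representation k G PUnit.{1}) (1 : Representation k G PUnit.{1})
      (1 : Representation k G PUnit.{1}) 0 0 (fun _ _ => rfl) (fun _ _ => rfl)
      (fun _ _ _ => rfl) (fun x => ⟨x, rfl⟩) fun x => ⟨fun _ => ⟨x, rfl⟩, fun _ => rfl⟩
    exact left_eq_add.1 this
  have := S.ses ρ τ (1 : Representation k G PUnit.{1}) e.toLinearMap 0 he (fun _ _ => rfl)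
    e.injective (fun _ => ⟨0, rfl⟩) fun x => ⟨fun _ => e.surjective x, fun _ => rfl⟩
  rw [this, h0, add_zero]

theorem SwB_quot {T : Type} [AddCommGroup T] [Module k T]
    (ρ : Representation k G M) (ρ' : Representation k G M') (τ : Representation k G N)
    (τ' : Representation k G N')
    (i : M' →ₗ[k] M) (j : N' →ₗ[k] N) (p : M →ₗ[k] T) (q : N →ₗ[k] T)
    (hi : ∀ g x, i (ρ' g x) = ρ g (i x)) (hj : ∀ g x, j (τ' g x) = τ g (j x))
    (hpq : ∀ g x y, p x = q y → p (ρ g x) = q (τ g y)) (i1 : Injective i)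
    (j1 : Injective j) (p1 : ∀ y, ∃ x, p x = q y) (q1 : ∀ x, ∃ y, p x = q y) (e1 : Exact i p)
    (e2 : Exact j q) : S.κ ρ + S.κ τ' = S.κ τ + S.κ ρ' := by
  let P : Submodule k (M × N) :=
    LinearMap.eqLocus (p ∘ₗ LinearMap.fst k M N) (q ∘ₗ LinearMap.snd k M N)
  have hP : ∀ x : M × N, x ∈ P ↔ p x.1 = q x.2 := fun _ => Iff.rfl
  let σ : Representation k G P :=
    (ρ.prod τ).subrepresentation P fun g x hx => hpq g x.1 x.2 hx
  have hσ : ∀ g (x : P), (σ g x).1 = (ρ g x.1.1, τ g x.1.2) := fun _ _ => rfl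
  have a1 := S.ses τ' σ ρ
    (LinearMap.codRestrict P (LinearMap.inr k M N ∘ₗ j) fun y => by
      rw [hP]
      simpa using (e2.apply_apply_eq_zero y).symm)
    (LinearMap.fst k M N ∘ₗ P.subtype)
    (fun g x => Subtype.ext (by rw [hσ]; simp [hj])) (fun _ _ => rfl)
    (fun x y h => j1 (congrArg (fun z : P => z.1.2) h))
    (fun x => by
      obtain ⟨y, hy⟩ := q1 x
      exact ⟨⟨(x, y), hy⟩, rfl⟩)
    (fun x => by
      constructor
      · intro h
        have h1 : x.1.1 = 0 := h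
        have h2 : p x.1.1 = q x.1.2 := x.2
        rw [h1, map_zero] at h2
        obtain ⟨y, hy⟩ := (e2 _).1 h2.symm
        exact ⟨y, Subtype.ext (Prod.ext h1.symm hy)⟩
      · rintro ⟨y, rfl⟩
        rfl)
  have a2 := S.ses ρ' σ τ
    (LinearMap.codRestrict P (LinearMap.inl k M N ∘ₗ i) fun y => by
      rw [hP]
      simpa using e1.apply_apply_eq_zero y)
    (LinearMap.snd k M N ∘ₗ P.subtype)
    (fun g x => Subtype.ext (by rw [hσ]; simp [hi])) (fun _ _ => rfl)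
    (fun x y h => i1 (congrArg (fun z : P => z.1.1) h))
    (fun y => by
      obtain ⟨x, hx⟩ := p1 y
      exact ⟨⟨(x, y), hx⟩, rfl⟩)
    (fun x => by
      constructor
      · intro h
        have h1 : x.1.2 = 0 := h
        have h2 : p x.1.1 = q x.1.2 := x.2
        rw [h1, map_zero] at h2
        obtain ⟨y, hy⟩ := (e1 _).1 h2
        exact ⟨y, Subtype.ext (Prod.ext hy h1.symm)⟩
      · rintro ⟨y, rfl⟩
        rfl)
  rw [add_comm, ← a1, a2, add_comm]

theorem SwanM.quot {T : Type} [AddCommGroup T] [Module k T] (a : G → T → T)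
    (ρ : Representation k G M) (ρ' : Representation k G M') (τ : Representation k G N)
    (τ' : Representation k G N')
    (i : M' →ₗ[k] M) (j : N' →ₗ[k] N) (p : M →ₗ[k] T) (q : N →ₗ[k] T)
    (hi : ∀ g x, i (ρ' g x) = ρ g (i x)) (hj : ∀ g x, j (τ' g x) = τ g (j x))
    (hp : ∀ g x, p (ρ g x) = a g (p x)) (hq : ∀ g x, q (τ g x) = a g (q x)) (i1 : Injective i)
    (j1 : Injective j) (p1 : Surjective p) (q1 : Surjective q) (e1 : Exact i p)
    (e2 : Exact j q) : S.κ ρ + S.κ τ' = S.κ τ + S.κ ρ' :=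
  SwB_quot S ρ ρ' τ τ' i j p q hi hj (fun g x y h => by rw [hp, hq, h]) i1 j1
    (fun y => p1 (q y)) (fun x => (q1 (p x)).imp fun _ h => h.symm) e1 e2

theorem SwanM.square (ρ : Representation k G X) (ρ₁ : Representation k G X₁)
    (ρ₂ : Representation k G X₂) (ρ₃ : Representation k G X₃) (i₁ : X₁ →ₗ[k] X)
    (i₂ : X₂ →ₗ[k] X) (i₃ : X₃ →ₗ[k] X) (h₁ : ∀ g x, i₁ (ρ₁ g x) = ρ g (i₁ x))
    (h₂ : ∀ g x, i₂ (ρ₂ g x) = ρ g (i₂ x)) (h₃ : ∀ g x, i₃ (ρ₃ g x) = ρ g (i₃ x))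
    (j₁ : Injective i₁) (j₂ : Injective i₂) (j₃ : Injective i₃) (n : k)
    (hI : ∀ x, (x ∈ i₁.range ∧ x ∈ i₂.range) ↔ ∃ y, ∃ z ∈ i₃.range, x = n • y + z)
    (hS : ∀ x, n • x ∈ i₃.range ↔ x ∈ i₁.range ⊔ i₂.range) :
    S.κ ρ + S.κ ρ₃ = S.κ ρ₁ + S.κ ρ₂ := by
  have r₁ : ∀ g x, x ∈ i₁.range → ρ g x ∈ i₁.range := by
    rintro g _ ⟨y, rfl⟩
    exact ⟨ρ₁ g y, h₁ g y⟩
  have r₂ : ∀ g x, x ∈ i₂.range → ρ g x ∈ i₂.range := by
    rintro g _ ⟨y, rfl⟩
    exact ⟨ρ₂ g y, h₂ g y⟩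
  have r₃ : ∀ g x, x ∈ i₃.range → ρ g x ∈ i₃.range := by
    rintro g _ ⟨y, rfl⟩
    exact ⟨ρ₃ g y, h₃ g y⟩
  let I : Submodule k X := i₁.range ⊓ i₂.range
  let U : Submodule k X := i₁.range ⊔ i₂.range
  let σ : Representation k G I :=
    ρ.subrepresentation I fun g x hx => ⟨r₁ g x hx.1, r₂ g x hx.2⟩
  let υ : Representation k G U :=
    ρ.subrepresentation U fun g => sup_le
      (fun x hx => Submodule.mem_sup_left (r₁ g x hx))
      fun x hx => Submodule.mem_sup_right (r₂ g x hx)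
  obtain ⟨j, hj⟩ : ∃ j : I →ₗ[k] X₂, ∀ x, i₂ (j x) = x :=
    ⟨LinearMap.codRestrictOfInjective I.subtype i₂ j₂ fun x => x.2.2,
      fun x => LinearMap.codRestrictOfInjective_comp_apply _ _ _ _ x⟩
  have a1 := SwB_quot S υ ρ₁ ρ₂ σ
    (LinearMap.codRestrict U i₁ fun y => Submodule.mem_sup_left ⟨y, rfl⟩) j
    (i₁.range.mkQ ∘ₗ U.subtype) (i₁.range.mkQ ∘ₗ i₂)
    (fun g x => Subtype.ext (h₁ g x))
    (fun g x => j₂ (by rw [hj, h₂, hj]; rfl))
    (fun g x y h => by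
      have h' := r₁ g _ ((Submodule.Quotient.eq _).1 h)
      rw [map_sub, ← h₂] at h'
      exact (Submodule.Quotient.eq _).2 h')
    (fun x y h => j₁ (congrArg Subtype.val h))
    (fun x y h => Subtype.ext (by rw [← hj, ← hj, h]))
    (fun y => ⟨⟨i₂ y, Submodule.mem_sup_right ⟨y, rfl⟩⟩, rfl⟩)
    (fun x => by
      obtain ⟨a, ha, _, ⟨y, rfl⟩, e⟩ := Submodule.mem_sup.1 x.2
      refine ⟨y, (Submodule.Quotient.eq _).2 ?_⟩
      change x.1 - i₂ y ∈ _
      rwa [← e, add_sub_cancel_right])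
    (fun x => by
      constructor
      · intro h
        obtain ⟨y, hy⟩ := (Submodule.Quotient.mk_eq_zero _).1 h
        exact ⟨y, Subtype.ext hy⟩
      · rintro ⟨y, rfl⟩
        exact (Submodule.Quotient.mk_eq_zero _).2 ⟨y, rfl⟩)
    (fun x => by
      constructor
      · intro h
        exact ⟨⟨i₂ x, (Submodule.Quotient.mk_eq_zero _).1 h, x, rfl⟩, j₂ (hj _)⟩
      · rintro ⟨y, rfl⟩
        refine (Submodule.Quotient.mk_eq_zero _).2 ?_
        rw [hj]
        exact y.2.1)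
  have a2 := SwB_quot S ρ υ σ ρ₃ U.subtype
    (LinearMap.codRestrict I i₃ fun y => (hI _).2 ⟨0, i₃ y, ⟨y, rfl⟩, by simp⟩)
    (i₃.range.mkQ ∘ₗ (n • LinearMap.id)) (i₃.range.mkQ ∘ₗ I.subtype)
    (fun _ _ => rfl) (fun g x => Subtype.ext (h₃ g x))
    (fun g x y h => by
      have h' : ρ g (n • x - y.1) ∈ _ := r₃ g _ ((Submodule.Quotient.eq _).1 h)
      rw [map_sub, map_smul] at h'
      exact (Submodule.Quotient.eq _).2 h')
    Subtype.val_injective (fun x y h => j₃ (congrArg Subtype.val h))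
    (fun y => by
      obtain ⟨x, z, hz, e⟩ := (hI y.1).1 y.2
      refine ⟨x, (Submodule.Quotient.eq _).2 ?_⟩
      change n • x - y.1 ∈ _
      rw [e, sub_add_cancel_left]
      exact neg_mem hz)
    (fun x => ⟨⟨n • x, (hI _).2 ⟨x, 0, zero_mem _, (add_zero _).symm⟩⟩, rfl⟩)
    (fun x => by
      constructor
      · intro h
        exact ⟨⟨x, (hS x).1 ((Submodule.Quotient.mk_eq_zero _).1 h)⟩, rfl⟩
      · rintro ⟨y, rfl⟩
        exact (Submodule.Quotient.mk_eq_zero _).2 ((hS y.1).2 y.2))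
    (fun x => by
      constructor
      · intro h
        obtain ⟨y, hy⟩ := (Submodule.Quotient.mk_eq_zero _).1 h
        exact ⟨y, Subtype.ext hy⟩
      · rintro ⟨y, rfl⟩
        exact (Submodule.Quotient.mk_eq_zero _).2 ⟨y, rfl⟩)
  rw [a2, add_comm, a1, add_comm]

end Pool.Agent.MP_f7db47_al.VC
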