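import Pool.Agent.MP_f7db47_al.VC.SwB

/-!
The square of two inclusions of prime exponent.
-/

namespace Pool.Agent.MP_f7db47_al.VC

open Function TensorProduct

universe w

variable {k : Type} [CommRing k] [IsDomain k] [IsPrincipalIdealRing k] {G : Type} [Group G]
  {W : Type w} [AddCommGroup W] (S : SwanM k G W) {A A' B B' : Type}
  [AddCommGroup A] [Module k A] [Module.Free k A] [Module.Finite k A]
  [AddCommGroup A'] [Module k A'] [Module.Free k A'] [Module.Finite k A']
  [AddCommGroup B] [Module k B] [Module.Free k B] [Module.Finite k B]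
  [AddCommGroup B'] [Module k B'] [Module.Free k B'] [Module.Finite k B']

omit [IsDomain k] [IsPrincipalIdealRing k] in
theorem SwC_repr {X X' ι : Type} [AddCommGroup X] [Module k X] [AddCommGroup X'] [Module k X']
    (c : Module.Basis ι k X) (c' : Module.Basis ι k X') (i : X' →ₗ[k] X) (d : ι → k)
    (hd : ∀ j, i (c' j) = d j • c j) (y : X') (j : ι) :
    c.repr (i y) j = d j * c'.repr y j := by
  have : c.coord j ∘ₗ i = d j • c'.coord j := by
    refine c'.ext fun l => ?_
    by_cases hl : l = j
    · subst hl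
      simp [hd]
    · simp [hd, Finsupp.single_eq_of_ne' hl]
  exact LinearMap.congr_fun this y

omit [IsDomain k] [IsPrincipalIdealRing k] in
theorem SwC_range {X X' ι : Type} [Finite ι] [AddCommGroup X] [Module k X] [AddCommGroup X']
    [Module k X'] (c : Module.Basis ι k X) (c' : Module.Basis ι k X') (i : X' →ₗ[k] X) (d : ι → k)
    (hd : ∀ j, i (c' j) = d j • c j) (x : X) :
    x ∈ i.range ↔ ∀ j, d j ∣ c.repr x j := by
  constructor
  · rintro ⟨y, rfl⟩ j
    rw [SwC_repr c c' i d hd]
    exact dvd_mul_right _ _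
  · intro h
    choose u hu using h
    refine ⟨c'.equivFun.symm u, c.ext_elem fun j => ?_⟩
    rw [SwC_repr c c' i d hd, hu, ← c'.equivFun_apply, LinearEquiv.apply_symm_apply]

omit [Module.Free k A'] in
theorem SwC_snf (f : A' →ₗ[k] A) (f1 : Injective f) (p : k) (hp : p ≠ 0)
    (f2 : ∀ x, p • x ∈ f.range) :
    ∃ (ι : Type) (_ : Finite ι) (e : Module.Basis ι k A) (e' : Module.Basis ι k A') (a : ι → k),
      (∀ i, f (e' i) = a i • e i) ∧ ∀ i, a i ∣ p := by
  have hr : Module.finrank k f.range = Module.finrank k A := by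
    refine le_antisymm (Submodule.finrank_le _) ?_
    refine LinearMap.finrank_le_finrank_of_injective
      (f := LinearMap.codRestrict f.range (p • LinearMap.id) f2) fun x y hxy => ?_
    exact smul_right_injective A hp (congrArg Subtype.val hxy)
  obtain ⟨e, a, b, hb⟩ :=
    Submodule.exists_smith_normal_form_of_rank_eq (Module.Free.chooseBasis k A) hr
  have h1 : ∀ i, f (b.map (LinearEquiv.ofInjective f f1).symm i) = a i • e i := fun i => by
    rw [← hb, Module.Basis.map_apply]
    exact congrArg Subtype.val ((LinearEquiv.ofInjective f f1).apply_symm_apply (b i))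
  refine ⟨_, inferInstance, e, _, a, h1, fun i => ?_⟩
  simpa using (SwC_range e _ f a h1 _).1 (f2 (e i)) i

omit [IsPrincipalIdealRing k] in
theorem SwC_ar1 {n a b : k} (hn : n ≠ 0)
    (h : (IsCoprime a b ∧ a * b ∣ n) ∨ (Associated a n ∧ Associated b n)) (x : k) :
    ((a ∣ x ∧ b ∣ x) ↔ ∃ y z, x = n * y + a * b * z) ∧
      (a * b ∣ n * x ↔ ∃ u v, x = a * u + b * v) := by
  rcases h with ⟨h1, h2⟩ | ⟨h1, h2⟩
  · refine ⟨⟨fun h => ?_, ?_⟩, ⟨fun _ => ?_, fun _ => h2.mul_right _⟩⟩
    · obtain ⟨z, hz⟩ := h1.mul_dvd h.1 h.2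
      exact ⟨0, z, by rw [hz]; ring⟩
    · rintro ⟨y, z, rfl⟩
      have : a * b ∣ n * y + a * b * z := dvd_add (h2.mul_right _) (dvd_mul_right _ _)
      exact ⟨(dvd_mul_right _ _).trans this, (dvd_mul_left _ _).trans this⟩
    · obtain ⟨u, v, huv⟩ := h1
      exact ⟨u * x, v * x, by linear_combination (-x) * huv⟩
  · refine ⟨⟨fun h => ?_, ?_⟩, ⟨fun h => ?_, ?_⟩⟩
    · obtain ⟨y, hy⟩ := h1.symm.dvd.trans h.1
      exact ⟨y, 0, by rw [hy]; ring⟩
    · rintro ⟨y, z, rfl⟩
      exact ⟨dvd_add (h1.dvd.mul_right _) ((dvd_mul_right a b).mul_right _),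
        dvd_add (h2.dvd.mul_right _) ((dvd_mul_left b a).mul_right _)⟩
    · obtain ⟨v, hv⟩ := (mul_dvd_mul_iff_left hn).1 ((h1.symm.mul_right b).dvd.trans h)
      exact ⟨0, v, by rw [hv]; ring⟩
    · rintro ⟨u, v, rfl⟩
      refine mul_dvd_mul h1.dvd (dvd_add ?_ (dvd_mul_right _ _))
      exact (h2.trans h1.symm).dvd.mul_right _

theorem SwC_ar2 {p q : k} (hp : Prime p) (hq : Prime q) : ∃ n, n ≠ 0 ∧ ∀ a b, a ∣ p → b ∣ q →
    (IsCoprime a b ∧ a * b ∣ n) ∨ (Associated a n ∧ Associated b n) := by
  by_cases h : Associated p q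
  · refine ⟨p, hp.ne_zero, fun a b ha hb => ?_⟩
    rcases hp.irreducible.dvd_iff.1 ha with h1 | h1
    · refine Or.inl ⟨(isCoprime_comm.1 ?_), (h1.mul_left_dvd).2 (hb.trans h.symm.dvd)⟩
      simpa using (isCoprime_mul_unit_left_right h1 b 1).2 isCoprime_one_right
    · rcases hq.irreducible.dvd_iff.1 hb with h2 | h2
      · refine Or.inl ⟨?_, (h2.mul_right_dvd).2 ha⟩
        simpa using (isCoprime_mul_unit_left_right h2 a 1).2 isCoprime_one_right
      · exact Or.inr ⟨h1.symm, h2.symm.trans h.symm⟩
  · refine ⟨p * q, mul_ne_zero hp.ne_zero hq.ne_zero, fun a b ha hb => Or.inl ⟨?_, ?_⟩⟩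
    · have : IsCoprime p q := hp.irreducible.coprime_iff_not_dvd.2 fun h' =>
        h (hp.associated_of_dvd hq h')
      exact (this.of_isCoprime_of_dvd_left ha).of_isCoprime_of_dvd_right hb
    · exact mul_dvd_mul ha hb

theorem SwanM.sq_prime (α : Representation k G A) (α' : Representation k G A')
    (β : Representation k G B) (β' : Representation k G B') (f : A' →ₗ[k] A) (h : B' →ₗ[k] B)
    (hf : ∀ g x, f (α' g x) = α g (f x)) (hh : ∀ g x, h (β' g x) = β g (h x)) (f1 : Injective f)
    (h1 : Injective h) (p q : k) (hp : Prime p) (hq : Prime q) (f2 : ∀ x, p • x ∈ f.range)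
    (h2 : ∀ x, q • x ∈ h.range) :
    S.κ (α.tprod β) + S.κ (α'.tprod β') = S.κ (α'.tprod β) + S.κ (α.tprod β') := by
  obtain ⟨ι, _, e, e', a, he, ha⟩ := SwC_snf f f1 p hp.ne_zero f2
  obtain ⟨ι', _, c, c', b, hc, hb⟩ := SwC_snf h h1 q hq.ne_zero h2
  obtain ⟨n, hn, H⟩ := SwC_ar2 hp hq
  have K := fun (j : ι × ι') => SwC_ar1 hn (H _ _ (ha j.1) (hb j.2))
  have r1 := SwC_range (e.tensorProduct c) (e'.tensorProduct c) (f.rTensor B) (fun j => a j.1)
    fun j => by simp [Module.Basis.tensorProduct_apply', he, smul_tmul']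
  have r2 := SwC_range (e.tensorProduct c) (e.tensorProduct c') (h.lTensor A) (fun j => b j.2)
    fun j => by simp [Module.Basis.tensorProduct_apply', hc]
  have r3 := SwC_range (e.tensorProduct c) (e'.tensorProduct c') (TensorProduct.map f h)
    (fun j => a j.1 * b j.2)
    fun j => by
      simp only [Module.Basis.tensorProduct_apply', map_tmul, he, hc, smul_tmul_smul]
  have j1 : Injective (f.rTensor B) := Module.Flat.rTensor_preserves_injective_linearMap f f1
  have j2 : Injective (h.lTensor A) := Module.Flat.lTensor_preserves_injective_linearMap h h1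
  have j3 : Injective (TensorProduct.map f h) := by
    rw [← LinearMap.rTensor_comp_lTensor]
    exact j1.comp (Module.Flat.lTensor_preserves_injective_linearMap h h1)
  have hs : ∀ (u : ι × ι' → k) j,
      (e.tensorProduct c).repr ((e.tensorProduct c).equivFun.symm u) j = u j := fun u j => by
    rw [← Module.Basis.equivFun_apply, LinearEquiv.apply_symm_apply]
  refine S.square (α.tprod β) (α'.tprod β) (α.tprod β') (α'.tprod β') (f.rTensor B) (h.lTensor A)
    (TensorProduct.map f h) (fun g x => ?_) (fun g x => ?_) (fun g x => ?_) j1 j2 j3 n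
    (fun x => ?_) fun x => ?_
  · induction x using TensorProduct.induction_on with
    | zero => simp
    | tmul x y => simp [hf]
    | add x y hx hy => simp only [map_add, hx, hy]
  · induction x using TensorProduct.induction_on with
    | zero => simp
    | tmul x y => simp [hh]
    | add x y hx hy => simp only [map_add, hx, hy]
  · induction x using TensorProduct.induction_on with
    | zero => simp
    | tmul x y => simp [hf, hh]
    | add x y hx hy => simp only [map_add, hx, hy]
  · rw [r1, r2]
    constructor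
    · rintro ⟨x1, x2⟩
      choose y z hz using fun j => (K j _).1.1 ⟨x1 j, x2 j⟩
      refine ⟨(e.tensorProduct c).equivFun.symm y,
        (e.tensorProduct c).equivFun.symm fun j => a j.1 * b j.2 * z j, (r3 _).2 fun j => ?_,
        (e.tensorProduct c).ext_elem fun j => ?_⟩
      · rw [hs]
        exact dvd_mul_right _ _
      · rw [map_add, map_smul, Finsupp.add_apply, Finsupp.smul_apply, hs, hs, hz, smul_eq_mul]
    · rintro ⟨y, z, hz, rfl⟩
      choose w hw using (r3 _).1 hz
      have := fun j => (K j ((e.tensorProduct c).repr (n • y + z) j)).1.2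
        ⟨(e.tensorProduct c).repr y j, w j, by
          rw [map_add, map_smul, Finsupp.add_apply, Finsupp.smul_apply, hw, smul_eq_mul]⟩
      exact ⟨fun j => (this j).1, fun j => (this j).2⟩
  · rw [r3, Submodule.mem_sup]
    simp only [map_smul, Finsupp.smul_apply, smul_eq_mul]
    constructor
    · intro hx
      choose u v huv using fun j => (K j _).2.1 (hx j)
      refine ⟨(e.tensorProduct c).equivFun.symm fun j => a j.1 * u j, (r1 _).2 fun j => ?_,
        (e.tensorProduct c).equivFun.symm fun j => b j.2 * v j, (r2 _).2 fun j => ?_,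
        (e.tensorProduct c).ext_elem fun j => ?_⟩
      · rw [hs]
        exact dvd_mul_right _ _
      · rw [hs]
        exact dvd_mul_right _ _
      · rw [map_add, Finsupp.add_apply, hs, hs, huv]
    · rintro ⟨y, hy, z, hz, rfl⟩ j
      obtain ⟨u, hu⟩ := (r1 _).1 hy j
      obtain ⟨v, hv⟩ := (r2 _).1 hz j
      exact (K j _).2.2 ⟨u, v, by rw [map_add, Finsupp.add_apply, hu, hv]⟩

end Pool.Agent.MP_f7db47_al.VC
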