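import Pool.Agent.MP_f7db47_al.VC.SwC

/-!
The square of two inclusions of finite index.
-/

namespace Pool.Agent.MP_f7db47_al.VC

open Function TensorProduct

universe w

variable {k : Type} [CommRing k] [IsDomain k] [IsPrincipalIdealRing k] {G : Type} [Group G]
  {W : Type w} [AddCommGroup W] (S : SwanM k G W) {A A' B B' : Type}
  [AddCommGroup A] [Module k A] [Module.Free k A] [Module.Finite k A]
  [AddCommGroup A'] [Module k A'] [Module.Free k A'] [Module.Finite k A']
  [AddCommGroup B] [Module k B] [Module.Free k B] [Module.Finite k B]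
  [AddCommGroup B'] [Module k B'] [Module.Free k B'] [Module.Finite k B']

omit [AddCommGroup W] in
theorem SwD_dev
    (D : ∀ {M : Type} [AddCommGroup M] [Module k M] [Module.Free k M] [Module.Finite k M],
      Representation k G M → W)
    (hiso : ∀ {M N : Type} [AddCommGroup M] [Module k M] [Module.Free k M] [Module.Finite k M]
      [AddCommGroup N] [Module k N] [Module.Free k N] [Module.Finite k N]
      (ρ : Representation k G M) (τ : Representation k G N) (e : M ≃ₗ[k] N),
      (∀ g x, e (ρ g x) = τ g (e x)) → D ρ = D τ)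
    (hpr : ∀ {M N : Type} [AddCommGroup M] [Module k M] [Module.Free k M] [Module.Finite k M]
      [AddCommGroup N] [Module k N] [Module.Free k N] [Module.Finite k N]
      (ρ : Representation k G M) (τ : Representation k G N) (f : N →ₗ[k] M),
      (∀ g x, f (τ g x) = ρ g (f x)) → Injective f → ∀ p : k, Prime p →
      (∀ x : M, p • x ∈ f.range) → D ρ = D τ)
    (p : k) : p ≠ 0 → ∀ {M N : Type} [AddCommGroup M] [Module k M] [Module.Free k M]
      [Module.Finite k M] [AddCommGroup N] [Module k N] [Module.Free k N] [Module.Finite k N]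
      (ρ : Representation k G M) (τ : Representation k G N) (f : N →ₗ[k] M),
      (∀ g x, f (τ g x) = ρ g (f x)) → Injective f → (∀ x : M, p • x ∈ f.range) →
      D ρ = D τ := by
  induction p using UniqueFactorizationMonoid.induction_on_prime with
  | h₁ => exact fun h => absurd rfl h
  | h₂ u hu =>
    intro _ M N _ _ _ _ _ _ _ _ ρ τ f hf f1 f2
    obtain ⟨u, rfl⟩ := hu
    have hs : Surjective f := fun x => by
      obtain ⟨y, hy⟩ := f2 (((u⁻¹ : kˣ) : k) • x)
      exact ⟨y, by rw [hy, smul_smul, Units.mul_inv, one_smul]⟩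
    exact (hiso τ ρ (LinearEquiv.ofBijective f ⟨f1, hs⟩) hf).symm
  | h₃ a p ha hp ih =>
    intro _ M N _ _ _ _ _ _ _ _ ρ τ f hf f1 f2
    let P : Submodule k M := f.range ⊔ (p • (LinearMap.id : M →ₗ[k] M)).range
    have hP : ∀ x, x ∈ P ↔ ∃ y z, f y + p • z = x := fun x => by
      constructor
      · intro hx
        obtain ⟨_, ⟨y, rfl⟩, _, ⟨z, rfl⟩, e⟩ := Submodule.mem_sup.1 hx
        exact ⟨y, z, e⟩
      · rintro ⟨y, z, rfl⟩
        exact Submodule.add_mem_sup ⟨y, rfl⟩ ⟨z, rfl⟩
    have hinv : ∀ g, P ≤ P.comap (ρ g) := fun g x hx => by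
      obtain ⟨y, z, rfl⟩ := (hP x).1 hx
      exact (hP _).2 ⟨τ g y, ρ g z, by rw [hf, map_add, map_smul]⟩
    have hfP : ∀ y, f y ∈ P := fun y => (hP _).2 ⟨y, 0, by simp⟩
    have e1 : D ρ = D (ρ.subrepresentation P hinv) :=
      hpr ρ _ P.subtype (fun _ _ => rfl) P.injective_subtype p hp fun x =>
        ⟨⟨p • x, (hP _).2 ⟨0, x, by simp⟩⟩, rfl⟩
    have e2 : D (ρ.subrepresentation P hinv) = D τ := by
      refine ih ha _ τ (f.codRestrict P hfP) (fun g x => Subtype.ext (hf g x))
        (fun x y e => f1 (congrArg Subtype.val e)) fun x => ?_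
      obtain ⟨y, z, e⟩ := (hP _).1 x.2
      obtain ⟨v, hv⟩ := f2 z
      refine ⟨a • y + v, Subtype.ext ?_⟩
      change f (a • y + v) = a • (x : M)
      rw [← e, map_add, map_smul, hv, smul_add, smul_smul, mul_comm]
    exact e1.trans e2

theorem SwD_right (α : Representation k G A) (β : Representation k G B)
    (β' : Representation k G B') (e : B ≃ₗ[k] B') (he : ∀ g x, e (β g x) = β' g (e x)) :
    S.κ (α.tprod β) = S.κ (α.tprod β') := by
  refine S.iso _ _ (TensorProduct.congr (LinearEquiv.refl k A) e) fun g x => ?_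
  induction x using TensorProduct.induction_on with
  | zero => simp
  | tmul a b => simp [he]
  | add x y hx hy => simp only [map_add, hx, hy]

theorem SwD_left (α : Representation k G A) (α' : Representation k G A')
    (β : Representation k G B) (e : A ≃ₗ[k] A') (he : ∀ g x, e (α g x) = α' g (e x)) :
    S.κ (α.tprod β) = S.κ (α'.tprod β) := by
  refine S.iso _ _ (TensorProduct.congr e (LinearEquiv.refl k B)) fun g x => ?_
  induction x using TensorProduct.induction_on with
  | zero => simp
  | tmul a b => simp [he]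
  | add x y hx hy => simp only [map_add, hx, hy]

theorem SwD_one (α : Representation k G A) (α' : Representation k G A')
    (β : Representation k G B) (β' : Representation k G B') (f : A' →ₗ[k] A) (h : B' →ₗ[k] B)
    (hf : ∀ g x, f (α' g x) = α g (f x)) (hh : ∀ g x, h (β' g x) = β g (h x)) (f1 : Injective f)
    (h1 : Injective h) (p q : k) (hp : Prime p) (hq : q ≠ 0) (f2 : ∀ x, p • x ∈ f.range)
    (h2 : ∀ x, q • x ∈ h.range) :
    S.κ (α.tprod β) - S.κ (α'.tprod β) = S.κ (α.tprod β') - S.κ (α'.tprod β') := by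
  refine SwD_dev (fun ρ => S.κ (α.tprod ρ) - S.κ (α'.tprod ρ)) ?_ ?_ q hq β β' h hh h1 h2
  · intro M N _ _ _ _ _ _ _ _ ρ τ e he
    rw [SwD_right S α ρ τ e he, SwD_right S α' ρ τ e he]
  · intro M N _ _ _ _ _ _ _ _ ρ τ j hj j1 r hr j2
    have := S.sq_prime α α' ρ τ f j hf hj f1 j1 p r hp hr f2 j2
    rw [sub_eq_sub_iff_add_eq_add, this, add_comm]

theorem SwanM.sq (α : Representation k G A) (α' : Representation k G A')
    (β : Representation k G B) (β' : Representation k G B') (f : A' →ₗ[k] A) (h : B' →ₗ[k] B)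
    (hf : ∀ g x, f (α' g x) = α g (f x)) (hh : ∀ g x, h (β' g x) = β g (h x)) (f1 : Injective f)
    (h1 : Injective h) (p q : k) (hp : p ≠ 0) (hq : q ≠ 0) (f2 : ∀ x, p • x ∈ f.range)
    (h2 : ∀ x, q • x ∈ h.range) :
    S.κ (α.tprod β) + S.κ (α'.tprod β') = S.κ (α'.tprod β) + S.κ (α.tprod β') := by
  have key : S.κ (α.tprod β) - S.κ (α.tprod β') = S.κ (α'.tprod β) - S.κ (α'.tprod β') := by
    refine SwD_dev (fun ρ => S.κ (ρ.tprod β) - S.κ (ρ.tprod β')) ?_ ?_ p hp α α' f hf f1 f2
    · intro M N _ _ _ _ _ _ _ _ ρ τ e he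
      rw [SwD_left S ρ τ β e he, SwD_left S ρ τ β' e he]
    · intro M N _ _ _ _ _ _ _ _ ρ τ j hj j1 r hr j2
      have := SwD_one S ρ τ β β' j h hj hh j1 h1 r q hr hq j2 h2
      rw [sub_eq_sub_iff_add_eq_add] at this ⊢
      rw [this, add_comm]
  exact sub_eq_sub_iff_add_eq_add.1 key

end Pool.Agent.MP_f7db47_al.VC
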