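import Pool.Agent.MP_f7db47_al.VC.VB

/-!
Rational representations with equal characters.
-/

namespace Pool.Agent.MP_f7db47_al.VC

open Matrix

/-- Trace of a restriction through a projection. -/
theorem SwE_trace_restrict {V : Type} [AddCommGroup V] [Module ℚ V] [FiniteDimensional ℚ V]
    (W : Submodule ℚ V) (f p : V →ₗ[ℚ] V) (hf : W ≤ W.comap f) (hp : ∀ v, p v ∈ W)
    (hp' : ∀ w ∈ W, p w = w) :
    LinearMap.trace ℚ W (f.restrict hf) = LinearMap.trace ℚ V (f ∘ₗ p) := by
  have e1 : f ∘ₗ p = W.subtype ∘ₗ (f.restrict hf ∘ₗ p.codRestrict W hp) := by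
    ext v; simp [LinearMap.restrict_apply]
  have e2 : (f.restrict hf ∘ₗ p.codRestrict W hp) ∘ₗ W.subtype = f.restrict hf := by
    ext w
    simp [LinearMap.restrict_apply, hp' w w.2]
  rw [e1, LinearMap.trace_comp_comm', e2]

/-- An equivariant map has an equivariant generalised inverse. -/
theorem SwE_ginv {G V V' : Type} [Group G] [Finite G] [AddCommGroup V] [Module ℚ V]
    [AddCommGroup V'] [Module ℚ V']
    (ρ : Representation ℚ G V) (ρ' : Representation ℚ G V') (φ : V →ₗ[ℚ] V')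
    (hφ : ∀ g x, φ (ρ g x) = ρ' g (φ x)) :
    ∃ s : V' →ₗ[ℚ] V, (∀ g y, s (ρ' g y) = ρ g (s y)) ∧ ∀ x, φ (s (φ x)) = φ x := by
  classical
  have := Fintype.ofFinite G
  obtain ⟨r, hr⟩ := φ.rangeRestrict.exists_rightInverse_of_surjective φ.range_rangeRestrict
  obtain ⟨l, hl⟩ := (LinearMap.range φ).subtype.exists_leftInverse_of_injective
    (Submodule.ker_subtype _)
  have ht : ∀ x, φ (r (l (φ x))) = φ x := by
    intro x
    have h1 : l (φ x) = ⟨φ x, LinearMap.mem_range_self φ x⟩ :=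
      LinearMap.congr_fun hl ⟨φ x, LinearMap.mem_range_self φ x⟩
    have h2 := LinearMap.congr_fun hr ⟨φ x, LinearMap.mem_range_self φ x⟩
    rw [h1]
    exact congrArg Subtype.val h2
  have hc : (Fintype.card G : ℚ) ≠ 0 := Nat.cast_ne_zero.mpr Fintype.card_ne_zero
  refine ⟨(Fintype.card G : ℚ)⁻¹ • ∑ g : G, (ρ g ∘ₗ (r ∘ₗ l) ∘ₗ ρ' g⁻¹), ?_, ?_⟩
  · intro a y
    simp only [LinearMap.smul_apply, LinearMap.sum_apply, LinearMap.comp_apply, map_smul, map_sum]
    congr 1
    refine (Fintype.sum_bijective (fun g => a * g) (Group.mulLeft_bijective a) _ _ ?_).symm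
    intro g
    have e : ρ' (a * g)⁻¹ (ρ' a y) = ρ' g⁻¹ y := by
      rw [← Module.End.mul_apply, ← map_mul]; simp
    rw [e, map_mul, Module.End.mul_apply]
  · intro x
    simp only [LinearMap.smul_apply, LinearMap.sum_apply, LinearMap.comp_apply, map_smul, map_sum]
    have e : ∀ g : G, φ (ρ g (r (l (ρ' g⁻¹ (φ x))))) = φ x := by
      intro g
      rw [hφ, ← hφ g⁻¹, ht, hφ, ← Module.End.mul_apply, ← map_mul]; simp
    simp only [e, Finset.sum_const, Finset.card_univ]
    rw [← Nat.cast_smul_eq_nsmul ℚ, smul_smul, inv_mul_cancel₀ hc, one_smul]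

/-- Equal characters of nonzero representations give a nonzero equivariant map. -/
theorem SwE_nonzero {G V V' : Type} [Group G] [Finite G] [AddCommGroup V] [Module ℚ V]
    [FiniteDimensional ℚ V] [AddCommGroup V'] [Module ℚ V'] [FiniteDimensional ℚ V']
    (ρ : Representation ℚ G V) (ρ' : Representation ℚ G V')
    (h : ∀ g, LinearMap.trace ℚ V (ρ g) = LinearMap.trace ℚ V' (ρ' g)) (v : V) (hv : v ≠ 0) :
    ∃ ψ : V →ₗ[ℚ] V', (∀ g x, ψ (ρ g x) = ρ' g (ψ x)) ∧ ∃ x, ψ x ≠ 0 := by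
  classical
  have := Fintype.ofFinite G
  have hc : (Nat.card G : ℚ) ≠ 0 := Nat.cast_ne_zero.mpr Nat.card_pos.ne'
  let _ : Invertible (Nat.card G : ℚ) := invertibleOfNonzero hc
  have h1 := Representation.card_inv_mul_sum_char_mul_char_eq_finrank ρ ρ'
  have h2 := Representation.card_inv_mul_sum_char_mul_char_eq_finrank ρ ρ
  have h3 : ρ'.character = ρ.character := funext fun g => (h g).symm
  rw [h3, h2] at h1
  have h4 : Module.finrank ℚ (ρ.IntertwiningMap ρ) = Module.finrank ℚ (ρ.IntertwiningMap ρ') := by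
    exact_mod_cast h1
  by_contra hn
  have hs : Subsingleton (ρ.IntertwiningMap ρ') := by
    refine subsingleton_of_forall_eq 0 fun f => ?_
    apply Representation.IntertwiningMap.ext
    ext x
    by_contra hx
    exact hn ⟨f.toLinearMap, fun g y => f.isIntertwining ρ ρ' g y, x, hx⟩
  have hf : FiniteDimensional ℚ (ρ.IntertwiningMap ρ) :=
    (Representation.invariantsEquivIntertwiningMap ρ ρ).finiteDimensional
  rw [Module.finrank_zero_of_subsingleton (M := ρ.IntertwiningMap ρ'),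
    Module.finrank_zero_iff] at h4
  have h5 : Representation.IntertwiningMap.id ρ = 0 := Subsingleton.elim _ _
  have h6 : Representation.IntertwiningMap.id ρ v = (0 : ρ.IntertwiningMap ρ) v := by rw [h5]
  exact hv h6

theorem rep_iso {G V V' : Type} [Group G] [Finite G] [AddCommGroup V] [Module ℚ V]
    [FiniteDimensional ℚ V] [AddCommGroup V'] [Module ℚ V'] [FiniteDimensional ℚ V']
    (ρ : Representation ℚ G V) (ρ' : Representation ℚ G V')
    (h : ∀ g, LinearMap.trace ℚ V (ρ g) = LinearMap.trace ℚ V' (ρ' g)) :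
    ∃ e : V ≃ₗ[ℚ] V', ∀ g x, e (ρ g x) = ρ' g (e x) := by
  classical
  have hex : ∃ n, ∃ φ : V →ₗ[ℚ] V', (∀ g x, φ (ρ g x) = ρ' g (φ x)) ∧
      Module.finrank ℚ (LinearMap.ker φ) = n := ⟨_, 0, by simp, rfl⟩
  obtain ⟨φ, hφ, hn⟩ := Nat.find_spec hex
  have hinj : Function.Injective φ := by
    rw [← LinearMap.ker_eq_bot]
    by_contra hk
    obtain ⟨v, hvK, hv0⟩ := Submodule.exists_mem_ne_zero_of_ne_bot hk
    obtain ⟨s, hs, hsφ⟩ := SwE_ginv ρ ρ' φ hφ
    set p : V →ₗ[ℚ] V := LinearMap.id - s ∘ₗ φ with hp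
    set q : V' →ₗ[ℚ] V' := LinearMap.id - φ ∘ₗ s with hq
    have pa : ∀ x, p x = x - s (φ x) := fun x => rfl
    have qa : ∀ y, q y = y - φ (s y) := fun y => rfl
    have hK : ∀ g, LinearMap.ker φ ≤ (LinearMap.ker φ).comap (ρ g) := by
      intro g x hx
      rw [Submodule.mem_comap, LinearMap.mem_ker, hφ, LinearMap.mem_ker.mp hx, map_zero]
    have qe : ∀ g y, q (ρ' g y) = ρ' g (q y) := by
      intro g y; rw [qa, qa, hs, hφ, map_sub]
    have pe : ∀ g x, p (ρ g x) = ρ g (p x) := by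
      intro g x; rw [pa, pa, hφ, hs, map_sub]
    have hC : ∀ g, LinearMap.range q ≤ (LinearMap.range q).comap (ρ' g) := by
      rintro g _ ⟨y, rfl⟩
      exact ⟨ρ' g y, qe g y⟩
    have pK : ∀ x, p x ∈ LinearMap.ker φ := by
      intro x; rw [LinearMap.mem_ker, pa, map_sub, hsφ, sub_self]
    have pK' : ∀ w ∈ LinearMap.ker φ, p w = w := by
      intro w hw; rw [pa, LinearMap.mem_ker.mp hw, map_zero, sub_zero]
    have qφ : ∀ x, q (φ x) = 0 := by
      intro x; rw [qa, hsφ, sub_self]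
    have qC' : ∀ w ∈ LinearMap.range q, q w = w := by
      rintro _ ⟨y, rfl⟩
      conv_lhs => rw [qa y, map_sub, qφ, sub_zero]
    have htr : ∀ g, LinearMap.trace ℚ _ (ρ.subrepresentation _ hK g) =
        LinearMap.trace ℚ _ (ρ'.subrepresentation _ hC g) := by
      intro g
      have a1 := SwE_trace_restrict _ (ρ g) p (hK g) pK pK'
      have a2 := SwE_trace_restrict _ (ρ' g) q (hC g) (fun y => LinearMap.mem_range_self q y) qC'
      have a3 : ρ g ∘ₗ p = ρ g - (ρ g ∘ₗ s) ∘ₗ φ := by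
        ext x; simp [pa]
      have a4 : ρ' g ∘ₗ q = ρ' g - φ ∘ₗ (ρ g ∘ₗ s) := by
        ext y; simp [qa, hφ]
      rw [a3, map_sub, h g, LinearMap.trace_comp_comm'] at a1
      rw [a4, map_sub] at a2
      exact a1.trans a2.symm
    obtain ⟨ψ, hψ, x, hx⟩ := SwE_nonzero _ _ htr ⟨v, hvK⟩
      (fun e => hv0 (congrArg Subtype.val e))
    let φ' : V →ₗ[ℚ] V' :=
      φ + (LinearMap.range q).subtype ∘ₗ ψ ∘ₗ p.codRestrict _ pK
    have fa : ∀ y, φ' y = φ y + (ψ ⟨p y, pK y⟩ : V') := fun y => rfl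
    have he : ∀ g y, φ' (ρ g y) = ρ' g (φ' y) := by
      intro g y
      have e : (⟨p (ρ g y), pK _⟩ : LinearMap.ker φ) =
          ρ.subrepresentation _ hK g ⟨p y, pK y⟩ := Subtype.ext (pe g y)
      rw [fa, fa, e, hψ, hφ, map_add]
      rfl
    have hlt : LinearMap.ker φ' < LinearMap.ker φ := by
      refine lt_of_le_of_ne ?_ ?_
      · intro y hy
        rw [LinearMap.mem_ker, fa] at hy
        have h1 := congrArg q hy
        rw [map_add, qφ, zero_add, qC' _ (ψ ⟨p y, pK y⟩).2, map_zero] at h1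
        rw [h1, add_zero] at hy
        exact hy
      · intro e
        have h1 : (x : V) ∈ LinearMap.ker φ' := by rw [e]; exact x.2
        have h2 : (⟨p x, pK x⟩ : LinearMap.ker φ) = x := Subtype.ext (pK' x x.2)
        rw [LinearMap.mem_ker, fa, h2, LinearMap.mem_ker.mp x.2, zero_add] at h1
        exact hx (Subtype.ext h1)
    have h1 := Submodule.finrank_lt_finrank_of_lt hlt
    have h2 := Nat.find_min' hex ⟨φ', he, rfl⟩
    omega
  have hd : Module.finrank ℚ V = Module.finrank ℚ V' := by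
    have h1 := h 1
    rw [map_one ρ, map_one ρ', LinearMap.trace_one, LinearMap.trace_one] at h1
    exact_mod_cast h1
  exact ⟨LinearEquiv.ofBijective φ
    ⟨hinj, (LinearMap.injective_iff_surjective_of_finrank_eq_finrank hd).mp hinj⟩, hφ⟩

end Pool.Agent.MP_f7db47_al.VC
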