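import Pool.Agent.MP_f7db47_al.VC.SwA
import Pool.Agent.MP_f7db47_al.VC.SwD
import Pool.Agent.MP_f7db47_al.VC.SwE

/-!
The difference of two finite sets with equal characters has square zero.
-/

namespace Pool.Agent.MP_f7db47_al.VC

open Matrix

universe w

variable {G : Type} [Group G] {X Y : Type} [Fintype X] [DecidableEq X] [Fintype Y]
  [DecidableEq Y] (σ : G →* Equiv.Perm X) (τ : G →* Equiv.Perm Y)

/-- The rational permutation representation. -/
noncomputable def SwF_q : Representation ℚ G (X → ℚ) :=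
  (Matrix.toLinAlgEquiv' (R := ℚ) (n := X)).toMonoidHom.comp
    ((Int.castRingHom ℚ).mapMatrix.toMonoidHom.comp (permRep σ))

theorem SwF_q_apply (g : G) :
    SwF_q σ g = Matrix.toLin' ((permRep σ g).map (Int.castRingHom ℚ)) := rfl

theorem SwF_trace (g : G) :
    LinearMap.trace ℚ _ (SwF_q σ g) = Nat.card {x // σ g x = x} := by
  rw [SwF_q_apply, Matrix.trace_toLin'_eq, Nat.card_eq_fintype_card, Fintype.card_subtype,
    Finset.card_filter]
  simp [Matrix.trace, permRep]

omit [DecidableEq X] [DecidableEq Y] in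
theorem SwF_den (F : Matrix X Y ℚ) : ∃ (c : ℕ) (f : Matrix X Y ℤ), 0 < c ∧
    f.map (Int.castRingHom ℚ) = (c : ℚ) • F := by
  have h1 : ∀ x y, ∃ k : ℕ, ∏ p : X × Y, (F p.1 p.2).den = (F x y).den * k := fun x y =>
    Finset.dvd_prod_of_mem (fun p : X × Y => (F p.1 p.2).den) (Finset.mem_univ (x, y))
  choose k hk using h1
  refine ⟨∏ p : X × Y, (F p.1 p.2).den, Matrix.of fun x y => (F x y).num * k x y,
    Finset.prod_pos fun p _ => Rat.den_pos _, ?_⟩
  ext x y
  rw [Matrix.smul_apply, hk x y, Matrix.map_apply, Matrix.of_apply, smul_eq_mul]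
  have h2 := Rat.mul_den_eq_num (F x y)
  simp only [eq_intCast, Int.cast_mul, Int.cast_natCast, Nat.cast_mul]
  linear_combination (-(k x y : ℚ)) * h2

theorem SwF_app (g : G) (v : X → ℤ) (x : X) : matRep (permRep σ) g v x = v ((σ g).symm x) := by
  change (permRep σ g *ᵥ v) x = _
  simp [permRep, Matrix.mulVec, dotProduct, ← Equiv.eq_symm_apply]

theorem SwF_tp {W : Type w} [AddCommGroup W] (S : SwanM ℤ G W) :
    S.κ ((matRep (permRep σ)).tprod (matRep (permRep τ))) =
      S.κ (matRep (permRep (permProd σ τ))) := by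
  refine S.iso _ _ ((Pi.basisFun ℤ X).tensorProduct (Pi.basisFun ℤ Y)).equivFun fun g x => ?_
  induction x using TensorProduct.induction_on with
  | zero => simp
  | add x y hx hy => simp only [map_add, hx, hy]
  | tmul x y =>
    funext p
    obtain ⟨i, j⟩ := p
    rw [SwF_app]
    simp [permProd, SwF_app]

theorem perm_inter (h : ∀ g, Nat.card {x // σ g x = x} = Nat.card {y // τ g y = y}) :
    ∃ (n : ℕ) (f : Matrix X Y ℤ) (f' : Matrix Y X ℤ), 0 < n ∧ f * f' = (n : ℤ) • 1 ∧
      f' * f = (n : ℤ) • 1 ∧ ∀ g, f * permRep τ g = permRep σ g * f := by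
  let σ' : (σ.prod τ).range →* Equiv.Perm X := (MonoidHom.fst _ _).comp (σ.prod τ).range.subtype
  let τ' : (σ.prod τ).range →* Equiv.Perm Y := (MonoidHom.snd _ _).comp (σ.prod τ).range.subtype
  obtain ⟨e, he⟩ := rep_iso (SwF_q τ') (SwF_q σ') (by
    rintro ⟨_, g, rfl⟩
    rw [SwF_trace, SwF_trace]
    exact congrArg Nat.cast (h g).symm)
  obtain ⟨c, f, hc, hf⟩ := SwF_den (LinearMap.toMatrix' e.toLinearMap)
  obtain ⟨c', f', hc', hf'⟩ := SwF_den (LinearMap.toMatrix' e.symm.toLinearMap)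
  have hi : Function.Injective (Int.castRingHom ℚ) := Int.cast_injective
  refine ⟨c * c', f, f', Nat.mul_pos hc hc', ?_, ?_, fun g => ?_⟩
  · apply Matrix.map_injective hi
    change (f * f').map _ = Matrix.map _ _
    rw [Matrix.map_mul, hf, hf', Matrix.smul_mul, Matrix.mul_smul, ← LinearMap.toMatrix'_comp,
      LinearEquiv.comp_coe, LinearEquiv.symm_trans_self]
    ext x y
    rw [Matrix.map_apply, Matrix.smul_apply, Matrix.smul_apply, Matrix.smul_apply]
    by_cases hxy : x = y <;> simp [Matrix.one_apply, hxy]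
  · apply Matrix.map_injective hi
    change (f' * f).map _ = Matrix.map _ _
    rw [Matrix.map_mul, hf, hf', Matrix.smul_mul, Matrix.mul_smul, ← LinearMap.toMatrix'_comp,
      LinearEquiv.comp_coe, LinearEquiv.self_trans_symm]
    ext x y
    rw [Matrix.map_apply, Matrix.smul_apply, Matrix.smul_apply, Matrix.smul_apply]
    by_cases hxy : x = y <;> simp [Matrix.one_apply, hxy, mul_comm]
  · apply Matrix.map_injective hi
    change (f * permRep τ g).map _ = (permRep σ g * f).map _
    have h1 : e.toLinearMap ∘ₗ Matrix.toLin' ((permRep τ g).map (Int.castRingHom ℚ)) =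
        Matrix.toLin' ((permRep σ g).map (Int.castRingHom ℚ)) ∘ₗ e.toLinearMap :=
      LinearMap.ext (he ⟨_, g, rfl⟩)
    have h2 := congrArg LinearMap.toMatrix' h1
    rw [LinearMap.toMatrix'_comp, LinearMap.toMatrix'_comp, LinearMap.toMatrix'_toLin',
      LinearMap.toMatrix'_toLin'] at h2
    rw [Matrix.map_mul, Matrix.map_mul, hf, Matrix.smul_mul, Matrix.mul_smul, h2]

theorem swan_sq {W : Type w} [AddCommGroup W] (S : Swan G W)
    (h : ∀ g, Nat.card {x // σ g x = x} = Nat.card {y // τ g y = y}) :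
    S.κ (permRep (permProd σ σ)) + S.κ (permRep (permProd τ τ)) =
      S.κ (permRep (permProd τ σ)) + S.κ (permRep (permProd σ τ)) := by
  obtain ⟨S', hS⟩ := S.toM
  obtain ⟨n, f, f', hn, h1, h2, h3⟩ := perm_inter σ τ h
  have hn' : (n : ℤ) ≠ 0 := by exact_mod_cast hn.ne'
  have e1 : ∀ g x, Matrix.toLin' f (matRep (permRep τ) g x) =
      matRep (permRep σ) g (Matrix.toLin' f x) := fun g x => by
    change f *ᵥ (permRep τ g *ᵥ x) = permRep σ g *ᵥ (f *ᵥ x)
    rw [Matrix.mulVec_mulVec, Matrix.mulVec_mulVec, h3]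
  have e2 : Function.Injective (Matrix.toLin' f) := fun x y hxy => by
    have h4 : f' *ᵥ (f *ᵥ x) = f' *ᵥ (f *ᵥ y) := congrArg (f' *ᵥ ·) hxy
    rw [Matrix.mulVec_mulVec, Matrix.mulVec_mulVec, h2, Matrix.smul_mulVec, Matrix.smul_mulVec,
      Matrix.one_mulVec, Matrix.one_mulVec] at h4
    exact smul_right_injective _ hn' h4
  have e3 : ∀ x, (n : ℤ) • x ∈ (Matrix.toLin' f).range := fun x => ⟨f' *ᵥ x, by
    rw [Matrix.toLin'_apply, Matrix.mulVec_mulVec, h1, Matrix.smul_mulVec, Matrix.one_mulVec]⟩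
  have h5 := S'.sq (matRep (permRep σ)) (matRep (permRep τ)) (matRep (permRep σ))
    (matRep (permRep τ)) _ _ e1 e1 e2 e2 n n hn' hn' e3 e3
  simpa only [SwF_tp, hS] using h5

end Pool.Agent.MP_f7db47_al.VC
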