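import Pool.Agent.MP_f7db47_al.VC.VB
import Pool.Agent.MP_f7db47_al.GF.FCov

/-!
Improving the Lipschitz constant of a flow.
-/

namespace Pool.Agent.MP_f7db47_al.VC

open GN GF Metric

/-- A copy of the space. -/
def WF_Y (Y : Type) : Type := Y

/-- The identity map to the copy. -/
def WF_e (Y : Type) : Y ≃ WF_Y Y := Equiv.refl Y

section

variable {Γ Y : Type} [Group Γ] [MetricSpace Y] [MulAction Γ Y] (F : WFlow Γ Y)

/-- The new distance. -/
noncomputable def WF_d (y y' : Y) : ℝ :=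
  ⨆ s : ℝ, Real.exp (-(F.κ * |s|)) * dist (F.Φ s y) (F.Φ s y')

theorem WF_iff {κ r x t : ℝ} :
    Real.exp (-(κ * |t|)) * x ≤ r ↔ x ≤ r * Real.exp (κ * |t|) := by
  rw [Real.exp_neg, inv_mul_le_iff₀ (Real.exp_pos _), mul_comm]

theorem WF_lip (s : ℝ) (y y' : Y) :
    dist (F.Φ s y) (F.Φ s y') ≤ F.A * dist y y' * Real.exp (F.κ * |s|) :=
  (F.lip s y y').trans_eq (mul_right_comm _ _ _)

theorem WF_le (y y' : Y) (r : ℝ) :
    WF_d F y y' ≤ r ↔ ∀ s, dist (F.Φ s y) (F.Φ s y') ≤ r * Real.exp (F.κ * |s|) := by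
  unfold WF_d
  rw [ciSup_le_iff ⟨F.A * dist y y', by
    rintro _ ⟨s, rfl⟩
    exact WF_iff.2 (WF_lip F s y y')⟩]
  exact forall_congr' fun t => WF_iff

theorem WF_pt (y y' : Y) (s : ℝ) :
    dist (F.Φ s y) (F.Φ s y') ≤ WF_d F y y' * Real.exp (F.κ * |s|) :=
  (WF_le F y y' _).1 le_rfl s

theorem WF_zero (y y' : Y) : dist y y' ≤ WF_d F y y' := by
  simpa [F.zero] using WF_pt F y y' 0

theorem WF_up (y y' : Y) : WF_d F y y' ≤ F.A * dist y y' :=
  (WF_le F y y' _).2 fun s => WF_lip F s y y'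

theorem WF_comm (y y' : Y) : WF_d F y y' = WF_d F y' y := by
  unfold WF_d
  simp only [dist_comm]

/-- The new metric. -/
@[reducible] noncomputable def WF_met : MetricSpace (WF_Y Y) where
  dist := WF_d (Y := Y) F
  dist_self c := le_antisymm ((WF_le F c c 0).2 fun t => by simp)
    (dist_nonneg.trans (WF_zero F c c))
  dist_comm c c' := WF_comm F c c'
  dist_triangle c c' c'' := (WF_le F c c'' _).2 fun t => by
    rw [add_mul]
    exact (dist_triangle _ (F.Φ t c') _).trans (add_le_add (WF_pt F c c' t) (WF_pt F c' c'' t))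
  eq_of_dist_eq_zero := fun {c c'} e =>
    (dist_le_zero (γ := Y)).1 ((WF_zero F c c').trans_eq e)

theorem WF_ball (y : Y) (r : ℝ) :
    letI := WF_met F
    IsCompact (closedBall (WF_e Y y) r) ∧ Cov (closedBall (WF_e Y y) r) F.m := by
  let _ := WF_met F
  have hf : ∀ p p' : Y, dist (WF_e Y p) (WF_e Y p') ≤ F.A * dist p p' := WF_up F
  have hs : closedBall (WF_e Y y) r ⊆ WF_e Y '' closedBall y r := fun c hc =>
    ⟨c, (WF_zero F c y).trans hc, rfl⟩
  have hc : Continuous (WF_e Y) := (LipschitzWith.of_dist_le' hf).continuous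
  exact ⟨((F.cpt y r).image hc).of_isClosed_subset isClosed_closedBall hs,
    ((F.cov y r).image _ F.A fun p _ p' _ => hf p p').subset hs⟩

end

theorem WFlow.toFlow {Γ Y : Type} [Group Γ] [MetricSpace Y] [MulAction Γ Y] (F : WFlow Γ Y) :
    ∃ (Y' : Type) (_ : MetricSpace Y') (_ : MulAction Γ Y') (F' : Flow Γ Y') (e : Y ≃ Y'),
      (∀ (γ : Γ) y, e (γ • y) = γ • e y) ∧ (∀ s y, e (F.Φ s y) = F'.Φ s (e y)) ∧
      ∀ y y', dist (e y) (e y') ≤ F.A * dist y y' := by
  have h1 : ∀ (γ : Γ) (y y' : Y), WF_d F (γ • y) (γ • y') = WF_d F y y' := fun γ y y' => by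
    unfold WF_d
    simp only [F.smul, F.iso]
  have h2 : ∀ (s : ℝ) (y y' : Y),
      WF_d F (F.Φ s y) (F.Φ s y') ≤ Real.exp (F.κ * |s|) * WF_d F y y' := fun s y y' =>
    (WF_le F _ _ _).2 fun t => by
      have h3 : Real.exp (F.κ * |t + s|) ≤ Real.exp (F.κ * |s|) * Real.exp (F.κ * |t|) := by
        rw [← Real.exp_add, Real.exp_le_exp, ← mul_add, add_comm |s|]
        exact mul_le_mul_of_nonneg_left (abs_add_le t s) F.hκ
      rw [← F.add, ← F.add]
      refine (WF_pt F y y' (t + s)).trans ((mul_le_mul_of_nonneg_left h3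
        (dist_nonneg.trans (WF_zero F y y'))).trans_eq ?_)
      ring
  have h3 : ∀ (s t : ℝ) (y : Y), WF_d F (F.Φ s y) (F.Φ t y) ≤ |s - t| := fun s t y =>
    (WF_le F _ _ _).2 fun u => by
      have h4 := F.spd (u + s) (u + t) y
      rw [add_sub_add_left_eq_sub] at h4
      rw [← F.add, ← F.add]
      exact h4.trans (le_mul_of_one_le_right (abs_nonneg _)
        (Real.one_le_exp (mul_nonneg F.hκ (abs_nonneg u))))
  let _ := WF_met F
  let _ : MulAction Γ (WF_Y Y) := inferInstanceAs (MulAction Γ Y)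
  exact ⟨WF_Y Y, inferInstance, inferInstance,
    { Φ := F.Φ
      κ := F.κ
      m := F.m
      hκ := F.hκ
      zero := F.zero
      add := F.add
      smul := F.smul
      iso := h1
      lip := h2
      spd := h3
      prp := fun y r => (F.prp y r).subset fun γ hγ => (WF_zero F _ _).trans hγ
      cpt := fun y r => (WF_ball F y r).1
      cov := fun y r => (WF_ball F y r).2 }, WF_e Y, fun _ _ => rfl, fun _ _ => rfl, WF_up F⟩

end Pool.Agent.MP_f7db47_al.VC
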